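import Pool.Agent.H364Z.Constr

set_option autoImplicit false

open Real Set Filter Topology MeasureTheory

namespace Pool.Agent.H364Z

variable {η l s : ℝ} {φ ψ : ℝ → ℝ}

theorem sin_taylor (x y : ℝ) : |sin y - sin x - cos x * (y - x)| ≤ (y - x) ^ 2 := by
  have h := (convex_uIcc x y).norm_image_sub_le_of_norm_hasDerivWithin_le
    (f := fun u => sin u - cos x * u) (f' := fun u => cos u - cos x) (C := |y - x|)
    (fun u _ => (((hasDerivAt_sin u).sub ((hasDerivAt_id u).const_mul (cos x))).congr_deriv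
      (by ring)).hasDerivWithinAt)
    (fun u hu => by
      rw [Real.norm_eq_abs]
      exact (Real.abs_cos_sub_cos_le u x).trans (abs_sub_left_of_mem_uIcc hu))
    left_mem_uIcc right_mem_uIcc
  rw [Real.norm_eq_abs, Real.norm_eq_abs, abs_mul_abs_self] at h
  convert h using 2 <;> ring

/-- first order expansion of the period map in the parameters -/
theorem D_pert (η l s : ℝ) (m : ℤ) (x : ℝ) : ∃ C : ℝ, 0 < C ∧ ∀ l' s' : ℝ,
    |exp (η * Cs (sol η l s x) (2 * π)) * (D η l' s' m x - D η l s m x)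
      - (l' - l) * bq η (sol η l s x) - (s' - s) * cq η (sol η l s x)|
      ≤ C * (|l' - l| + |s' - s|) ^ 2 := by
  have hφ := sol_isSol η l s x
  set φ := sol η l s x with hφd
  have hC := Cs_cont hφ.continuous
  obtain ⟨M, hM⟩ := (isCompact_Icc (a := 0) (b := 2 * π)).exists_bound_of_continuousOn
    (f := fun τ => exp (η * Cs φ τ)) (by fun_prop)
  have hM0 : 0 < M := lt_of_lt_of_le (by simp) (hM 0 ⟨le_rfl, by positivity⟩)
  refine ⟨M * ((|η| + 1) * exp (2 * π * (|η| + 1)) ^ 2) * (2 * π), by positivity, fun l' s' => ?_⟩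
  have hψ := sol_isSol η l' s' x
  set ψ := sol η l' s' x with hψd
  have c1 : Continuous fun τ => exp (η * Cs φ τ) := by fun_prop
  have c2 : Continuous fun τ => cos τ * exp (η * Cs φ τ) := by fun_prop
  have hd : ∀ τ, HasDerivAt (fun τ => exp (η * Cs φ τ) * (ψ τ - φ τ)
      - (l' - l) * (∫ u in (0 : ℝ)..τ, exp (η * Cs φ u))
      - (s' - s) * (∫ u in (0 : ℝ)..τ, cos u * exp (η * Cs φ u)))
      (-(exp (η * Cs φ τ) * (η * (sin (ψ τ) - sin (φ τ) - cos (φ τ) * (ψ τ - φ τ))))) τ := by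
    intro τ
    have h1 := ((Cs_deriv hφ.continuous τ).const_mul η).exp
    have h2 := (c1.integral_hasStrictDerivAt 0 τ).hasDerivAt.const_mul (l' - l)
    have h3 := (c2.integral_hasStrictDerivAt 0 τ).hasDerivAt.const_mul (s' - s)
    refine (((h1.mul ((hψ τ).sub (hφ τ))).sub h2).sub h3).congr_deriv ?_
    simp only [Pi.sub_apply]
    ring
  have h := (convex_Icc 0 (2 * π)).norm_image_sub_le_of_norm_hasDerivWithin_le
    (C := M * ((|η| + 1) * exp (2 * π * (|η| + 1)) ^ 2) * (|l' - l| + |s' - s|) ^ 2)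
    (fun τ _ => (hd τ).hasDerivWithinAt) (fun τ hτ => by
      rw [norm_neg, norm_mul, norm_mul, Real.norm_eq_abs η, Real.norm_eq_abs (_ - _)]
      have h1 := sin_taylor (φ τ) (ψ τ)
      have h2 := hφ.est hψ hτ
      rw [hφd, hψd, sol_zero, sol_zero, sub_self, sub_self, abs_zero, zero_add, add_zero,
        abs_sub_comm l, abs_sub_comm s, abs_sub_comm] at h2
      have h3 : (ψ τ - φ τ) ^ 2 ≤ ((|l' - l| + |s' - s|) * exp (2 * π * (|η| + 1))) ^ 2 := by
        rw [← sq_abs]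
        exact pow_le_pow_left₀ (abs_nonneg _) h2 2
      have h4 : |η| * |sin (ψ τ) - sin (φ τ) - cos (φ τ) * (ψ τ - φ τ)|
          ≤ (|η| + 1) * ((|l' - l| + |s' - s|) * exp (2 * π * (|η| + 1))) ^ 2 :=
        mul_le_mul (by linarith) (h1.trans h3) (abs_nonneg _) (by positivity)
      refine (mul_le_mul (hM τ hτ) h4 (by positivity) hM0.le).trans (le_of_eq ?_)
      ring) ⟨le_rfl, by positivity⟩ two_pi_mem
  rw [Real.norm_eq_abs, Real.norm_eq_abs, sub_zero (2 * π), abs_of_pos (by positivity : 0 < 2 * π)]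
    at h
  simp only [hφd, hψd, sol_zero, sub_self, mul_zero, intervalIntegral.integral_same, sub_zero] at h
  refine le_trans (le_of_eq ?_) (h.trans (le_of_eq (by ring)))
  unfold D bq cq
  congr 1
  ring

theorem D_sign {m : ℤ} {x : ℝ} (h : D η l s m x = 0) (hE : Cs (sol η l s x) (2 * π) = 0)
    (hc : cq η (sol η l s x) ≠ 0) :
    ∀ᶠ s' in 𝓝[≠] s, 0 < cq η (sol η l s x) * (s' - s) * D η l s' m x := by
  obtain ⟨C, hC0, hC⟩ := D_pert η l s m x
  set c := cq η (sol η l s x)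
  have hcp : 0 < |c| := abs_pos.2 hc
  have e1 : ∀ᶠ s' in 𝓝 s, |s' - s| < |c| / C := by
    have : Tendsto (fun s' => |s' - s|) (𝓝 s) (𝓝 0) := by
      have : Continuous fun s' => |s' - s| := by fun_prop
      simpa using this.tendsto s
    exact this.eventually (gt_mem_nhds (by positivity))
  filter_upwards [e1.filter_mono nhdsWithin_le_nhds, self_mem_nhdsWithin] with s' h1 h2
  have h3 := hC l s'
  rw [hE, h, mul_zero, exp_zero, sub_self, abs_zero, zero_add, zero_mul, sub_zero, sub_zero,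
    one_mul] at h3
  have hδ : 0 < |s' - s| := abs_pos.2 (sub_ne_zero.2 h2)
  rw [lt_div_iff₀ hC0] at h1
  have h4 : |D η l s' m x - (s' - s) * c| < |(s' - s) * c| := by
    rw [abs_mul]
    nlinarith
  have h5 := sq_lt_sq.2 h4
  nlinarith [sq_nonneg (D η l s' m x)]

theorem sym_p : π - π / 2 = π / 2 + ((0 : ℤ) : ℝ) * (2 * π) := by push_cast; ring

theorem sym_m : π - -(π / 2) = -(π / 2) + ((1 : ℤ) : ℝ) * (2 * π) := by push_cast; ring

theorem both_zero {m : ℤ} (h1 : D η l s m (π / 2) = 0) (h2 : D η l s m (-(π / 2)) = 0) (y : ℝ) :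
    D η l s m y = 0 := by
  have w1 := (sol_isSol η l s (π / 2)).wr (sol_isSol η l s y) (2 * π)
  have w2 := (sol_isSol η l s (-(π / 2))).wr (sol_isSol η l s y) (2 * π)
  rw [Cs_sym_zero sym_p h1] at w1
  rw [Cs_sym_zero sym_m h2] at w2
  simp only [sol_zero, mul_zero, exp_zero, one_mul] at w1 w2
  have hb := D_abs_lt h1 y
  set u : ℝ := (y - π / 2) / 2 with hu
  set p : ℝ := D η l s m y / 2 with hp
  have e1 : (sol η l s y (2 * π) - sol η l s (π / 2) (2 * π)) / 2 = u + p := by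
    unfold D at h1 hp; rw [hu, hp]; linarith
  have e2 : (sol η l s y (2 * π) - sol η l s (-(π / 2)) (2 * π)) / 2 = (u + p) + π / 2 := by
    unfold D at h2 hp; rw [hu, hp]; linarith
  have f2 : (y - -(π / 2)) / 2 = u + π / 2 := by rw [hu]; ring
  rw [e1] at w1
  rw [e2, f2, sin_add_pi_div_two, sin_add_pi_div_two] at w2
  have hc := exp_pos (η / 2 * Cs (sol η l s y) (2 * π))
  have h3 : exp (η / 2 * Cs (sol η l s y) (2 * π)) * sin p = 0 := by
    have : sin p = sin (u + p) * cos u - cos (u + p) * sin u := by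
      rw [← sin_sub]; congr 1; ring
    rw [this]
    linear_combination cos u * w1 - sin u * w2
  have h4 := (mul_eq_zero.1 h3).resolve_left hc.ne'
  rw [abs_lt] at hb
  have := (sin_eq_zero_iff_of_lt_of_lt (by rw [hp]; linarith) (by rw [hp]; linarith)).1 h4
  linarith

/-- near a constriction the vertical line lies in the interior of the phase-lock area -/
theorem constr_pos (hη : 0 < η) (hs : 0 < s) (hl : 0 ≤ l) {m : ℤ} (h : ∀ x, D η l s m x = 0) :
    ∀ᶠ s' in 𝓝[≠] s, D η l s' m (π / 2) * D η l s' m (-(π / 2)) < 0 := by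
  obtain ⟨-, -, h3⟩ := constr hη hs hl h
  have c1 : cq η (fp η l s) ≠ 0 := left_ne_zero_of_mul h3.ne
  have c2 : cq η (fm η l s) ≠ 0 := right_ne_zero_of_mul h3.ne
  filter_upwards [D_sign (h _) (Cs_sym_zero sym_p (h _)) c1,
    D_sign (h _) (Cs_sym_zero sym_m (h _)) c2] with s' h1 h2
  have h4 := mul_pos h1 h2
  by_contra hn
  push Not at hn
  have : cq η (fp η l s) * cq η (fm η l s) * ((s' - s) ^ 2
      * (D η l s' m (π / 2) * D η l s' m (-(π / 2)))) ≤ 0 :=
    mul_nonpos_of_nonpos_of_nonneg h3.le (mul_nonneg (sq_nonneg _) hn)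
  nlinarith

theorem D_base (hη : 0 < η) {m : ℤ} (hm : 1 ≤ m) (x : ℝ) : D η m 0 m x < 0 := by
  have hm' : (1 : ℝ) ≤ m := by exact_mod_cast hm
  have hφ := sol_isSol η m 0 x
  set φ := sol η m 0 x with hφd
  have hc := hφ.continuous
  by_contra hn
  push Not at hn
  have hp : 0 < 2 * π := by positivity
  obtain ⟨T, hT, hT2⟩ : ∃ T ∈ Icc 0 (2 * π), φ T = x + m * (2 * π) := by
    apply intermediate_value_Icc hp.le hc.continuousOn
    unfold D at hn
    rw [hφd, sol_zero]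
    constructor <;> nlinarith
  have hd : ∀ τ, HasDerivAt (fun τ => m * (φ τ - m * τ) - η * cos (φ τ))
      (-(η ^ 2 * sin (φ τ) ^ 2)) τ := by
    intro τ
    refine ((((hφ τ).sub ((hasDerivAt_id τ).const_mul (m : ℝ))).const_mul (m : ℝ)).sub
      ((hφ τ).cos.const_mul η)).congr_deriv ?_
    ring
  have hanti : Antitone fun τ => m * (φ τ - m * τ) - η * cos (φ τ) :=
    antitone_of_deriv_nonpos (fun τ => (hd τ).differentiableAt) fun τ => by
      rw [(hd τ).deriv]
      have : 0 ≤ η ^ 2 * sin (φ τ) ^ 2 := by positivity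
      linarith
  have h0 : φ 0 = x := by rw [hφd, sol_zero]
  have hT0 : 0 < T := by
    refine lt_of_le_of_ne hT.1 fun h => ?_
    rw [← h, h0] at hT2
    nlinarith
  have hge : m * (φ 0 - m * 0) - η * cos (φ 0) ≤ m * (φ T - m * T) - η * cos (φ T) := by
    rw [hT2, h0, cos_add_int_mul_two_pi]
    have : 0 ≤ m * (m * (2 * π - T)) := by
      have := hT.2
      have : 0 ≤ 2 * π - T := by linarith
      positivity
    nlinarith
  have hsin : ∀ τ ∈ Ioo 0 T, sin (φ τ) = 0 := by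
    intro τ hτ
    have hconst : (fun τ => m * (φ τ - m * τ) - η * cos (φ τ)) =ᶠ[𝓝 τ]
        fun _ => m * (φ 0 - m * 0) - η * cos (φ 0) := by
      filter_upwards [Ioo_mem_nhds hτ.1 hτ.2] with u hu
      exact le_antisymm (hanti hu.1.le) (hge.trans (hanti hu.2.le))
    have := (hd τ).unique ((hasDerivAt_const τ _).congr_of_eventuallyEq hconst)
    have h2 : sin (φ τ) ^ 2 = 0 := by
      have : η ^ 2 * sin (φ τ) ^ 2 = 0 := by linarith
      exact (mul_eq_zero.1 this).resolve_left (by positivity)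
    exact pow_eq_zero_iff (two_ne_zero) |>.1 h2
  have hmid : T / 2 ∈ Ioo 0 T := ⟨by linarith, by linarith⟩
  have hconst : (fun τ => sin (φ τ)) =ᶠ[𝓝 (T / 2)] fun _ => 0 := by
    filter_upwards [Ioo_mem_nhds hmid.1 hmid.2] with u hu using hsin u hu
  have := ((hφ (T / 2)).sin).unique ((hasDerivAt_const _ _).congr_of_eventuallyEq hconst)
  have h3 := hsin _ hmid
  have h4 := sin_sq_add_cos_sq (φ (T / 2))
  rw [h3] at this h4
  have h5 : cos (φ (T / 2)) = 0 := by
    have : cos (φ (T / 2)) * m = 0 := by linarith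
    exact (mul_eq_zero.1 this).resolve_right (by linarith)
  rw [h5] at h4
  norm_num at h4

/-- the larger of the two symmetric displacements on the axis -/
noncomputable def Mx (η : ℝ) (m : ℤ) (s : ℝ) : ℝ := max (D η m s m (π / 2)) (D η m s m (-(π / 2)))

noncomputable def Mn (η : ℝ) (m : ℤ) (s : ℝ) : ℝ := min (D η m s m (π / 2)) (D η m s m (-(π / 2)))

theorem D_cont_s (η l : ℝ) (m : ℤ) (x : ℝ) : Continuous fun s => D η l s m x :=
  D_cont continuous_const continuous_const continuous_id continuous_const m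

theorem Mx_cont (η : ℝ) (m : ℤ) : Continuous (Mx η m) := (D_cont_s _ _ _ _).max (D_cont_s _ _ _ _)

theorem Mn_cont (η : ℝ) (m : ℤ) : Continuous (Mn η m) := (D_cont_s _ _ _ _).min (D_cont_s _ _ _ _)

theorem Mn_le_Mx (η : ℝ) (m : ℤ) (s : ℝ) : Mn η m s ≤ Mx η m s := min_le_max

theorem dich {m : ℤ} (hη : 0 < η) (hs : 0 < s) (hm : 0 ≤ m) (h : Mx η m s = 0 ∨ Mn η m s = 0) :
    (∀ y, D η m s m y = 0) ∨ Simple η m s := by
  have : D η m s m (π / 2) = 0 ∨ D η m s m (-(π / 2)) = 0 := by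
    unfold Mx Mn at h
    rcases h with h | h
    · rcases max_choice (D η m s m (π / 2)) (D η m s m (-(π / 2))) with h1 | h1 <;> rw [h1] at h
      exacts [Or.inl h, Or.inr h]
    · rcases min_choice (D η m s m (π / 2)) (D η m s m (-(π / 2))) with h1 | h1 <;> rw [h1] at h
      exacts [Or.inl h, Or.inr h]
  rcases this with h | h
  · exact classify hη hs hm sym_p h
  · exact classify hη hs hm sym_m h

theorem constr_M {m : ℤ} (hη : 0 < η) (hs : 0 < s) (hm : 0 ≤ m) (h : ∀ y, D η m s m y = 0) :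
    ∀ᶠ s' in 𝓝[≠] s, Mn η m s' < 0 ∧ 0 < Mx η m s' := by
  filter_upwards [constr_pos hη hs (by exact_mod_cast hm) h] with s' h1
  unfold Mn Mx
  rcases mul_neg_iff.1 h1 with ⟨h2, h3⟩ | ⟨h2, h3⟩
  · exact ⟨min_lt_of_right_lt h3, lt_max_of_lt_left h2⟩
  · exact ⟨min_lt_of_left_lt h2, lt_max_of_lt_right h3⟩

theorem first_zero {f : ℝ → ℝ} (hf : Continuous f) {a b : ℝ} (hab : a ≤ b) (ha : f a < 0)
    (hb : 0 ≤ f b) : ∃ c, a < c ∧ c ≤ b ∧ f c = 0 ∧ ∀ u ∈ Ico a c, f u < 0 := by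
  obtain ⟨c, ⟨hc1, hc2⟩, hc3⟩ := (isCompact_Icc.inter_right
    (isClosed_eq hf continuous_const)).exists_isLeast
    (intermediate_value_Icc hab hf.continuousOn ⟨ha.le, hb⟩)
  have hc2' : f c = 0 := hc2
  refine ⟨c, lt_of_le_of_ne hc1.1 (fun h => by rw [h, hc2'] at ha; exact lt_irrefl _ ha),
    hc1.2, hc2', fun u hu => ?_⟩
  by_contra hn
  push Not at hn
  obtain ⟨v, hv, hv0⟩ := intermediate_value_Icc hu.1 hf.continuousOn ⟨ha.le, hn⟩
  have := hc3 ⟨⟨hv.1, hv.2.trans (hu.2.le.trans hc1.2)⟩, hv0⟩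
  linarith [hv.2, hu.2]

theorem last_zero {f : ℝ → ℝ} (hf : Continuous f) {a b : ℝ} (hab : a ≤ b) (ha : 0 ≤ f a)
    (hb : f b < 0) : ∃ c, a ≤ c ∧ c < b ∧ f c = 0 ∧ ∀ u ∈ Ioc c b, f u < 0 := by
  obtain ⟨c, h1, h2, h3, h4⟩ := first_zero (f := fun u => f (-u)) (by fun_prop) (a := -b) (b := -a)
    (by linarith) (by simpa using hb) (by simpa using ha)
  refine ⟨-c, by linarith, by linarith, h3, fun u hu => ?_⟩
  simpa using h4 (-u) ⟨by linarith [hu.2], by linarith [hu.1]⟩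

theorem exists_left {p : ℝ → Prop} {a c : ℝ} (hac : a < c) (h : ∀ᶠ u in 𝓝[≠] c, p u) :
    ∃ u ∈ Ioo a c, p u := by
  have h1 : ∀ᶠ u in 𝓝[<] c, p u := h.filter_mono (nhdsLT_le_nhdsNE c)
  obtain ⟨u, h2, h3⟩ := (h1.and (Ioo_mem_nhdsLT hac)).exists
  exact ⟨u, h3, h2⟩

theorem exists_right {p : ℝ → Prop} {c b : ℝ} (hcb : c < b) (h : ∀ᶠ u in 𝓝[≠] c, p u) :
    ∃ u ∈ Ioo c b, p u := by
  have h1 : ∀ᶠ u in 𝓝[>] c, p u := h.filter_mono (nhdsGT_le_nhdsNE c)
  obtain ⟨u, h2, h3⟩ := (h1.and (Ioo_mem_nhdsGT hcb)).exists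
  exact ⟨u, h3, h2⟩

/-- the structure of the axis -/
theorem axis {m : ℤ} (hη : 0 < η) (hm : 1 ≤ m) : ∃ t, 0 < t ∧ t < m + η ∧
    (∀ s ∈ Ico 0 t, Mx η m s < 0) ∧ Mx η m t = 0 ∧ Mn η m t < 0 ∧
    ∀ s, t < s → (∀ y, D η m s m y = 0) ∨ (Mn η m s < 0 ∧ 0 < Mx η m s) := by
  have hm0 : 0 ≤ m := by omega
  have hm' : (0 : ℝ) ≤ m := by exact_mod_cast hm0
  obtain ⟨c, hc0, hc⟩ := exists_hardy hη hm'
  have hc1 := hc.all hη hc0 hm0
  have hc2 := hc.lower hc0
  have hc3 : Mx η m c = 0 := by simp [Mx, hc1]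
  obtain ⟨t, t0, t1, t2, t3⟩ := first_zero (Mx_cont η m) hc0.le
    (max_lt (D_base hη hm _) (D_base hη hm _)) hc3.ge
  have tn : ¬ ∀ y, D η m t m y = 0 := by
    intro h
    obtain ⟨u, hu, hu2⟩ := exists_left t0 (constr_M hη t0 hm0 h)
    exact lt_asymm hu2.2 (t3 u ⟨hu.1.le, hu.2⟩)
  have tS : Simple η m t := (dich hη t0 hm0 (Or.inl t2)).resolve_left tn
  have tl := tS.lt hη t0
  have tM : Mn η m t < 0 := by
    refine lt_of_le_of_ne ((Mn_le_Mx η m t).trans t2.le) fun h => tn ?_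
    unfold Mx Mn at *
    have a1 : D η m t m (π / 2) = 0 := le_antisymm (t2 ▸ le_max_left _ _) (h ▸ min_le_left _ _)
    have a2 : D η m t m (-(π / 2)) = 0 :=
      le_antisymm (t2 ▸ le_max_right _ _) (h ▸ min_le_right _ _)
    exact both_zero a1 a2
  have hcl : ∀ s, t < s → Mx η m s = 0 ∨ Mn η m s = 0 → ∀ y, D η m s m y = 0 := by
    intro s hs h
    refine (dich hη (t0.trans hs) hm0 h).resolve_right fun hS => ?_
    exact hs.ne (tS.unique hη t0 (t0.trans hs) hS)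
  have hMx : ∀ s, t < s → 0 ≤ Mx η m s := by
    intro s hs
    by_contra hn
    push Not at hn
    rcases le_total s c with h1 | h1
    · obtain ⟨u, u0, -, u2, u3⟩ := first_zero (Mx_cont η m) h1 hn hc3.ge
      obtain ⟨v, hv, hv2⟩ := exists_left u0
        (constr_M hη (t0.trans (hs.trans u0)) hm0 (hcl u (hs.trans u0) (Or.inl u2)))
      exact lt_asymm hv2.2 (u3 v ⟨hv.1.le, hv.2⟩)
    · obtain ⟨u, u0, u1, u2, u3⟩ := last_zero (Mx_cont η m) h1 hc3.ge hn
      have : t < u := by linarith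
      obtain ⟨v, hv, hv2⟩ := exists_right u1
        (constr_M hη (t0.trans this) hm0 (hcl u this (Or.inl u2)))
      exact lt_asymm hv2.2 (u3 v ⟨hv.1, hv.2.le⟩)
  have hMn : ∀ s, t < s → Mn η m s ≤ 0 := by
    intro s hs
    by_contra hn
    push Not at hn
    obtain ⟨u, u0, u1, u2, u3⟩ := last_zero (Mn_cont η m).neg hs.le
      (by simp only [Pi.neg_apply]; linarith) (by simp only [Pi.neg_apply]; linarith)
    simp only [Pi.neg_apply, neg_eq_zero, neg_lt_zero] at u2 u3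
    have : t < u := lt_of_le_of_ne u0 fun h => by rw [← h] at u2; exact tM.ne u2
    obtain ⟨v, hv, hv2⟩ := exists_right u1
      (constr_M hη (t0.trans this) hm0 (hcl u this (Or.inr u2)))
    exact lt_asymm hv2.1 (u3 v ⟨hv.1, hv.2.le⟩)
  refine ⟨t, t0, tl, t3, t2, tM, fun s hs => ?_⟩
  by_cases h1 : Mx η m s = 0 ∨ Mn η m s = 0
  · exact Or.inl (hcl s hs h1)
  · push Not at h1
    exact Or.inr ⟨lt_of_le_of_ne (hMn s hs) h1.2, lt_of_le_of_ne (hMx s hs) h1.1.symm⟩

end Pool.Agent.H364Z
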