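import Mathlib
import Pool.Agent.Helper27.Har.P_global_ode

set_option autoImplicit false

open Real Set Filter Topology

namespace Pool.Agent.H364Z

/-- solutions of the equation on the torus -/
def IsSol (η l s : ℝ) (φ : ℝ → ℝ) : Prop :=
  ∀ τ, HasDerivAt φ (l + s * cos τ - η * sin (φ τ)) τ

theorem abs_sin_sub (x y : ℝ) : |sin x - sin y| ≤ |x - y| := Real.abs_sin_sub_sin_le x y

theorem lip (η l s τ : ℝ) :
    LipschitzWith (Real.nnabs η) (fun x => l + s * cos τ - η * sin x) := by
  apply LipschitzWith.of_dist_le_mul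
  intro x y
  rw [Real.dist_eq, Real.dist_eq, Real.coe_nnabs]
  have : l + s * cos τ - η * sin x - (l + s * cos τ - η * sin y) = -(η * (sin x - sin y)) := by ring
  rw [this, abs_neg, abs_mul]
  exact mul_le_mul_of_nonneg_left (abs_sin_sub x y) (abs_nonneg _)

theorem exists_sol (η l s x : ℝ) : ∃ φ : ℝ → ℝ, φ 0 = x ∧ IsSol η l s φ :=
  Haraux.global_ode (fun τ x => l + s * cos τ - η * sin x) (Real.nnabs η) (lip η l s)
    (by unfold Function.uncurry; fun_prop) x

noncomputable def sol (η l s x : ℝ) : ℝ → ℝ := (exists_sol η l s x).choose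

@[simp] theorem sol_zero (η l s x : ℝ) : sol η l s x 0 = x := (exists_sol η l s x).choose_spec.1

theorem sol_isSol (η l s x : ℝ) : IsSol η l s (sol η l s x) := (exists_sol η l s x).choose_spec.2

variable {η l s : ℝ} {φ ψ : ℝ → ℝ}

theorem IsSol.unique (hφ : IsSol η l s φ) (hψ : IsSol η l s ψ) {t₀ : ℝ} (h : φ t₀ = ψ t₀) :
    φ = ψ :=
  ODE_solution_unique_univ (v := fun τ x => l + s * cos τ - η * sin x) (s := fun _ => univ)
    (K := Real.nnabs η) (t₀ := t₀) (fun t => (lip η l s t).lipschitzOnWith)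
    (fun t => ⟨hφ t, mem_univ _⟩) (fun t => ⟨hψ t, mem_univ _⟩) h

theorem IsSol.eq_sol (hφ : IsSol η l s φ) : φ = sol η l s (φ 0) :=
  hφ.unique (sol_isSol _ _ _ _) (t₀ := 0) (by simp)

theorem IsSol.continuous (hφ : IsSol η l s φ) : Continuous φ :=
  continuous_iff_continuousAt.2 fun t => (hφ t).continuousAt

theorem IsSol.shift (hφ : IsSol η l s φ) (k m : ℤ) :
    IsSol η l s (fun τ => φ (τ + k * (2 * π)) + m * (2 * π)) := by
  intro τ
  have h := ((hφ (τ + k * (2 * π))).comp_add_const τ (k * (2 * π))).add_const (m * (2 * π))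
  rw [cos_add_int_mul_two_pi] at h
  rw [sin_add_int_mul_two_pi]
  exact h

theorem IsSol.neg (hφ : IsSol η l s φ) : IsSol η (-l) (-s) (fun τ => -φ τ) := by
  intro τ
  refine ((hφ τ).neg).congr_deriv ?_
  simp only [sin_neg]; ring

theorem IsSol.half (hφ : IsSol η l s φ) : IsSol η l (-s) (fun τ => φ (τ + π)) := by
  intro τ
  refine ((hφ (τ + π)).comp_add_const τ π).congr_deriv ?_
  simp only [cos_add_pi]; ring

theorem IsSol.refl (hφ : IsSol η l s φ) : IsSol η l s (fun τ => π - φ (-τ)) := by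
  intro τ
  refine (((hφ (-τ)).comp τ (hasDerivAt_neg τ)).const_sub π).congr_deriv ?_
  simp only [cos_neg, sin_pi_sub]; ring

theorem IsSol.lt (hφ : IsSol η l s φ) (hψ : IsSol η l s ψ) {t₀ : ℝ} (h : φ t₀ < ψ t₀) (t : ℝ) :
    φ t < ψ t := by
  by_contra hn
  push Not at hn
  have hc : Continuous fun u => ψ u - φ u := hψ.continuous.sub hφ.continuous
  have h0 : (0 : ℝ) ∈ range fun u => ψ u - φ u := by
    apply intermediate_value_univ t t₀ hc
    constructor <;> linarith
  obtain ⟨u, hu⟩ := h0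
  have : φ = ψ := hφ.unique hψ (t₀ := u) (by simp only at hu; linarith)
  rw [this] at h
  exact lt_irrefl _ h

theorem IsSol.le (hφ : IsSol η l s φ) (hψ : IsSol η l s ψ) {t₀ : ℝ} (h : φ t₀ ≤ ψ t₀) (t : ℝ) :
    φ t ≤ ψ t := by
  rcases h.lt_or_eq with h | h
  · exact (hφ.lt hψ h t).le
  · rw [hφ.unique hψ h]

/-- dependence on the data -/
theorem IsSol.est {η' l' s' : ℝ} (hφ : IsSol η l s φ) (hψ : IsSol η' l' s' ψ) {t : ℝ}
    (ht : t ∈ Icc 0 (2 * π)) :
    |φ t - ψ t| ≤ (|φ 0 - ψ 0| + (|l - l'| + |s - s'| + |η - η'|)) * exp (2 * π * (|η| + 1)) := by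
  set K : ℝ := |η| + 1 with hK
  set ε : ℝ := |l - l'| + |s - s'| + |η - η'| with hε
  have hK1 : 1 ≤ K := by have := abs_nonneg η; linarith
  have hε0 : 0 ≤ ε := by positivity
  have h := norm_le_gronwallBound_of_norm_deriv_right_le (f := fun u => φ u - ψ u)
    (f' := fun u => (l + s * cos u - η * sin (φ u)) - (l' + s' * cos u - η' * sin (ψ u)))
    (δ := |φ 0 - ψ 0|) (K := K) (ε := ε) (a := 0) (b := 2 * π)
    (hφ.continuous.sub hψ.continuous).continuousOn
    (fun u _ => ((hφ u).sub (hψ u)).hasDerivWithinAt) (by simp) (by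
      intro u _
      rw [Real.norm_eq_abs, Real.norm_eq_abs]
      have e : l + s * cos u - η * sin (φ u) - (l' + s' * cos u - η' * sin (ψ u))
          = (l - l') + (s - s') * cos u - η * (sin (φ u) - sin (ψ u)) - (η - η') * sin (ψ u) := by
        ring
      rw [e]
      have h1 : |(s - s') * cos u| ≤ |s - s'| := by
        rw [abs_mul]; exact mul_le_of_le_one_right (abs_nonneg _) (abs_cos_le_one _)
      have h2 : |(η - η') * sin (ψ u)| ≤ |η - η'| := by
        rw [abs_mul]; exact mul_le_of_le_one_right (abs_nonneg _) (abs_sin_le_one _)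
      have h3 : |η * (sin (φ u) - sin (ψ u))| ≤ K * |φ u - ψ u| := by
        rw [abs_mul]
        exact mul_le_mul (by linarith) (abs_sin_sub _ _) (abs_nonneg _) (by linarith)
      have h4 := abs_sub ((l - l') + (s - s') * cos u - η * (sin (φ u) - sin (ψ u)))
        ((η - η') * sin (ψ u))
      have h5 := abs_sub ((l - l') + (s - s') * cos u) (η * (sin (φ u) - sin (ψ u)))
      have h6 := abs_add_le (l - l') ((s - s') * cos u)
      linarith) t ht
  rw [Real.norm_eq_abs, gronwallBound_of_K_ne_0 (by linarith), sub_zero] at h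
  have he : exp (K * t) ≤ exp (2 * π * K) := by
    apply exp_le_exp.2
    have := ht.2
    nlinarith
  have he0 := exp_pos (K * t)
  have h7 : ε / K ≤ ε := div_le_self hε0 hK1
  have h8 : 0 ≤ ε / K := by positivity
  have h9 : ε / K * (exp (K * t) - 1) ≤ ε * exp (2 * π * K) := by nlinarith
  have h10 : |φ 0 - ψ 0| * exp (K * t) ≤ |φ 0 - ψ 0| * exp (2 * π * K) :=
    mul_le_mul_of_nonneg_left he (abs_nonneg _)
  calc |φ t - ψ t| ≤ _ := h
    _ ≤ _ := by linarith

theorem sol_cont {X : Type} [TopologicalSpace X] {fη fl fs fx : X → ℝ} (hη : Continuous fη)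
    (hl : Continuous fl) (hs : Continuous fs) (hx : Continuous fx) {t : ℝ}
    (ht : t ∈ Icc 0 (2 * π)) : Continuous fun p => sol (fη p) (fl p) (fs p) (fx p) t := by
  rw [continuous_iff_continuousAt]
  intro p₀
  rw [ContinuousAt, tendsto_iff_dist_tendsto_zero]
  have hb : Tendsto (fun p => (|fx p₀ - fx p| + (|fl p₀ - fl p| + |fs p₀ - fs p| + |fη p₀ - fη p|))
      * exp (2 * π * (|fη p₀| + 1))) (𝓝 p₀) (𝓝 0) := by
    have : Continuous fun p => (|fx p₀ - fx p| + (|fl p₀ - fl p| + |fs p₀ - fs p| + |fη p₀ - fη p|))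
      * exp (2 * π * (|fη p₀| + 1)) := by fun_prop
    have h := this.tendsto p₀
    simpa using h
  refine squeeze_zero (fun _ => dist_nonneg) (fun p => ?_) hb
  rw [dist_comm, Real.dist_eq]
  have := (sol_isSol (fη p₀) (fl p₀) (fs p₀) (fx p₀)).est (sol_isSol (fη p) (fl p) (fs p) (fx p)) ht
  simpa using this

/-- strict monotonicity in the abscissa -/
theorem IsSol.lt_of_lt {l' : ℝ} (hφ : IsSol η l s φ) (hψ : IsSol η l' s ψ) (hl : l < l')
    (h0 : φ 0 ≤ ψ 0) {t : ℝ} (ht : 0 < t) : φ t < ψ t := by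
  have hle : ∀ u ∈ Icc 0 t, φ u ≤ ψ u := by
    intro u hu
    refine image_le_of_deriv_right_lt_deriv_boundary (f := φ)
      (f' := fun u => l + s * cos u - η * sin (φ u)) hφ.continuous.continuousOn
      (fun u _ => (hφ u).hasDerivWithinAt) h0 hψ ?_ hu
    intro u _ hu
    simp only [hu]
    linarith
  have hd : ∀ u, HasDerivAt (fun u => (ψ u - φ u) * exp (|η| * u))
      (((l' + s * cos u - η * sin (ψ u)) - (l + s * cos u - η * sin (φ u))) * exp (|η| * u)
        + (ψ u - φ u) * (exp (|η| * u) * |η|)) u := by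
    intro u
    have h1 : HasDerivAt (fun u => exp (|η| * u)) (exp (|η| * u) * |η|) u := by
      simpa using ((hasDerivAt_id u).const_mul |η|).exp
    exact ((hψ u).sub (hφ u)).mul h1
  have hm : StrictMonoOn (fun u => (ψ u - φ u) * exp (|η| * u)) (Icc 0 t) := by
    apply strictMonoOn_of_deriv_pos (convex_Icc _ _)
    · exact (continuous_iff_continuousAt.2 fun u => (hd u).continuousAt).continuousOn
    · intro u hu
      rw [(hd u).deriv]
      have hu' : u ∈ Icc 0 t := interior_subset hu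
      have h1 := hle u hu'
      have h2 : |η * (sin (ψ u) - sin (φ u))| ≤ |η| * (ψ u - φ u) := by
        rw [abs_mul]
        apply mul_le_mul_of_nonneg_left _ (abs_nonneg _)
        have := abs_sin_sub (ψ u) (φ u)
        rwa [abs_of_nonneg (sub_nonneg.2 h1)] at this
      have h3 := le_abs_self (η * (sin (ψ u) - sin (φ u)))
      have h4 := exp_pos (|η| * u)
      have e : ((l' + s * cos u - η * sin (ψ u)) - (l + s * cos u - η * sin (φ u))) * exp (|η| * u)
        + (ψ u - φ u) * (exp (|η| * u) * |η|)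
        = ((l' - l) + (|η| * (ψ u - φ u) - η * (sin (ψ u) - sin (φ u)))) * exp (|η| * u) := by ring
      rw [e]
      apply mul_pos _ h4
      linarith
  have h := hm (left_mem_Icc.2 ht.le) (right_mem_Icc.2 ht.le) ht
  simp only [mul_zero, exp_zero, mul_one] at h
  have h4 := exp_pos (|η| * t)
  by_contra hn
  push Not at hn
  nlinarith

theorem IsSol.le_of_le {l' : ℝ} (hφ : IsSol η l s φ) (hψ : IsSol η l' s ψ) (hl : l ≤ l')
    (h0 : φ 0 ≤ ψ 0) {t : ℝ} (ht : 0 < t) : φ t ≤ ψ t := by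
  rcases hl.lt_or_eq with h | h
  · exact (hφ.lt_of_lt hψ h h0 ht).le
  · subst h; exact hφ.le hψ h0 t

/-- crude bound -/
theorem IsSol.crude (hφ : IsSol η l s φ) {t : ℝ} (ht : 0 ≤ t) :
    |φ t - φ 0 - l * t - s * sin t| ≤ |η| * t := by
  have hd : ∀ u, HasDerivAt (fun u => φ u - l * u - s * sin u) (-(η * sin (φ u))) u := by
    intro u
    refine (((hφ u).sub ((hasDerivAt_id u).const_mul l)).sub
      ((hasDerivAt_sin u).const_mul s)).congr_deriv ?_
    ring
  have h := convex_univ.norm_image_sub_le_of_norm_hasDerivWithin_le (s := (univ : Set ℝ))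
    (f := fun u => φ u - l * u - s * sin u) (f' := fun u => -(η * sin (φ u))) (C := |η|)
    (fun u _ => (hd u).hasDerivWithinAt) (fun u _ => by
      rw [Real.norm_eq_abs, abs_neg, abs_mul]
      exact mul_le_of_le_one_right (abs_nonneg _) (abs_sin_le_one _)) (mem_univ 0) (mem_univ t)
  rw [Real.norm_eq_abs, Real.norm_eq_abs, sub_zero, abs_of_nonneg ht] at h
  convert h using 2
  simp only [mul_zero, sin_zero]; ring

end Pool.Agent.H364Z
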