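import Pool.Agent.H364Z.Main

set_option autoImplicit false

open Real Set Filter Topology

namespace Pool.Agent.H364Z

variable {η l s : ℝ} {φ ψ : ℝ → ℝ}

theorem D_sign2 {m : ℤ} {x : ℝ} (h : D η l s m x = 0) (hE : Cs (sol η l s x) (2 * π) = 0)
    (hc : cq η (sol η l s x) ≠ 0) : ∃ ε > 0, ∀ᶠ s' in 𝓝[≠] s, ∀ l', |l' - l| ≤ ε * |s' - s| →
      0 < cq η (sol η l s x) * (s' - s) * D η l' s' m x := by
  obtain ⟨C, hC0, hC⟩ := D_pert η l s m x
  have hb := bq_pos (sol_isSol η l s x)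
  rw [hE, h] at hC
  simp only [mul_zero, exp_zero, sub_zero, one_mul] at hC
  set c := cq η (sol η l s x)
  set b := bq η (sol η l s x)
  have hcp : 0 < |c| := abs_pos.2 hc
  refine ⟨min 1 (|c| / (2 * b)), by positivity, ?_⟩
  have e1 : ∀ᶠ s' in 𝓝 s, |s' - s| < |c| / (8 * C) := by
    have : Tendsto (fun s' => |s' - s|) (𝓝 s) (𝓝 0) := by
      have : Continuous fun s' => |s' - s| := by fun_prop
      simpa using this.tendsto s
    exact this.eventually (gt_mem_nhds (by positivity))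
  filter_upwards [e1.filter_mono nhdsWithin_le_nhds, self_mem_nhdsWithin] with s' h1 h2 l' hn
  have h4 := hC l' s'
  have hδ : 0 < |s' - s| := abs_pos.2 (sub_ne_zero.2 h2)
  rw [lt_div_iff₀ (by positivity)] at h1
  have k1 : |l' - l| ≤ |s' - s| := by
    have := mul_le_mul_of_nonneg_right (min_le_left 1 (|c| / (2 * b))) hδ.le
    linarith
  have k2 : |l' - l| * b ≤ |c| / 2 * |s' - s| := by
    have := mul_le_mul_of_nonneg_right (min_le_right 1 (|c| / (2 * b))) hδ.le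
    have h5 := mul_le_mul_of_nonneg_right (hn.trans this) hb.le
    refine h5.trans (le_of_eq ?_)
    field_simp
  have k3 : |D η l' s' m x - (s' - s) * c|
      ≤ |D η l' s' m x - (l' - l) * b - (s' - s) * c| + |l' - l| * b := by
    have := abs_add_le (D η l' s' m x - (l' - l) * b - (s' - s) * c) ((l' - l) * b)
    rw [abs_mul, abs_of_pos hb] at this
    refine le_trans (le_of_eq ?_) this
    congr 1
    ring
  have k4 : (|l' - l| + |s' - s|) ^ 2 ≤ (2 * |s' - s|) ^ 2 :=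
    pow_le_pow_left₀ (by positivity) (by linarith) 2
  have k5 := mul_le_mul_of_nonneg_left k4 hC0.le
  have h6 : |D η l' s' m x - (s' - s) * c| < |(s' - s) * c| := by
    rw [abs_mul]
    nlinarith
  have h5 := sq_lt_sq.2 h6
  nlinarith [sq_nonneg (D η l' s' m x)]

theorem cone_pos {m : ℤ} (hη : 0 < η) (hs : 0 < s) (hl : 0 ≤ l) (h : ∀ x, D η l s m x = 0) :
    ∃ ε > 0, ∀ᶠ s' in 𝓝 s, ∀ l', |l' - l| ≤ ε * |s' - s| → Rot η l' s' m := by
  obtain ⟨-, -, h3⟩ := constr hη hs hl h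
  obtain ⟨ε₁, p1, q1⟩ := D_sign2 (h _) (Cs_sym_zero sym_p (h _)) (left_ne_zero_of_mul h3.ne)
  obtain ⟨ε₂, p2, q2⟩ := D_sign2 (h _) (Cs_sym_zero sym_m (h _)) (right_ne_zero_of_mul h3.ne)
  refine ⟨min ε₁ ε₂, lt_min p1 p2, ?_⟩
  rw [← nhdsNE_sup_pure s, eventually_sup, eventually_pure]
  constructor
  · filter_upwards [q1, q2] with s' h1 h2 l' hl'
    have h4 := mul_pos
      (h1 l' (hl'.trans (mul_le_mul_of_nonneg_right (min_le_left _ _) (abs_nonneg _))))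
      (h2 l' (hl'.trans (mul_le_mul_of_nonneg_right (min_le_right _ _) (abs_nonneg _))))
    rw [rot_iff_crit]
    by_contra hn
    push Not at hn
    have : cq η (fp η l s) * cq η (fm η l s) * ((s' - s) ^ 2
        * (D η l' s' m (π / 2) * D η l' s' m (-(π / 2)))) ≤ 0 :=
      mul_nonpos_of_nonpos_of_nonneg h3.le (mul_nonneg (sq_nonneg _) hn.le)
    nlinarith
  · intro l' hl'
    rw [sub_self, abs_zero, mul_zero, abs_nonpos_iff, sub_eq_zero] at hl'
    rw [hl']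
    exact rot_of_D (h 0)

/-- every constriction is the vertex of a double cone contained in the phase-lock area -/
theorem cone_all {m : ℤ} (hη : 0 < η) (hs : s ≠ 0) (h : ∀ l', Rot η l' s m → l' = l) :
    ∃ ε > 0, ∀ᶠ s' in 𝓝 s, ∀ l', |l' - l| ≤ ε * |s' - s| → Rot η l' s' m := by
  wlog hs0 : 0 < s generalizing s
  · obtain ⟨ε, p, q⟩ := this (s := -s) (neg_ne_zero.2 hs) (fun l' h' => h l' (rot_half_iff.1 h'))
      (by rcases hs.lt_or_gt with h | h <;> linarith)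
    refine ⟨ε, p, ?_⟩
    filter_upwards [(continuous_neg.tendsto s).eventually q] with s' h1 l' hl'
    refine rot_half_iff.1 (h1 l' ?_)
    rwa [neg_sub_neg, abs_sub_comm s]
  rcases le_total 0 l with hl | hl
  · exact cone_pos hη hs0 hl (all_of_slice h)
  · have : ∀ l', Rot η l' s ((-m : ℤ) : ℝ) → l' = -l := by
      intro l' h1
      rw [← neg_neg l', rot_neg'] at h1
      linarith [h _ h1]
    obtain ⟨ε, p, q⟩ := cone_pos hη hs0 (by linarith) (all_of_slice this)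
    refine ⟨ε, p, ?_⟩
    filter_upwards [q] with s' h1 l' hl'
    refine rot_neg'.1 (h1 (-l') ?_)
    rwa [neg_sub_neg, abs_sub_comm l]

theorem rot_tau {ω B A r : ℝ} (hω : 0 < ω) :
    (∃ φ : ℝ → ℝ, (∀ τ, HasDerivAt φ (1 / ω * (-sin (φ τ) + B + A * cos τ)) τ) ∧
      Tendsto (fun τ => φ τ / τ) atTop (𝓝 r)) ↔ Rot ω⁻¹ (B / ω) (A / ω) r := by
  refine exists_congr fun φ => and_congr_left fun _ => forall_congr' fun τ => ?_
  rw [show 1 / ω * (-sin (φ τ) + B + A * cos τ) = B / ω + A / ω * cos τ - ω⁻¹ * sin (φ τ) by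
    field_simp; ring]

theorem area_bdd {ω : ℝ} (hω : 0 < ω) (r : ℤ) (A : ℝ) :
    BddBelow {B | Rot ω⁻¹ (B / ω) (A / ω) r} ∧ BddAbove {B | Rot ω⁻¹ (B / ω) (A / ω) r} := by
  refine ⟨⟨(r - |ω⁻¹|) * ω, fun B hB => ?_⟩, ⟨(r + |ω⁻¹|) * ω, fun B hB => ?_⟩⟩
  · rw [← le_div_iff₀ hω]; linarith [(abs_le.1 (Rot.abs_le hB)).1]
  · rw [← div_le_iff₀ hω]; linarith [(abs_le.1 (Rot.abs_le hB)).2]

theorem area_cone {ω B₀ A₀ : ℝ} (hω : 0 < ω) (r : ℤ) (hA : A₀ ≠ 0)
    (h1 : sInf {B | Rot ω⁻¹ (B / ω) (A₀ / ω) r} = B₀)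
    (h2 : sSup {B | Rot ω⁻¹ (B / ω) (A₀ / ω) r} = B₀) :
    ∃ ε > 0, ∀ᶠ A in 𝓝 A₀, sInf {B | Rot ω⁻¹ (B / ω) (A / ω) r} ≤ B₀ - ε * |A - A₀| ∧
      B₀ + ε * |A - A₀| ≤ sSup {B | Rot ω⁻¹ (B / ω) (A / ω) r} := by
  obtain ⟨ε, p, q⟩ := cone_all (l := B₀ / ω) (m := r) (inv_pos.2 hω) (div_ne_zero hA hω.ne')
    fun l' hl' => by
      have hm : l' * ω ∈ {B | Rot ω⁻¹ (B / ω) (A₀ / ω) r} := by
        simpa only [mem_setOf_eq, mul_div_cancel_right₀ _ hω.ne'] using hl'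
      have a1 := csInf_le (area_bdd hω r A₀).1 hm
      have a2 := le_csSup (area_bdd hω r A₀).2 hm
      rw [eq_div_iff hω.ne']
      linarith
  refine ⟨ε, p, ?_⟩
  have hc : Continuous fun A : ℝ => A / ω := by fun_prop
  filter_upwards [(hc.tendsto A₀).eventually q] with A h
  have he : 0 ≤ ε * |A - A₀| := by positivity
  constructor
  · refine csInf_le (area_bdd hω r A).1 (h _ ?_)
    rw [← sub_div, ← sub_div, abs_div, abs_div, sub_sub_cancel_left, abs_neg, abs_of_nonneg he,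
      mul_div_assoc]
  · refine le_csSup (area_bdd hω r A).2 (h _ ?_)
    rw [← sub_div, ← sub_div, abs_div, abs_div, add_sub_cancel_left, abs_of_nonneg he,
      mul_div_assoc]

end Pool.Agent.H364Z
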