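import Pool.Agent.H364Z.Per

set_option autoImplicit false

open Set Filter Topology Complex ComplexConjugate MeasureTheory
open scoped Real

namespace Pool.Agent.H364Z

variable {η l s : ℝ} {a b a' b' : ℝ → ℂ} {φ ψ : ℝ → ℝ}

/-- derivative of the period map in the ordinate -/
noncomputable def cq (η : ℝ) (φ : ℝ → ℝ) : ℝ :=
  ∫ τ in (0 : ℝ)..2 * π, Real.cos τ * Real.exp (η * Cs φ τ)

/-- derivative of the period map in the abscissa -/
noncomputable def bq (η : ℝ) (φ : ℝ → ℝ) : ℝ := ∫ τ in (0 : ℝ)..2 * π, Real.exp (η * Cs φ τ)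

theorem exp_half : exp (I * (π / 2 : ℝ)) = I := by
  rw [exp_I_mul]; simp

theorem exp_neg_half : exp (I * (-(π / 2) : ℝ)) = -I := by
  rw [exp_I_mul]; simp

/-- the two symmetric solutions -/
noncomputable abbrev fp (η l s : ℝ) : ℝ → ℝ := sol η l s (π / 2)

noncomputable abbrev fm (η l s : ℝ) : ℝ → ℝ := sol η l s (-(π / 2))

theorem lbp_zero (η l s : ℝ) : lb η l s (fp η l s) 0 = I := by
  rw [lb_zero, fp, sol_zero, exp_half]

theorem lbm_zero (η l s : ℝ) : lb η l s (fm η l s) 0 = -I := by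
  rw [lb_zero, fm, sol_zero, exp_neg_half]

theorem IsLin.decomp (h : IsLin η l s a b) (τ : ℝ) :
    a τ = (a 0 - I * b 0) / 2 * la η l s (fp η l s) τ + (a 0 + I * b 0) / 2 * la η l s (fm η l s) τ ∧
    b τ = (a 0 - I * b 0) / 2 * lb η l s (fp η l s) τ
      + (a 0 + I * b 0) / 2 * lb η l s (fm η l s) τ := by
  refine h.unique ((sol_isSol η l s _).lin.comb (sol_isSol η l s _).lin _ _) (t₀ := 0) ?_ ?_ τ
  · simp only [la_zero]; ring
  · simp only [lbp_zero, lbm_zero]
    linear_combination (b 0) * I_sq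

theorem cross_re (η l s τ : ℝ) :
    (la η l s (fp η l s) τ * conj (la η l s (fm η l s) τ)).re = 1 := by
  have h := (sol_isSol η l s (π / 2)).lin.W (sol_isSol η l s (-(π / 2))).lin τ 0
  rw [la_zero, la_zero, lbp_zero, lbm_zero, lb, lb] at h
  set w := la η l s (fp η l s) τ * conj (la η l s (fm η l s) τ) with hw
  set u := exp (I * fp η l s τ) * conj (exp (I * fm η l s τ)) with hu
  have h1 : w * (1 - u) = 2 := by
    simp only [map_mul, map_one, map_neg, conj_I] at h
    rw [hw, hu]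
    linear_combination h - I_sq
  have h2 : u * conj u = 1 := by
    rw [hu, map_mul, conj_conj]
    have e1 := exp_I_mul_conj (fp η l s τ)
    have e2 := exp_I_mul_conj (fm η l s τ)
    linear_combination (exp (I * fm η l s τ) * conj (exp (I * fm η l s τ))) * e1 + e2
  have h3 : conj w * (1 - conj u) = 2 := by
    have := congrArg conj h1
    simpa only [map_mul, map_sub, map_one, map_ofNat] using this
  have h4 : 1 - u ≠ 0 := by
    intro h0
    rw [h0, mul_zero] at h1
    norm_num at h1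
  have h5 : w + conj w = 2 := by
    apply mul_right_cancel₀ h4
    linear_combination h1 - u * h3 - conj w * h2
  rw [add_conj] at h5
  have h6 : 2 * w.re = 2 := by exact_mod_cast h5
  linarith

theorem Cs_cont (h : Continuous φ) : Continuous (Cs φ) :=
  continuous_iff_continuousAt.2 fun t => (Cs_deriv h t).continuousAt

theorem Qf_re (η l s P R P' R' : ℝ) :
    (Qf (fun τ => P * la η l s (fp η l s) τ + R * la η l s (fm η l s) τ)
      (fun τ => P' * la η l s (fp η l s) τ + R' * la η l s (fm η l s) τ)).re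
      = (2 * π)⁻¹ * (P * P' * cq η (fp η l s) + R * R' * cq η (fm η l s)) := by
  have c1 := (sol_isSol η l s (π / 2)).lin.cont_a
  have c2 := (sol_isSol η l s (-(π / 2))).lin.cont_a
  have c3 := Cs_cont (sol_isSol η l s (π / 2)).continuous
  have c4 := Cs_cont (sol_isSol η l s (-(π / 2))).continuous
  unfold Qf
  rw [show (2 * π : ℂ)⁻¹ = (((2 * π)⁻¹ : ℝ) : ℂ) by push_cast; ring, re_ofReal_mul]
  congr 1
  rw [← reCLM_apply, ← reCLM.intervalIntegral_comp_comm
    (Continuous.intervalIntegrable (by fun_prop) _ _)]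
  have e : (fun τ : ℝ => reCLM (((Real.cos τ : ℂ) * (P * la η l s (fp η l s) τ
      + R * la η l s (fm η l s) τ)) * conj (P' * la η l s (fp η l s) τ
      + R' * la η l s (fm η l s) τ)))
      = fun τ => (P * P' * (Real.cos τ * Real.exp (η * Cs (fp η l s) τ))
        + R * R' * (Real.cos τ * Real.exp (η * Cs (fm η l s) τ))) + (P * R' + R * P') * Real.cos τ := by
    ext τ
    have e1 := la_normSq η l s (fp η l s) τ
    have e2 := la_normSq η l s (fm η l s) τ
    have e3 := cross_re η l s τ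
    have e4 : (la η l s (fm η l s) τ * conj (la η l s (fp η l s) τ)).re = 1 := by
      rw [← conj_re]; simpa [mul_comm] using e3
    have e5 : ((Real.cos τ : ℂ) * (P * la η l s (fp η l s) τ
      + R * la η l s (fm η l s) τ)) * conj (P' * la η l s (fp η l s) τ
      + R' * la η l s (fm η l s) τ)
      = ((P * P' * (Real.cos τ * Real.exp (η * Cs (fp η l s) τ))
        + R * R' * (Real.cos τ * Real.exp (η * Cs (fm η l s) τ)) : ℝ) : ℂ)
        + ((P * R' * Real.cos τ : ℝ) : ℂ) * (la η l s (fp η l s) τ * conj (la η l s (fm η l s) τ))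
        + ((R * P' * Real.cos τ : ℝ) : ℂ) * (la η l s (fm η l s) τ
          * conj (la η l s (fp η l s) τ)) := by
      simp only [map_add, map_mul, conj_ofReal, ofReal_add, ofReal_mul]
      rw [← e1, ← e2]
      ring
    rw [reCLM_apply, e5, add_re, add_re, ofReal_re, re_ofReal_mul, re_ofReal_mul, e3, e4]
    ring
  rw [e, intervalIntegral.integral_add (Continuous.intervalIntegrable (by fun_prop) _ _)
    (Continuous.intervalIntegrable (by fun_prop) _ _),
    intervalIntegral.integral_add (Continuous.intervalIntegrable (by fun_prop) _ _)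
    (Continuous.intervalIntegrable (by fun_prop) _ _), intervalIntegral.integral_const_mul,
    intervalIntegral.integral_const_mul, intervalIntegral.integral_const_mul, integral_cos]
  simp [cq]

theorem lb_two_pi {m : ℤ} {x : ℝ} (h : D η l s m x = 0) :
    lb η l s (sol η l s x) (2 * π) = la η l s (sol η l s x) (2 * π) * lb η l s (sol η l s x) 0 := by
  have e : sol η l s x (2 * π) = x + m * (2 * π) := by unfold D at h; linarith
  rw [lb_zero, lb, e, sol_zero, mul_comm]
  congr 1
  push_cast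
  rw [mul_add, exp_add, show I * ((m : ℂ) * (2 * π)) = m * (2 * π * I) by ring,
    exp_int_mul_two_pi_mul_I, mul_one]

theorem la_two_pi {m : ℤ} {x : ℝ} (h : D η l s m x = 0) :
    la η l s (sol η l s x) (2 * π) = (Real.exp (η / 2 * Cs (sol η l s x) (2 * π)) : ℝ)
      * exp (2 * π * I * (-(l + m) / 2 : ℝ)) := by
  have e : sol η l s x (2 * π) = x + m * (2 * π) := by unfold D at h; linarith
  rw [la, e, sol_zero, th_two_pi, ofReal_exp, ← exp_add]
  congr 1
  push_cast
  ring

/-- if the period map is trivial then the monodromy matrix is the identity -/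
theorem per_of_all (hs : s ≠ 0) {m : ℤ} (h : ∀ x, D η l s m x = 0) :
    la η l s (fp η l s) (2 * π) = 1 ∧ la η l s (fm η l s) (2 * π) = 1 := by
  obtain ⟨d1, d2⟩ := (sol_isSol η l s 0).lin.decomp (2 * π)
  rw [lb_two_pi (h _), lb_two_pi (h _), lb_two_pi (h _), lbp_zero, lbm_zero] at d2
  rw [la_zero, lb_zero, sol_zero] at d1 d2
  simp only [ofReal_zero, mul_zero, exp_zero, mul_one] at d1 d2
  have e1 : la η l s (fp η l s) (2 * π) = la η l s (fm η l s) (2 * π) := by
    apply mul_left_cancel₀ I_ne_zero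
    linear_combination d1 - d2 + (la η l s (fp η l s) (2 * π)
      + la η l s (fm η l s) (2 * π)) / 2 * I_sq
  have e2 := cross_re η l s (2 * π)
  rw [← e1, la_normSq, ofReal_re] at e2
  have e3 : Real.exp (η / 2 * Cs (fp η l s) (2 * π)) = 1 := by
    rw [Real.exp_eq_one_iff] at e2 ⊢
    linarith
  have e4 := la_two_pi (h (π / 2))
  rw [e3, ofReal_one, one_mul, ← Int.floor_add_fract (-(l + m) / 2), exp_int] at e4
  have e5 : Int.fract (-(l + m) / 2) = 0 := by
    refine nu_zero hs (sol_isSol η l s (π / 2)).lin (sol_isSol η l s (-(π / 2))).lin ?_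
      (Int.fract_nonneg _) (Int.fract_lt_one _) ?_ ?_ ?_ ?_
    · rw [la_zero, la_zero, lbp_zero, lbm_zero]
      intro h0
      have : (2 : ℂ) * I = 0 := by linear_combination -h0
      simp at this
    · rw [e4, la_zero, mul_one]
    · rw [lb_two_pi (h _), e4]
    · rw [← e1, e4, la_zero, mul_one]
    · rw [lb_two_pi (h _), ← e1, e4]
  rw [e5] at e4
  rw [← e1, e4]
  simp

theorem Cs_of_la (h : la η l s φ (2 * π) = 1) : Real.exp (η * Cs φ (2 * π)) = 1 := by
  have := la_normSq η l s φ (2 * π)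
  rw [h] at this
  simp only [map_one, mul_one] at this
  exact_mod_cast this.symm

/-- the structure of a point where the period map is trivial -/
theorem constr (hη : 0 < η) (hs : 0 < s) (hl : 0 ≤ l) {m : ℤ} (h : ∀ x, D η l s m x = 0) :
    l = m ∧ l + η ≤ s ∧ cq η (fp η l s) * cq η (fm η l s) < 0 := by
  obtain ⟨p1, p2⟩ := per_of_all hs.ne' h
  have n1 : IsPer η l s (la η l s (fp η l s)) (lb η l s (fp η l s)) :=
    ⟨(sol_isSol _ _ _ _).lin, by rw [p1, la_zero], by rw [lb_two_pi (h _), p1, one_mul]⟩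
  have n2 : IsPer η l s (la η l s (fm η l s)) (lb η l s (fm η l s)) :=
    ⟨(sol_isSol _ _ _ _).lin, by rw [p2, la_zero], by rw [lb_two_pi (h _), p2, one_mul]⟩
  have key : ∀ x y : ℝ, (∀ {a b : ℝ → ℂ}, IsPer η l s a b → co a x = 0 → co a y = 0 →
      a 0 = 0 ∧ b 0 = 0) → ∃ a b : ℝ → ℂ, IsPer η l s a b ∧ co a x = 0 ∧ co a y = 1 := by
    intro x y hxy
    obtain ⟨P, R, hPR, e0, -⟩ := exists_ker (x := co (la η l s (fp η l s)) x)
      (y := co (la η l s (fm η l s)) x) (z := 0) (w := 0) (by simp)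
    have hy := n1.comb n2 P R
    have h0 : co (fun τ => P * la η l s (fp η l s) τ + R * la η l s (fm η l s) τ) x = 0 := by
      rw [co_comb n1.lin.cont_a n2.lin.cont_a]; exact e0
    have h1 : co (fun τ => P * la η l s (fp η l s) τ + R * la η l s (fm η l s) τ) y ≠ 0 := by
      intro h1
      obtain ⟨z1, z2⟩ := hxy hy h0 h1
      simp only [la_zero, lbp_zero, lbm_zero] at z1 z2
      rcases hPR with hP | hR
      · apply hP
        linear_combination z1 / 2 - I / 2 * z2 + (P - R) / 2 * I_sq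
      · apply hR
        linear_combination z1 / 2 + I / 2 * z2 - (P - R) / 2 * I_sq
    refine ⟨_, _, hy.smul
      (co (fun τ => P * la η l s (fp η l s) τ + R * la η l s (fm η l s) τ) y)⁻¹, ?_, ?_⟩
    · rw [co_smul, h0, mul_zero]
    · rw [co_smul, inv_mul_cancel₀ h1]
  obtain ⟨a, b, hy, y0, y1⟩ := key (-1) 1 fun hy h0 h1 => hy.zero hη.ne' hs.ne' h1 h0
  obtain ⟨a', b', hz, z0, z1⟩ := key 1 (-1) fun hy h0 h1 => hy.zero hη.ne' hs.ne' h0 h1
  have H1 : Hardy η l s := hy.hardy_pos hη.ne' hs.ne' (by rw [y1]; exact one_ne_zero)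
  have H2 : Hardy η (-l) s := hz.hardy_neg hη.ne' hs.ne' (by rw [z1]; exact one_ne_zero)
  have low := H1.lower hs
  have hrot := H1.rot hη hs (by linarith) (sol_isSol η l s 0) (by
    have e : sol η l s 0 (2 * π) = 0 + m * (2 * π) := by
      have := h 0
      unfold D at this; linarith
    rw [e, sol_zero]
    push_cast
    rw [zero_add, show I * ((m : ℂ) * (2 * π)) = m * (2 * π * I) by ring,
      exp_int_mul_two_pi_mul_I]
    simp)
  refine ⟨?_, low, ?_⟩
  · have := h 0
    unfold D at this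
    rw [hrot, sol_zero] at this
    have hp : 0 < 2 * π := by positivity
    apply mul_right_cancel₀ hp.ne'
    linarith
  obtain ⟨a0, b0⟩ := hy.rep_pos hη.ne' hs.ne' y0 H1 0
  have e1 := H1.ra_eq hs.ne' 0
  have e2 := H1.rb_eq hs.ne' 0
  simp only [ofReal_zero, mul_zero, y1, one_mul] at a0 b0 e1 e2
  rw [e1] at a0
  rw [e2] at b0
  obtain ⟨r1, r2⟩ := H1.radial hη hs (by linarith) (le_refl 0)
  obtain ⟨a0', b0'⟩ := hz.rep_neg hη.ne' hs.ne' z0 H2 0
  have w := H2.W_neg hη hs (by linarith) π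
  have e3 : exp (I * (π : ℝ)) = ((-1 : ℝ) : ℂ) := by rw [exp_I_mul]; simp
  rw [sub_zero, e3, z1] at a0' b0'
  rw [e3] at w
  simp only [FA, FB] at a0' b0' w
  rw [← (H2.fast hs.ne').ps_real] at a0' w
  rw [← (H2.fast_bs hs.ne').ps_real] at b0' w
  rw [map_mul normSq I, normSq_I, normSq_ofReal, normSq_ofReal] at w
  set A' := (ps (sh η (-l) s) ((-1 : ℝ) : ℂ)).re
  set B' := (ps (bs η (-l) s) ((-1 : ℝ) : ℂ)).re
  set A := ra η l s 0
  set B := rb η l s 0
  have da : a = fun τ => (((A + B) / 2 : ℝ) : ℂ) * la η l s (fp η l s) τ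
      + (((A - B) / 2 : ℝ) : ℂ) * la η l s (fm η l s) τ := by
    ext τ
    rw [(hy.lin.decomp τ).1, a0, b0]
    push_cast
    linear_combination (-(B : ℂ) / 2 * la η l s (fp η l s) τ + B / 2 * la η l s (fm η l s) τ) * I_sq
  have da' : a' = fun τ => (((-A' + B') / 2 : ℝ) : ℂ) * la η l s (fp η l s) τ
      + (((-A' - B') / 2 : ℝ) : ℂ) * la η l s (fm η l s) τ := by
    ext τ
    rw [(hz.lin.decomp τ).1, a0', b0']
    push_cast
    linear_combination (-(B' : ℂ) / 2 * la η l s (fp η l s) τ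
      + B' / 2 * la η l s (fm η l s) τ) * I_sq
  have q1 := hy.Q_neg hη hs hl y0 (by rw [y1]; exact one_ne_zero)
  have q2 := congrArg re (hy.Q_cross hη.ne' hs.ne' hz y0 z0)
  rw [da, Qf_re] at q1
  rw [da, da', Qf_re, zero_re] at q2
  have hp : 0 < (2 * π)⁻¹ := by positivity
  have q3 := (mul_eq_zero.1 q2).resolve_left hp.ne'
  have q4 : (A + B) / 2 * ((A + B) / 2) * cq η (fp η l s)
      + (A - B) / 2 * ((A - B) / 2) * cq η (fm η l s) < 0 := by
    by_contra hn
    push Not at hn
    exact absurd (mul_nonneg hp.le hn) (not_le.2 q1)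
  set c₁ := cq η (fp η l s)
  set c₂ := cq η (fm η l s)
  have k1 : 0 < (A + B) / 2 := by linarith
  have k2 : (A - B) / 2 < 0 := by linarith
  have k3 : (-A' + B') / 2 * ((-A' - B') / 2) < 0 := by nlinarith
  generalize (A + B) / 2 = P at *
  generalize (A - B) / 2 = R at *
  generalize (-A' + B') / 2 = P' at *
  generalize (-A' - B') / 2 = R' at *
  have k4 : 0 < P * R * (P' * R') := mul_pos_of_neg_of_neg (mul_neg_of_pos_of_neg k1 k2) k3
  have hP' : P' ≠ 0 := by rintro rfl; simp at k3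
  have hc2 : c₂ ≠ 0 := by
    intro h0
    rw [h0, mul_zero, add_zero] at q3 q4
    have : c₁ = 0 := (mul_eq_zero.1 q3).resolve_left (mul_ne_zero k1.ne' hP')
    rw [this, mul_zero] at q4
    exact lt_irrefl _ q4
  have k5 : (P * P') ^ 2 * (c₁ * c₂) = -(P * R * (P' * R')) * c₂ ^ 2 := by
    linear_combination (P * P' * c₂) * q3
  have k6 : 0 < (P * P') ^ 2 := by positivity
  have k7 : 0 < P * R * (P' * R') * c₂ ^ 2 := by positivity
  by_contra hn
  push Not at hn
  nlinarith [mul_nonneg k6.le hn]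

theorem IsPer.all_of_W {m : ℤ} (hP : IsPer η m s a b)
    (hW : a 0 * conj (a 0) - b 0 * conj (b 0) ≠ 0) (hφ : IsSol η m s φ) :
    exp (I * φ (2 * π)) = exp (I * φ 0) := by
  have hS := hP.lin.sigma
  have e : exp (-I * th m s (2 * π)) = 1 := by
    rw [th_two_pi]
    push_cast
    rw [show -I * ((m : ℂ) * (2 * π)) = (-m : ℤ) * (2 * π * I) by push_cast; ring,
      exp_int_mul_two_pi_mul_I]
  have e0 : exp (-I * th m s 0) = 1 := by rw [th_zero]; simp
  have hSP : IsPer η m s _ _ := ⟨hS, by simp only [e, e0, hP.pb], by simp only [e, e0, hP.pa]⟩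
  set u := exp (I * φ 0) with hu
  have hw := inv_mul_cancel₀ hW
  set w := (a 0 * conj (a 0) - b 0 * conj (b 0))⁻¹
  have hc := hP.comb hSP ((conj (a 0) - u * conj (b 0)) * w) ((u * a 0 - b 0) * w)
  have i1 : (conj (a 0) - u * conj (b 0)) * w * a 0
      + (u * a 0 - b 0) * w * (exp (-I * th m s 0) * conj (b 0)) = 1 := by
    rw [e0]; linear_combination hw
  have i2 : (conj (a 0) - u * conj (b 0)) * w * b 0
      + (u * a 0 - b 0) * w * (exp (-I * th m s 0) * conj (a 0)) = u := by
    rw [e0]; linear_combination u * hw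
  obtain ⟨u1, u2⟩ := hφ.lin.unique hc.lin (t₀ := 0) (by rw [la_zero]; exact i1.symm)
    (by rw [lb_zero]; exact i2.symm) (2 * π)
  have v1 := hc.pa
  have v2 := hc.pb
  rw [v1, i1] at u1
  rw [v2, i2, lb, u1, mul_one] at u2
  exact u2

/-- a bounded solution of the recurrence on an axis gives a trivial period map -/
theorem Hardy.all {m : ℤ} (hη : 0 < η) (hs : 0 < s) (hm : 0 ≤ m) (h : Hardy η m s) (x : ℝ) :
    D η m s m x = 0 := by
  have hm' : (0 : ℝ) ≤ m := by exact_mod_cast hm
  have low := h.lower hs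
  have hP := h.per hη.ne' hs.ne'
  have hW := h.W_neg hη hs (by linarith) 0
  have hφ := sol_isSol η m s x
  have u2 := hP.all_of_W (by
    rw [mul_conj, mul_conj]
    have := sub_ne_zero.2 hW.ne
    exact_mod_cast this) hφ
  have := h.rot hη hs (by linarith) hφ u2
  unfold D
  rw [this, sol_zero]
  ring

/-- the parameters of a simple intersection -/
structure Simple (η l s : ℝ) : Prop where
  hardy : Hardy η (-l) s
  ne : ∀ t ≤ 0, rb η (-l) s t ≠ 0
  eq : ra η (-l) s 0 = rb η (-l) s 0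

theorem Simple.lt (hη : 0 < η) (hs : 0 < s) (h : Simple η l s) : s < l + η := by
  by_contra hn
  push Not at hn
  have := (h.hardy.radial hη hs (by linarith) (le_refl 0)).2
  rw [h.eq] at this
  exact lt_irrefl _ this

theorem Simple.unique {s' : ℝ} (hη : 0 < η) (hs : 0 < s) (hs' : 0 < s') (h : Simple η l s)
    (h' : Simple η l s') : s = s' := by
  rcases lt_trichotomy s s' with h1 | h1 | h1
  · have := h.hardy.compare hη hs h1 h'.hardy h.ne h'.ne
    rw [h.eq, h'.eq, mul_comm] at this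
    exact absurd this (lt_irrefl _)
  · exact h1
  · have := h'.hardy.compare hη hs' h1 h.hardy h'.ne h.ne
    rw [h.eq, h'.eq, mul_comm] at this
    exact absurd this (lt_irrefl _)

theorem Cs_even {k : ℤ} (hφ : IsSol η l s φ) (hx : π - φ 0 = φ 0 + k * (2 * π)) (τ : ℝ) :
    Cs φ (-τ) = Cs φ τ := by
  have h1 := hφ.refl.unique (hφ.shift 0 k) (t₀ := 0) (by simpa using hx)
  have hd : ∀ τ, HasDerivAt (fun τ => Cs φ (-τ) - Cs φ τ) 0 τ := by
    intro τ
    refine (((Cs_deriv hφ.continuous (-τ)).comp τ (hasDerivAt_neg τ)).sub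
      (Cs_deriv hφ.continuous τ)).congr_deriv ?_
    have h2 := congrArg Real.cos (congrFun h1 τ)
    simp only [Int.cast_zero, zero_mul, add_zero, Real.cos_pi_sub,
      Real.cos_add_int_mul_two_pi] at h2
    linarith
  have := is_const_of_deriv_eq_zero (fun τ => (hd τ).differentiableAt) (fun τ => (hd τ).deriv) τ 0
  simp only [neg_zero, sub_self] at this
  linarith

theorem Cs_per {m : ℤ} (hφ : IsSol η l s φ) (h : D η l s m (φ 0) = 0) (τ : ℝ) :
    Cs φ (τ + 2 * π) = Cs φ τ + Cs φ (2 * π) := by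
  have hd : ∀ τ, HasDerivAt (fun τ => Cs φ (τ + 2 * π) - Cs φ τ) 0 τ := by
    intro τ
    refine (((Cs_deriv hφ.continuous (τ + 2 * π)).comp_add_const τ (2 * π)).sub
      (Cs_deriv hφ.continuous τ)).congr_deriv ?_
    rw [hφ.per h, Real.cos_add_int_mul_two_pi, sub_self]
  have := is_const_of_deriv_eq_zero (fun τ => (hd τ).differentiableAt) (fun τ => (hd τ).deriv) τ 0
  simp only [zero_add, Cs_zero, sub_zero] at this
  linarith

theorem Cs_sym_zero {k m : ℤ} {x : ℝ} (hx : π - x = x + k * (2 * π)) (h : D η l s m x = 0) :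
    Cs (sol η l s x) (2 * π) = 0 := by
  have hφ := sol_isSol η l s x
  have h1 := Cs_per hφ (m := m) (by simpa using h) (-π)
  have h2 := Cs_even hφ (k := k) (by simpa using hx) π
  rw [show -π + 2 * π = π by ring] at h1
  linarith

/-- the boundary points on an axis -/
theorem classify {k m : ℤ} {x : ℝ} (hη : 0 < η) (hs : 0 < s) (hm : 0 ≤ m)
    (hx : π - x = x + k * (2 * π)) (h : D η m s m x = 0) :
    (∀ y, D η m s m y = 0) ∨ Simple η m s := by
  have hφ := sol_isSol η m s x
  set φ := sol η m s x with hφd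
  have hC := Cs_sym_zero hx h
  have p1 : la η m s φ (2 * π) = 1 := by
    rw [hφd, la_two_pi h, hC, show (-((m : ℝ) + m) / 2) = ((-m : ℤ) : ℝ) by push_cast; ring,
      exp_int0]
    simp
  have n1 : IsPer η m s (la η m s φ) (lb η m s φ) :=
    ⟨hφ.lin, by rw [p1, la_zero], by rw [hφd, lb_two_pi h, p1, one_mul]⟩
  by_cases h1 : co (la η m s φ) 1 = 0
  swap
  · exact Or.inl ((n1.hardy_pos hη.ne' hs.ne' h1).all hη hs hm)
  right
  have h2 : co (la η m s φ) (-1) ≠ 0 := fun h2 =>
    la_ne η m s φ 0 (n1.zero hη.ne' hs.ne' h1 h2).1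
  have H := n1.hardy_neg hη.ne' hs.ne' h2
  have rep := n1.rep_neg hη.ne' hs.ne' h1 H
  have hlb : ∀ τ, lb η m s φ τ ≠ 0 := fun τ => mul_ne_zero (exp_ne_zero _) (la_ne _ _ _ _ _)
  have hB : ∀ τ : ℝ, FB η (-m) s (exp (I * τ)) ≠ 0 := by
    intro τ h0
    have := (rep (π - τ)).2
    rw [sub_sub_cancel, h0] at this
    exact hlb _ (by simpa using this)
  have hB' : ∀ z, ‖z‖ = 1 → FB η (-m) s z ≠ 0 := by
    intro z hz
    have := hB (arg z)
    rwa [mul_comm I, ← one_mul (exp _), show (1 : ℂ) = (‖z‖ : ℝ) by rw [hz]; simp,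
      norm_mul_exp_arg_mul_I] at this
  have hq : ∀ τ : ℝ, η / 2 * (FA η (-m) s (exp (I * τ)) / (I * FB η (-m) s (exp (I * τ))))
      = -conj (η / 2 * exp (I * φ (π - τ))) := by
    intro τ
    obtain ⟨r1, r2⟩ := rep (π - τ)
    rw [sub_sub_cancel] at r1 r2
    rw [lb, r1] at r2
    have e := exp_I_mul_conj (φ (π - τ))
    have hb := mul_ne_zero I_ne_zero (hB τ)
    simp only [map_mul, map_div₀, conj_ofReal, map_ofNat]
    have r3 : I * FB η (-m) s (exp (I * τ))
        = -exp (I * φ (π - τ)) * FA η (-m) s (exp (I * τ)) := by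
      apply mul_left_cancel₀ h2
      linear_combination -r2
    rw [mul_div_assoc', div_eq_iff hb, r3]
    linear_combination (-(η / 2) * FA η (-m) s (exp (I * τ))) * e
  have hφc := hφ.continuous
  have hd : ∀ τ, HasDerivAt (fun τ => conj (((η / 2 * Cs φ (π - τ) : ℝ) : ℂ)
      - I * ((φ (π - τ) - th m s (π - τ)) / 2 : ℝ))) (-conj (η / 2 * exp (I * φ (π - τ)))) τ := by
    intro τ
    refine (hasDerivAt_conj ((hφ.G_deriv (π - τ)).comp_const_sub π τ)).congr_deriv ?_
    simp
  have h5 := intervalIntegral.integral_eq_sub_of_hasDerivAt (a := 0) (b := 2 * π)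
    (fun τ _ => hd τ) (Continuous.intervalIntegrable (by fun_prop) _ _)
  have h6 := hφ.per (m := m) (by rw [hφd, sol_zero]; exact h) (-π)
  have h7 := Cs_even hφ (k := k) (by rw [hφd, sol_zero]; exact hx) π
  rw [show -π + 2 * π = π by ring] at h6
  rw [show π - 2 * π = -π by ring, sub_zero, h7, h6,
    show φ (-π) + m * (2 * π) - th m s π = φ (-π) - th m s (-π) by simp [th]; ring, sub_self] at h5
  have hin := (H.wind hs.ne' hB').1 (by simp only [hq]; exact h5)
  have hne : ∀ t ≤ 0, rb η (-m) s t ≠ 0 := by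
    intro t ht h0
    have e := H.rb_eq hs.ne' t
    rw [h0, ofReal_zero] at e
    have hn : ‖exp (t : ℂ)‖ ≤ 1 := by
      rw [norm_exp_ofReal]; exact Real.exp_le_one_iff.2 ht
    rcases hn.lt_or_eq with h3 | h3
    · exact hin _ h3 e
    · exact hB' _ h3 e
  refine ⟨H, hne, ?_⟩
  obtain ⟨r1, r2⟩ := rep π
  have e1 := H.ra_eq hs.ne' 0
  have e2 := H.rb_eq hs.ne' 0
  simp only [sub_self, ofReal_zero, mul_zero] at r1 r2 e1 e2
  rw [e1] at r1
  rw [e2] at r2
  have w1 := la_normSq η m s φ π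
  have w2 := lb_normSq η m s φ π
  rw [← w2, r1, r2, mul_conj, mul_conj] at w1
  have w3 : normSq (-co (la η m s φ) (-1) * ra η (-m) s 0)
      = normSq (co (la η m s φ) (-1) * (I * rb η (-m) s 0)) := by exact_mod_cast w1
  simp only [map_mul, normSq_neg, normSq_I, normSq_ofReal, one_mul] at w3
  have w4 := mul_left_cancel₀ (normSq_pos.2 h2).ne' w3
  obtain ⟨q1, q2⟩ := H.pos_of_ne hη hs hne (le_refl 0)
  nlinarith

end Pool.Agent.H364Z
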