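import Pool.Agent.H364Z.Cone
import Pool.Agent.Helper523.LL.Univ

set_option autoImplicit false

open Set Filter Topology Complex
open scoped Real

namespace Pool.Agent.H364Z

theorem D_zero_lin {η l s : ℝ} {m : ℤ} {x : ℝ} (h : D η l s m x = 0)
    (hE : Cs (sol η l s x) (2 * π) = 0) (hc : cq η (sol η l s x) = 0) {ε : ℝ} (hε : 0 < ε) :
    ∀ᶠ s' in 𝓝[≠] s, 0 < D η (l + ε * |s' - s|) s' m x := by
  obtain ⟨C, hC0, hC⟩ := D_pert η l s m x
  have hb := bq_pos (sol_isSol η l s x)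
  rw [hE, h, hc] at hC
  simp only [mul_zero, Real.exp_zero, sub_zero, one_mul] at hC
  set b := bq η (sol η l s x)
  have e1 : ∀ᶠ s' in 𝓝 s, |s' - s| < ε * b / (C * (ε + 1) ^ 2) := by
    have : Tendsto (fun s' => |s' - s|) (𝓝 s) (𝓝 0) := by
      have : Continuous fun s' => |s' - s| := by fun_prop
      simpa using this.tendsto s
    exact this.eventually (gt_mem_nhds (by positivity))
  filter_upwards [e1.filter_mono nhdsWithin_le_nhds, self_mem_nhdsWithin] with s' h1 h2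
  have h4 := hC (l + ε * |s' - s|) s'
  have hδ : 0 < |s' - s| := abs_pos.2 (sub_ne_zero.2 h2)
  rw [lt_div_iff₀ (by positivity)] at h1
  rw [add_sub_cancel_left, abs_of_pos (mul_pos hε hδ)] at h4
  have h5 := (abs_le.1 h4).1
  nlinarith [mul_lt_mul_of_pos_left h1 hδ]

theorem exists_cq_pos {η l s : ℝ} {m : ℤ} (hη : 0 < η) (hs : s ≠ 0) (h : ∀ x, D η l s m x = 0) :
    ∃ x, cq η (sol η l s x) ≠ 0 := by
  by_contra hn
  push Not at hn
  obtain ⟨ε, p, q⟩ := cone_all (l := l) (m := m) hη hs fun l' hl' => (slice_of_all h l').1 hl'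
  obtain ⟨s', ⟨h1, h2⟩, h3⟩ := (((D_zero_lin (h _) (Cs_sym_zero sym_p (h _)) (hn _) p).and
    (D_zero_lin (h _) (Cs_sym_zero sym_m (h _)) (hn _) p)).and
    (q.filter_mono nhdsWithin_le_nhds)).exists
  have := rot_iff_crit.1 (h3 (l + ε * |s' - s|) (by
    rw [add_sub_cancel_left, abs_of_nonneg (by positivity)]))
  exact absurd (mul_pos h1 h2) (not_lt.2 this)

theorem sol_neg_eta (η l s x : ℝ) : sol (-η) l s (x + π) = fun τ => sol η l s x τ + π := by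
  have : IsSol (-η) l s fun τ => sol η l s x τ + π := by
    intro τ
    refine ((sol_isSol η l s x τ).add_const π).congr_deriv ?_
    rw [Real.sin_add_pi]; ring
  rw [this.eq_sol]
  simp

theorem exists_cq {η l s : ℝ} {m : ℤ} (hη : η ≠ 0) (hs : s ≠ 0) (h : ∀ x, D η l s m x = 0) :
    ∃ x, cq η (sol η l s x) ≠ 0 := by
  rcases hη.lt_or_gt with h0 | h0
  swap
  · exact exists_cq_pos h0 hs h
  obtain ⟨x, hx⟩ := exists_cq_pos (η := -η) (l := l) (m := m) (by linarith) hs fun x => by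
    have := h (x - π)
    unfold D at this ⊢
    rw [← sub_add_cancel x π, sol_neg_eta]
    linarith
  refine ⟨x - π, fun h1 => hx ?_⟩
  rw [← sub_add_cancel x π, sol_neg_eta, ← h1]
  simp [cq, Cs]

theorem all_of_exp {η l s : ℝ}
    (h : ∀ x, exp (I * sol η l s x (2 * π)) = exp (I * x)) : ∃ m : ℤ, ∀ x, D η l s m x = 0 := by
  have k : ∀ x, ∃ m : ℤ, D η l s m x = 0 := by
    intro x
    obtain ⟨n, hn⟩ := exp_eq_exp_iff_exists_int.1 (h x)
    refine ⟨n, ?_⟩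
    have := congrArg im hn
    simp at this
    unfold D
    linarith
  obtain ⟨m, hm⟩ := k 0
  refine ⟨m, fun x => ?_⟩
  obtain ⟨n, hn⟩ := k x
  have h1 := D_abs_lt hm x
  have e : D η l s m x = ((n - m : ℤ) : ℝ) * (2 * π) := by
    unfold D at hn ⊢
    push_cast
    linarith
  have hp : 0 < 2 * π := by positivity
  rw [e, abs_mul, abs_of_pos hp, mul_lt_iff_lt_one_left hp, ← Int.cast_abs] at h1
  have : |n - m| < 1 := by exact_mod_cast h1
  rw [e, Int.abs_lt_one_iff.1 this]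
  simp

/-- the linear system with complex parameters `p = (η, s)` -/
noncomputable def vf (l : ℝ) (p : ℂ × ℂ) (τ : ℝ) (y : ℂ × ℂ) : ℂ × ℂ :=
  (-I * (l + p.2 * Real.cos τ) * y.1 + p.1 / 2 * y.2, p.1 / 2 * y.1)

theorem vf_norm (l : ℝ) (p : ℂ × ℂ) (τ : ℝ) (y : ℂ × ℂ) :
    ‖vf l p τ y‖ ≤ (|l| + 2 * ‖p‖) * ‖y‖ := by
  have h1 := norm_fst_le y
  have h2 := norm_snd_le y
  have h3 : ‖(l + p.2 * Real.cos τ : ℂ)‖ ≤ |l| + ‖p‖ := by
    refine (norm_add_le _ _).trans ?_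
    rw [norm_mul, norm_real, norm_real, Real.norm_eq_abs, Real.norm_eq_abs]
    have := mul_le_of_le_one_right (norm_nonneg p.2) (Real.abs_cos_le_one τ)
    linarith [norm_snd_le p]
  have h4 : ‖p.1 / 2‖ ≤ ‖p‖ := by
    rw [norm_div, Complex.norm_ofNat]
    linarith [norm_fst_le p, norm_nonneg p.1]
  rw [vf, Prod.norm_mk]
  have k1 := mul_le_mul h3 h1 (norm_nonneg _) (by positivity)
  have k2 := mul_le_mul h4 h2 (norm_nonneg _) (norm_nonneg _)
  have k3 := mul_le_mul h4 h1 (norm_nonneg _) (norm_nonneg _)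
  apply max_le
  · refine (norm_add_le _ _).trans ?_
    rw [norm_mul, norm_mul, norm_mul, norm_neg, norm_I, one_mul]
    linarith
  · rw [norm_mul]
    have : 0 ≤ (|l| + ‖p‖) * ‖y‖ := by positivity
    linarith

theorem vf_lip (l : ℝ) (p : ℂ × ℂ) {K : ℝ} (hK : |l| + 2 * ‖p‖ ≤ K) (τ : ℝ) :
    LipschitzWith (Real.nnabs K) (vf l p τ) := by
  apply LipschitzWith.of_dist_le_mul
  intro x y
  have e : vf l p τ x - vf l p τ y = vf l p τ (x - y) := by
    simp only [vf, Prod.mk_sub_mk, Prod.fst_sub, Prod.snd_sub, Prod.mk.injEq]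
    constructor <;> ring
  rw [dist_eq_norm, dist_eq_norm, e, Real.coe_nnabs]
  exact (vf_norm _ _ _ _).trans (mul_le_mul_of_nonneg_right (hK.trans (le_abs_self _))
    (norm_nonneg _))

theorem exists_Y (l : ℝ) (u : ℂ) (p : ℂ × ℂ) :
    ∃ y : ℝ → ℂ × ℂ, y 0 = (1, u) ∧ ∀ τ, HasDerivAt y (vf l p τ (y τ)) τ :=
  Haraux.global_ode (vf l p) _ (vf_lip l p le_rfl) (by unfold Function.uncurry vf; fun_prop) _

noncomputable def Y (l : ℝ) (u : ℂ) (p : ℂ × ℂ) : ℝ → ℂ × ℂ := (exists_Y l u p).choose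

theorem Y_zero (l : ℝ) (u : ℂ) (p : ℂ × ℂ) : Y l u p 0 = (1, u) := (exists_Y l u p).choose_spec.1

theorem Y_der (l : ℝ) (u : ℂ) (p : ℂ × ℂ) (τ : ℝ) :
    HasDerivAt (Y l u p) (vf l p τ (Y l u p τ)) τ := (exists_Y l u p).choose_spec.2 τ

theorem Y_der1 (l : ℝ) (u : ℂ) (p : ℂ × ℂ) (τ : ℝ) :
    HasDerivAt (fun τ => (Y l u p τ).1) (vf l p τ (Y l u p τ)).1 τ :=
  (ContinuousLinearMap.fst ℝ ℂ ℂ).hasFDerivAt.comp_hasDerivAt τ (Y_der l u p τ)

theorem Y_der2 (l : ℝ) (u : ℂ) (p : ℂ × ℂ) (τ : ℝ) :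
    HasDerivAt (fun τ => (Y l u p τ).2) (vf l p τ (Y l u p τ)).2 τ :=
  (ContinuousLinearMap.snd ℝ ℂ ℂ).hasFDerivAt.comp_hasDerivAt τ (Y_der l u p τ)

theorem Y_c (l : ℝ) (u : ℂ) (p : ℂ × ℂ) : Continuous (Y l u p) :=
  continuous_iff_continuousAt.2 fun t => (Y_der l u p t).continuousAt

theorem Y_est (l : ℝ) (u : ℂ) (q : ℂ × ℂ) : ∃ g : ℝ → ℝ, Continuous g ∧ g 0 = 0 ∧
    ∀ p, ‖p - q‖ ≤ 1 → ∀ τ ∈ Icc 0 (2 * π), ‖Y l u p τ - Y l u q τ‖ ≤ g ‖p - q‖ := by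
  obtain ⟨M, hM⟩ := (isCompact_Icc (a := 0) (b := 2 * π)).exists_bound_of_continuousOn
    (Y_c l u q).continuousOn
  have hM0 : 0 ≤ M := (norm_nonneg _).trans (hM 0 ⟨le_rfl, by positivity⟩)
  refine ⟨fun r => gronwallBound 0 (Real.nnabs (|l| + 2 * (‖q‖ + 1))) (0 + 2 * r * M) (2 * π),
    (gronwallBound_continuous_ε _ _ _).comp (by fun_prop), by simp [gronwallBound_ε0_δ0],
    fun p hp τ hτ => ?_⟩
  have hK : |l| + 2 * ‖p‖ ≤ |l| + 2 * (‖q‖ + 1) := by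
    have := norm_le_insert' p q
    linarith
  have h := dist_le_of_approx_trajectories_ODE (vf_lip l p hK) (a := 0) (b := 2 * π)
    (εf := 0) (εg := 2 * ‖p - q‖ * M) (δ := 0)
    (Y_c l u p).continuousOn (fun t _ => (Y_der l u p t).hasDerivWithinAt) (fun t _ => by simp)
    (Y_c l u q).continuousOn (fun t _ => (Y_der l u q t).hasDerivWithinAt) (fun t ht => by
      have e : vf l p t (Y l u q t) - vf l q t (Y l u q t) = vf 0 (p - q) t (Y l u q t) := by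
        simp only [vf, Prod.mk_sub_mk, Prod.fst_sub, Prod.snd_sub, Prod.mk.injEq, ofReal_zero]
        constructor <;> ring
      rw [dist_comm, dist_eq_norm, e]
      refine (vf_norm _ _ _ _).trans ?_
      rw [abs_zero, zero_add]
      exact mul_le_mul_of_nonneg_left (hM t (Ico_subset_Icc_self ht)) (by positivity))
    (by simp [Y_zero]) τ hτ
  rw [dist_eq_norm, sub_zero] at h
  exact h.trans (gronwallBound_mono le_rfl (by positivity) (by positivity) hτ.2)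

noncomputable def cl (τ : ℝ) : ℝ := max 0 (min τ (2 * π))

theorem cl_mem (τ : ℝ) : cl τ ∈ Icc 0 (2 * π) :=
  ⟨le_max_left _ _, max_le (by positivity) (min_le_right _ _)⟩

theorem cl_eq {τ : ℝ} (h : τ ∈ Icc 0 (2 * π)) : cl τ = τ := by
  rw [cl, min_eq_left h.2, max_eq_right h.1]

theorem Y_cont (l : ℝ) (u : ℂ) : Continuous fun z : (ℂ × ℂ) × ℝ => Y l u z.1 (cl z.2) := by
  rw [continuous_iff_continuousAt]
  rintro ⟨q, τ₀⟩
  obtain ⟨g, g1, g2, g3⟩ := Y_est l u q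
  have c0 : Continuous cl := by unfold cl; fun_prop
  have c1 := Y_c l u q
  rw [ContinuousAt, tendsto_iff_norm_sub_tendsto_zero]
  have hb : Tendsto (fun z : (ℂ × ℂ) × ℝ => g ‖z.1 - q‖ + ‖Y l u q (cl z.2) - Y l u q (cl τ₀)‖)
      (𝓝 (q, τ₀)) (𝓝 0) := by
    have : Continuous fun z : (ℂ × ℂ) × ℝ =>
      g ‖z.1 - q‖ + ‖Y l u q (cl z.2) - Y l u q (cl τ₀)‖ := by fun_prop
    simpa [g2] using this.tendsto (q, τ₀)
  refine squeeze_zero' (Eventually.of_forall fun _ => norm_nonneg _) ?_ hb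
  have : Tendsto (fun z : (ℂ × ℂ) × ℝ => ‖z.1 - q‖) (𝓝 (q, τ₀)) (𝓝 0) := by
    have : Continuous fun z : (ℂ × ℂ) × ℝ => ‖z.1 - q‖ := by fun_prop
    simpa using this.tendsto (q, τ₀)
  filter_upwards [this.eventually (ge_mem_nhds one_pos)] with z hz
  exact (norm_sub_le_norm_sub_add_norm_sub _ _ _).trans (add_le_add_left (g3 _ hz _ (cl_mem _)) _)

/-- the bilinear pairing -/
noncomputable def J (l : ℝ) (u : ℂ) (w : (ℂ × ℂ) × (ℂ × ℂ)) : ℂ :=
  ∫ τ in (0 : ℝ)..2 * π, Real.cos τ * exp (I * (l * τ + w.2.2 * Real.sin τ))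
    * (Y l u w.2 (cl τ)).2 * (Y l u w.1 (cl τ)).1

theorem J_cont (l : ℝ) (u : ℂ) : Continuous (J l u) := by
  have c := Y_cont l u
  have c1 : Continuous fun z : ((ℂ × ℂ) × (ℂ × ℂ)) × ℝ => Y l u z.1.1 (cl z.2) :=
    c.comp (f := fun z : ((ℂ × ℂ) × (ℂ × ℂ)) × ℝ => (z.1.1, z.2)) (by fun_prop)
  have c2 : Continuous fun z : ((ℂ × ℂ) × (ℂ × ℂ)) × ℝ => Y l u z.1.2 (cl z.2) :=
    c.comp (f := fun z : ((ℂ × ℂ) × (ℂ × ℂ)) × ℝ => (z.1.2, z.2)) (by fun_prop)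
  refine intervalIntegral.continuous_parametric_intervalIntegral_of_continuous' ?_ _ _
  exact (Continuous.mul (by fun_prop) c2.snd).mul c1.fst

theorem J_zero {l : ℝ} {u : ℂ} {p q : ℂ × ℂ} (h : p.1 = q.1) (h' : p.2 ≠ q.2)
    (hp : (Y l u p (2 * π)).2 = u * (Y l u p (2 * π)).1)
    (hq : (Y l u q (2 * π)).2 = u * (Y l u q (2 * π)).1) : J l u (p, q) = 0 := by
  have c1 := Y_c l u p
  have c2 := Y_c l u q
  have hd : ∀ τ : ℝ, HasDerivAt (fun τ : ℝ => exp (I * (l * τ + q.2 * Real.sin τ))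
      * ((Y l u q τ).2 * (Y l u p τ).1 - (Y l u q τ).1 * (Y l u p τ).2))
      (-I * (p.2 - q.2) * (Real.cos τ * exp (I * (l * τ + q.2 * Real.sin τ))
        * (Y l u q τ).2 * (Y l u p τ).1)) τ := by
    intro τ
    have h0 := (((((hasDerivAt_id τ).ofReal_comp).const_mul (l : ℂ)).add
      (((Real.hasDerivAt_sin τ).ofReal_comp).const_mul q.2)).const_mul I).cexp
    have a1 := (Y_der1 l u p τ)
    have b1 := (Y_der2 l u p τ)
    have a2 := (Y_der1 l u q τ)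
    have b2 := (Y_der2 l u q τ)
    refine (h0.mul ((b2.mul a1).sub (a2.mul b1))).congr_deriv ?_
    simp only [vf, h, Pi.add_apply, Pi.mul_apply, Pi.sub_apply, id, ofReal_one]
    ring
  have h5 := intervalIntegral.integral_eq_sub_of_hasDerivAt (a := 0) (b := 2 * π)
    (fun τ _ => hd τ) (Continuous.intervalIntegrable (by fun_prop) _ _)
  rw [hp, hq, Y_zero, Y_zero, intervalIntegral.integral_const_mul] at h5
  have h6 : -I * (p.2 - q.2) * J l u (p, q) = 0 := by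
    rw [J, intervalIntegral.integral_congr (g := fun τ : ℝ => Real.cos τ
      * exp (I * (l * τ + q.2 * Real.sin τ)) * (Y l u q τ).2 * (Y l u p τ).1), h5]
    · ring
    · intro τ hτ
      rw [uIcc_of_le (by positivity)] at hτ
      simp only [cl_eq hτ]
  exact (mul_eq_zero.1 h6).resolve_left
    (mul_ne_zero (neg_ne_zero.2 I_ne_zero) (sub_ne_zero.2 h'))

theorem Y_real (η l s x τ : ℝ) : Y l (exp (I * x)) ((η : ℂ), (s : ℂ)) τ
    = (la η l s (sol η l s x) τ, lb η l s (sol η l s x) τ) := by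
  have h : IsLin η l s (fun τ => (Y l (exp (I * x)) ((η : ℂ), (s : ℂ)) τ).1)
      (fun τ => (Y l (exp (I * x)) ((η : ℂ), (s : ℂ)) τ).2) := by
    intro τ
    refine ⟨(Y_der1 _ _ _ τ).congr_deriv ?_, (Y_der2 _ _ _ τ)⟩
    simp [vf]
  have := h.unique (sol_isSol η l s x).lin (t₀ := 0) (by simp [Y_zero, la_zero])
    (by simp [Y_zero, lb_zero]) τ
  exact Prod.ext this.1 this.2

theorem J_real (η l s x : ℝ) : J l (exp (I * x)) (((η : ℂ), (s : ℂ)), ((η : ℂ), (s : ℂ)))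
    = exp (I * x) * cq η (sol η l s x) := by
  rw [J, cq, ← intervalIntegral.integral_ofReal, ← intervalIntegral.integral_const_mul]
  refine intervalIntegral.integral_congr fun τ hτ => ?_
  rw [uIcc_of_le (by positivity)] at hτ
  simp only [cl_eq hτ, Y_real, lb, la, sol_zero, th]
  rw [mul_assoc, mul_assoc, mul_assoc, ← exp_add, ← exp_add, ← exp_add, ofReal_mul (Real.cos τ),
    mul_left_comm (exp _), ofReal_exp, ← exp_add]
  congr 2
  push_cast
  ring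

/-- every solution of the Riccati equation without poles along the circle is closed -/
def Triv (l : ℝ) (p : ℂ × ℂ) : Prop := ∀ Φ : ℝ → ℂ, (∀ τ ∈ Icc 0 (2 * π),
  HasDerivAt Φ (I * (l + p.2 * Real.cos τ) * Φ τ - p.1 / 2 * (Φ τ ^ 2 - 1)) τ) → Φ (2 * π) = Φ 0

theorem Triv.Y {l : ℝ} {p : ℂ × ℂ} (h : Triv l p) {u : ℂ}
    (hu : ∀ τ ∈ Icc 0 (2 * π), (Y l u p τ).1 ≠ 0) :
    (Y l u p (2 * π)).2 = u * (Y l u p (2 * π)).1 := by
  have := h (fun τ => (H364Z.Y l u p τ).2 / (H364Z.Y l u p τ).1) fun τ hτ => by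
    refine ((Y_der2 l u p τ).div (Y_der1 l u p τ) (hu τ hτ)).congr_deriv ?_
    have := hu τ hτ
    simp only [vf]
    field_simp
    ring
  simp only [Y_zero, div_one] at this
  rwa [div_eq_iff (hu _ two_pi_mem)] at this

/-- near a real point the set of trivial monodromy is a graph over the first parameter -/
theorem local_graph {η l s : ℝ} (hη : η ≠ 0) (hs : s ≠ 0) (h : Triv l ((η : ℂ), (s : ℂ))) :
    ∀ᶠ w : (ℂ × ℂ) × (ℂ × ℂ) in 𝓝 (((η : ℂ), (s : ℂ)), ((η : ℂ), (s : ℂ))),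
      Triv l w.1 → Triv l w.2 → w.1.1 = w.2.1 → w.1.2 = w.2.2 := by
  obtain ⟨m, hm⟩ := all_of_exp (η := η) (l := l) (s := s) fun x => by
    have := h.Y (u := exp (I * x)) fun τ _ => by rw [Y_real]; exact la_ne _ _ _ _ _
    rw [Y_real] at this
    exact mul_right_cancel₀ (la_ne _ _ _ _ _) this
  obtain ⟨x, hx⟩ := exists_cq hη hs hm
  have e1 := ((J_cont l (exp (I * x))).tendsto _).eventually_ne
    (show J l (exp (I * x)) (((η : ℂ), (s : ℂ)), ((η : ℂ), (s : ℂ))) ≠ 0 by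
      rw [J_real]; exact mul_ne_zero (exp_ne_zero _) (ofReal_ne_zero.2 hx))
  have e2 : ∀ᶠ p in 𝓝 ((η : ℂ), (s : ℂ)), ∀ τ ∈ Icc 0 (2 * π),
      (Y l (exp (I * x)) p (cl τ)).1 ≠ 0 := by
    refine isCompact_Icc.eventually_forall_of_forall_eventually fun τ _ => ?_
    exact (((Y_cont l (exp (I * x))).fst).tendsto _).eventually_ne
      (by rw [Y_real]; exact la_ne _ _ _ _ _)
  filter_upwards [e1, (continuous_fst.tendsto _).eventually e2,
    (continuous_snd.tendsto _).eventually e2] with w h1 h2 h3 t1 t2 h4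
  by_contra hn
  exact h1 (J_zero h4 hn (t1.Y fun τ hτ => by simpa [cl_eq hτ] using h2 τ hτ)
    (t2.Y fun τ hτ => by simpa [cl_eq hτ] using h3 τ hτ))

theorem no_crit {l : ℝ} {U : Set ℂ} (hU : IsOpen U) {μ ω : ℂ → ℂ} (hμ : DifferentiableOn ℂ μ U)
    (hω : DifferentiableOn ℂ ω U) (hinj : InjOn (fun t => (μ t, ω t)) U)
    (hC : ∀ t ∈ U, Triv l ((ω t)⁻¹, 2 * μ t)) {p : ℂ} (hp : p ∈ U) (h0 : μ p ≠ 0) (h0' : ω p ≠ 0)
    (h1 : (μ p).im = 0) (h2 : (ω p).im = 0) : deriv ω p ≠ 0 := by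
  have e1 : ((2 * (μ p).re : ℝ) : ℂ) = 2 * μ p := by
    apply Complex.ext <;> simp [h1]
  have e0 : (((ω p).re : ℝ) : ℂ) = ω p := by
    apply Complex.ext <;> simp [h2]
  have e2 : (((ω p).re⁻¹ : ℝ) : ℂ) = (ω p)⁻¹ := by rw [ofReal_inv, e0]
  have hg := local_graph (η := (ω p).re⁻¹) (l := l) (s := 2 * (μ p).re)
    (by rw [← ofReal_ne_zero, e2]; exact inv_ne_zero h0')
    (by rw [← ofReal_ne_zero, e1]; exact mul_ne_zero two_ne_zero h0) (by rw [e1, e2]; exact hC p hp)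
  rw [e1, e2] at hg
  have c1 : ContinuousAt μ p := (hμ.differentiableAt (hU.mem_nhds hp)).continuousAt
  have c2 : ContinuousAt ω p := (hω.differentiableAt (hU.mem_nhds hp)).continuousAt
  have c3 : ContinuousAt (fun t => ((ω t)⁻¹, 2 * μ t)) p :=
    (c2.inv₀ h0').prodMk (continuousAt_const.mul c1)
  have c4 := (c3.tendsto.prodMap_nhds c3.tendsto).eventually hg
  rw [nhds_prod_eq] at c4
  obtain ⟨V, hV, hV2⟩ := (eventually_prod_self_iff (r := fun t t' =>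
    Triv l ((ω t)⁻¹, 2 * μ t) → Triv l ((ω t')⁻¹, 2 * μ t') → (ω t)⁻¹ = (ω t')⁻¹ →
      2 * μ t = 2 * μ t')).1 c4
  obtain ⟨W, hW1, hW2, hW3⟩ := mem_nhds_iff.1 (inter_mem hV (hU.mem_nhds hp))
  refine Helper523.LL.deriv_ne_zero_of_injOn hW2 (hω.mono fun t ht => (hW1 ht).2) ?_ hW3
  intro t ht t' ht' he
  have := hV2 t (hW1 ht).1 t' (hW1 ht').1 (hC t (hW1 ht).2) (hC t' (hW1 ht').2)
    (by simp [he])
  refine hinj (hW1 ht).2 (hW1 ht').2 (Prod.ext ?_ he)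
  simpa using this

end Pool.Agent.H364Z
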