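import Pool.Agent.H364Z.Seq
import Pool.Agent.Helper890.Cov.JA2

set_option autoImplicit false

open Set Filter Topology Complex ComplexConjugate
open scoped Real

namespace Pool.Agent.H364Z

variable {η l s : ℝ} {c : ℕ → ℝ}

/-- power series with real coefficients -/
noncomputable def ps (c : ℕ → ℝ) (z : ℂ) : ℂ := ∑' k, (c k : ℂ) * z ^ k

theorem ps_bound (c : ℕ → ℝ) {R : ℝ} (k : ℕ) (w : ℂ) (hw : w ∈ Metric.ball (0 : ℂ) R) :
    ‖(c k : ℂ) * w ^ k‖ ≤ |c k| * R ^ k := by
  rw [norm_mul, norm_real, Real.norm_eq_abs, norm_pow]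
  rw [mem_ball_zero_iff] at hw
  exact mul_le_mul_of_nonneg_left (pow_le_pow_left₀ (norm_nonneg _) hw.le k) (abs_nonneg _)

theorem mem_ball_succ (z : ℂ) : z ∈ Metric.ball (0 : ℂ) (‖z‖ + 1) := by simp

theorem Fast.hasSum (h : Fast c) (z : ℂ) : HasSum (fun k => (c k : ℂ) * z ^ k) (ps c z) :=
  (Summable.of_norm_bounded (h.summable (R := ‖z‖ + 1) (by positivity))
    fun k => ps_bound c k z (mem_ball_succ z)).hasSum

theorem Fast.diff (h : Fast c) : Differentiable ℂ (ps c) := by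
  intro z
  have := differentiableOn_tsum_of_summable_norm (F := fun k w => (c k : ℂ) * w ^ k)
    (h.summable (R := ‖z‖ + 1) (by positivity)) (fun k => by fun_prop) Metric.isOpen_ball
    (fun k w hw => ps_bound c k w hw)
  exact this.differentiableAt (Metric.isOpen_ball.mem_nhds (mem_ball_succ z))

theorem Fast.hasSum_deriv0 (h : Fast c) (z : ℂ) :
    HasSum (fun k => (c k : ℂ) * (k * z ^ (k - 1))) (deriv (ps c) z) := by
  have := hasSum_deriv_of_summable_norm (F := fun k w => (c k : ℂ) * w ^ k)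
    (h.summable (R := ‖z‖ + 1) (by positivity)) (fun k => by fun_prop) Metric.isOpen_ball
    (fun k w hw => ps_bound c k w hw) (mem_ball_succ z)
  convert! this using 2 with k
  exact (((hasDerivAt_pow k z).const_mul (c k : ℂ)).deriv).symm

theorem Fast.hasSum_deriv (h : Fast c) (z : ℂ) :
    HasSum (fun k : ℕ => (k : ℂ) * ((c k : ℂ) * z ^ k)) (z * deriv (ps c) z) := by
  convert! (h.hasSum_deriv0 z).mul_left z using 2 with k
  rcases k with _ | k
  · simp
  · simp only [add_tsub_cancel_right]; ring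

theorem Fast.deriv_zero (h : Fast c) : deriv (ps c) 0 = c 1 := by
  have h1 := h.hasSum_deriv0 0
  have h2 : HasSum (fun k => (c k : ℂ) * (k * (0 : ℂ) ^ (k - 1)))
      ((c 1 : ℂ) * ((1 : ℕ) * (0 : ℂ) ^ (1 - 1))) := by
    apply hasSum_single 1
    intro k hk
    rcases k with _ | _ | k
    · simp
    · exact absurd rfl hk
    · simp
  simpa using h1.unique h2

theorem ps_zero (c : ℕ → ℝ) : ps c 0 = c 0 := by
  unfold ps
  rw [tsum_eq_single 0]
  · simp
  · intro k hk; simp [hk]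

theorem Fast.ps_conj (h : Fast c) (z : ℂ) : ps c (conj z) = conj (ps c z) := by
  have h1 := (h.hasSum z).star
  refine (h.hasSum (conj z)).unique ?_
  convert! h1 using 2 with k
  simp

theorem Fast.ps_real (h : Fast c) (x : ℝ) : ((ps c x).re : ℂ) = ps c x := by
  have := h.ps_conj x
  rw [conj_ofReal] at this
  exact conj_eq_iff_re.1 this.symm

/-- coefficients of the second component -/
noncomputable def bs (η l s : ℝ) (k : ℕ) : ℝ :=
  if k = 0 then s / η else -(η / (2 * k)) * sh η l s k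

theorem bs_succ (η l s : ℝ) (k : ℕ) :
    bs η l s (k + 1) = -(η / (2 * (k + 1))) * sh η l s (k + 1) := by simp [bs]

theorem Hardy.fast_bs (hs : s ≠ 0) (h : Hardy η l s) : Fast (bs η l s) := by
  intro q hq
  obtain ⟨C, hC⟩ := h.fast hs q hq
  refine ⟨|s / η| + |η| * |C|, fun k => ?_⟩
  rcases k with _ | k
  · simp only [bs, if_true, pow_zero, mul_one]
    have : 0 ≤ |η| * |C| := by positivity
    linarith
  · rw [bs_succ, abs_mul, abs_neg, abs_div]
    have h1 : |η| / |2 * ((k : ℝ) + 1)| ≤ |η| := by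
      apply div_le_self (abs_nonneg _)
      rw [abs_of_pos (by positivity)]
      have : (0 : ℝ) ≤ k := by positivity
      linarith
    have h2 : |sh η l s (k + 1)| ≤ |C| * q ^ (k + 1) :=
      (hC _).trans (mul_le_mul_of_nonneg_right (le_abs_self _) (by positivity))
    have h3 := mul_le_mul h1 h2 (abs_nonneg _) (abs_nonneg _)
    have h4 : 0 ≤ |s / η| * q ^ (k + 1) := by positivity
    nlinarith

/-- first component -/
noncomputable def FA (η l s : ℝ) : ℂ → ℂ := ps (sh η l s)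

/-- second component -/
noncomputable def FB (η l s : ℝ) : ℂ → ℂ := ps (bs η l s)

theorem Hardy.odeB (hs : s ≠ 0) (h : Hardy η l s) (z : ℂ) :
    z * deriv (FB η l s) z = -(η / 2) * FA η l s z := by
  refine ((h.fast_bs hs).hasSum_deriv z).unique ?_
  convert! ((h.fast hs).hasSum z).mul_left (-(η / 2 : ℂ)) using 2 with k
  rcases k with _ | k
  · simp [sh_zero]
  · rw [bs_succ]
    have : (k : ℂ) + 1 ≠ 0 := by exact_mod_cast Nat.succ_ne_zero k
    push_cast
    field_simp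

theorem Hardy.odeA (hη : η ≠ 0) (hs : s ≠ 0) (h : Hardy η l s) {z : ℂ} (hz : z ≠ 0) :
    z * deriv (FA η l s) z
      = -(l + s / 2 * (z + z⁻¹)) * FA η l s z + η / 2 * FB η l s z := by
  have hA := (h.fast hs).hasSum z
  have h1 := (hasSum_nat_add_iff' 1).2 ((h.fast hs).hasSum_deriv z)
  have h2 := (hasSum_nat_add_iff' 1).2 hA
  have h3 := hA.mul_left z
  have h4 := ((hasSum_nat_add_iff' 2).2 hA).mul_left z⁻¹
  have h5 := (hasSum_nat_add_iff' 1).2 ((h.fast_bs hs).hasSum z)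
  have h6 := ((h1.add (h2.mul_left (l : ℂ))).add ((h3.add h4).mul_left (s / 2 : ℂ))).sub
    (h5.mul_left (η / 2 : ℂ))
  have h8 := h6.unique (a₂ := 0) (by
    convert! hasSum_zero (α := ℂ) (β := ℕ) using 2 with k
    have r : (dg η l (k + 1) : ℂ) * sh η l s (k + 1)
        + s / 2 * (sh η l s k + sh η l s (k + 2)) = 0 := by exact_mod_cast sh_rec hs k
    rw [bs_succ]
    unfold dg at r
    have : (k : ℂ) + 1 ≠ 0 := by exact_mod_cast Nat.succ_ne_zero k
    have e : z⁻¹ * ((sh η l s (k + 2) : ℂ) * z ^ (k + 2)) = sh η l s (k + 2) * z ^ (k + 1) := by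
      field_simp
      ring
    have e2 : (η : ℂ) ^ 2 / (4 * (k + 1)) = η / 2 * (η / (2 * (k + 1))) := by
      field_simp
      ring
    rw [e]
    push_cast at r ⊢
    rw [e2] at r
    linear_combination (z ^ (k + 1)) * r)
  have hη' : (η : ℂ) ≠ 0 := by exact_mod_cast hη
  simp only [Finset.sum_range_succ, Finset.range_zero, Finset.sum_empty, sh_zero, sh_one, bs,
    if_true] at h8
  push_cast at h8
  unfold FA FB
  have e3 : (η : ℂ) / 2 * (s / η) = s / 2 := by field_simp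
  have e4 : z⁻¹ * z = 1 := inv_mul_cancel₀ hz
  linear_combination h8 - e3 + (s / 2) * e4

theorem Hardy.dA (hη : η ≠ 0) (hs : s ≠ 0) (h : Hardy η l s) (ζ : ℂ) :
    HasDerivAt (fun ζ => FA η l s (exp ζ))
      (-(l + s * cosh ζ) * FA η l s (exp ζ) + η / 2 * FB η l s (exp ζ)) ζ := by
  have h1 := (((h.fast hs).diff (exp ζ)).hasDerivAt).comp ζ (hasDerivAt_exp ζ)
  refine h1.congr_deriv ?_
  have h2 := h.odeA hη hs (exp_ne_zero ζ)
  rw [← exp_neg] at h2
  have h3 : cosh ζ = (exp ζ + exp (-ζ)) / 2 := rfl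
  rw [h3]
  unfold FA at h2 ⊢
  linear_combination h2

theorem Hardy.dB (hs : s ≠ 0) (h : Hardy η l s) (ζ : ℂ) :
    HasDerivAt (fun ζ => FB η l s (exp ζ)) (-(η / 2) * FA η l s (exp ζ)) ζ := by
  have h1 := (((h.fast_bs hs).diff (exp ζ)).hasDerivAt).comp ζ (hasDerivAt_exp ζ)
  refine h1.congr_deriv ?_
  have h2 := h.odeB hs (exp ζ)
  unfold FB at h2
  linear_combination h2

theorem vert {F : ℂ → ℂ} {F' : ℂ} (t τ : ℝ) (h : HasDerivAt F F' (t + I * τ)) :
    HasDerivAt (fun τ : ℝ => F (t + I * τ)) (I * F') τ := by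
  have h1 : HasDerivAt (fun w : ℂ => (t : ℂ) + I * w) I τ := by
    simpa using ((hasDerivAt_id (τ : ℂ)).const_mul I).const_add (t : ℂ)
  have h2 := (h.comp (τ : ℂ) h1).comp_ofReal
  refine h2.congr_deriv ?_
  ring

theorem cosh_vert (t τ : ℝ) : cosh ((t : ℂ) + I * τ)
    = (Real.cosh t * Real.cos τ : ℝ) + (Real.sinh t * Real.sin τ : ℝ) * I := by
  rw [cosh_add, mul_comm I, cosh_mul_I, sinh_mul_I]
  push_cast
  ring

/-- the periodic solution given by the series -/
theorem Hardy.lin (hη : η ≠ 0) (hs : s ≠ 0) (h : Hardy η l s) :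
    IsLin η l s (fun τ => FA η l s (exp (I * τ))) (fun τ => I * FB η l s (exp (I * τ))) := by
  intro τ
  have h1 := vert 0 τ (h.dA hη hs _)
  have h2 := (vert 0 τ (h.dB hs _)).const_mul I
  rw [cosh_vert] at h1
  simp only [ofReal_zero, zero_add, Real.cosh_zero, Real.sinh_zero, one_mul, zero_mul,
    add_zero] at h1 h2
  refine ⟨h1.congr_deriv ?_, h2.congr_deriv ?_⟩
  · simp only [ofReal_add, ofReal_mul]; ring
  · linear_combination (-(η / 2) * FA η l s (exp (I * τ))) * I_sq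

/-- restriction to the positive axis -/
noncomputable def ra (η l s t : ℝ) : ℝ := (FA η l s (exp t)).re

noncomputable def rb (η l s t : ℝ) : ℝ := (FB η l s (exp t)).re

theorem Hardy.ra_eq (hs : s ≠ 0) (h : Hardy η l s) (t : ℝ) :
    FA η l s (exp t) = ra η l s t := by
  unfold ra FA
  rw [← ofReal_exp, (h.fast hs).ps_real]

theorem Hardy.rb_eq (hs : s ≠ 0) (h : Hardy η l s) (t : ℝ) :
    FB η l s (exp t) = rb η l s t := by
  unfold rb FB
  rw [← ofReal_exp, (h.fast_bs hs).ps_real]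

theorem hasDerivAt_re {f : ℝ → ℂ} {f' : ℂ} {t : ℝ} (h : HasDerivAt f f' t) :
    HasDerivAt (fun t => (f t).re) f'.re t := by
  exact reCLM.hasFDerivAt.comp_hasDerivAt t h

theorem Hardy.d_ra (hη : η ≠ 0) (hs : s ≠ 0) (h : Hardy η l s) (t : ℝ) :
    HasDerivAt (ra η l s) (-(l + s * Real.cosh t) * ra η l s t + η / 2 * rb η l s t) t := by
  refine (hasDerivAt_re (h.dA hη hs t).comp_ofReal).congr_deriv ?_
  rw [h.ra_eq hs, h.rb_eq hs]
  norm_cast

theorem Hardy.d_rb (hs : s ≠ 0) (h : Hardy η l s) (t : ℝ) :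
    HasDerivAt (rb η l s) (-(η / 2) * ra η l s t) t := by
  refine (hasDerivAt_re (h.dB hs t).comp_ofReal).congr_deriv ?_
  rw [h.ra_eq hs]
  norm_cast

theorem exp_tendsto : Tendsto (fun t : ℝ => exp (t : ℂ)) atBot (𝓝[≠] 0) := by
  apply tendsto_nhdsWithin_of_tendsto_nhds_of_eventually_within
  · have := (continuous_ofReal.tendsto 0).comp Real.tendsto_exp_atBot
    simpa [Function.comp_def] using this
  · exact Eventually.of_forall fun t => exp_ne_zero _

theorem Hardy.lim_ra (hs : s ≠ 0) (h : Hardy η l s) :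
    Tendsto (fun t => Real.exp (-t) * ra η l s t) atBot (𝓝 1) := by
  have h1 := ((h.fast hs).diff 0).hasDerivAt
  rw [(h.fast hs).deriv_zero, sh_one, hasDerivAt_iff_tendsto_slope_zero] at h1
  have h2 := (continuous_re.tendsto _).comp (h1.comp exp_tendsto)
  simp only [ofReal_one, one_re] at h2
  refine h2.congr fun t => ?_
  simp only [Function.comp, zero_add, ps_zero, sh_zero, ofReal_zero, sub_zero, smul_eq_mul]
  have := h.ra_eq hs t
  unfold FA at this
  rw [this, ← exp_neg]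
  norm_cast

theorem Hardy.lim_ra0 (hs : s ≠ 0) (h : Hardy η l s) :
    Tendsto (ra η l s) atBot (𝓝 0) := by
  have := Real.tendsto_exp_atBot.mul (h.lim_ra hs)
  rw [zero_mul] at this
  refine this.congr fun t => ?_
  rw [← mul_assoc, ← Real.exp_add]
  simp

theorem Hardy.lim_rb (hs : s ≠ 0) (h : Hardy η l s) :
    Tendsto (rb η l s) atBot (𝓝 (s / η)) := by
  have h1 := ((h.fast_bs hs).diff.continuous.tendsto 0).comp
    (exp_tendsto.mono_right nhdsWithin_le_nhds)
  have h2 := (continuous_re.tendsto _).comp h1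
  rw [ps_zero] at h2
  simp only [bs, if_true, ofReal_re] at h2
  exact h2

theorem Hardy.ev_ra (hs : s ≠ 0) (h : Hardy η l s) : ∀ᶠ t in atBot, 0 < ra η l s t := by
  filter_upwards [(h.lim_ra hs).eventually (lt_mem_nhds one_pos)] with t ht
  exact (pos_iff_pos_of_mul_pos ht).1 (Real.exp_pos _)

theorem pos_pair {f g f' g' : ℝ → ℝ} {t₀ t₁ K : ℝ} (hf : ∀ t, HasDerivAt f (f' t) t)
    (hg : ∀ t, HasDerivAt g (g' t) t) (hf0 : 0 < f t₀) (hg0 : 0 < g t₀)
    (h : ∀ t ∈ Icc t₀ t₁, 0 ≤ f t → 0 ≤ g t → -K * f t ≤ f' t ∧ -K * g t ≤ g' t) :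
    ∀ t ∈ Icc t₀ t₁, 0 < f t ∧ 0 < g t := by
  have hfc : Continuous f := continuous_iff_continuousAt.2 fun t => (hf t).continuousAt
  have hgc : Continuous g := continuous_iff_continuousAt.2 fun t => (hg t).continuousAt
  by_contra hn
  push Not at hn
  obtain ⟨u, hu, hu2⟩ := hn
  have hcl : IsClosed {t | min (f t) (g t) ≤ 0} := isClosed_le (hfc.min hgc) continuous_const
  obtain ⟨v, ⟨hv1, hv2⟩, hv3⟩ := (isCompact_Icc.inter_right hcl).exists_isLeast
    ⟨u, hu, by
      show min (f u) (g u) ≤ 0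
      by_cases h1 : 0 < f u
      · exact (min_le_right _ _).trans (hu2 h1)
      · exact (min_le_left _ _).trans (not_lt.1 h1)⟩
  have hpos : ∀ t ∈ Ioo t₀ v, 0 < f t ∧ 0 < g t := by
    intro t ht
    by_contra hc
    have : min (f t) (g t) ≤ 0 := by
      by_contra h3
      exact hc (lt_min_iff.1 (not_le.1 h3))
    exact absurd (hv3 ⟨⟨ht.1.le, ht.2.le.trans hv1.2⟩, this⟩) (not_le.2 ht.2)
  have key : ∀ {f f' : ℝ → ℝ}, (∀ t, HasDerivAt f (f' t) t) → 0 < f t₀ →
      (∀ t ∈ Ioo t₀ v, -K * f t ≤ f' t) → 0 < f v := by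
    intro f f' hf hf0 h
    have hd : ∀ t, HasDerivAt (fun t => f t * Real.exp (K * t))
        (f' t * Real.exp (K * t) + f t * (Real.exp (K * t) * K)) t := by
      intro t
      have h1 : HasDerivAt (fun u => Real.exp (K * u)) (Real.exp (K * t) * K) t := by
        simpa using ((hasDerivAt_id t).const_mul K).exp
      exact (hf t).mul h1
    have hm : MonotoneOn (fun t => f t * Real.exp (K * t)) (Icc t₀ v) := by
      apply monotoneOn_of_deriv_nonneg (convex_Icc _ _)
      · exact (continuous_iff_continuousAt.2 fun u => (hd u).continuousAt).continuousOn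
      · exact fun t _ => (hd t).differentiableAt.differentiableWithinAt
      · intro t ht
        rw [interior_Icc] at ht
        rw [(hd t).deriv]
        have := h t ht
        have h4 := Real.exp_pos (K * t)
        nlinarith
    have h5 := hm (left_mem_Icc.2 hv1.1) (right_mem_Icc.2 hv1.1) hv1.1
    have h6 : 0 < f t₀ * Real.exp (K * t₀) := mul_pos hf0 (Real.exp_pos _)
    exact (pos_iff_pos_of_mul_pos (h6.trans_le h5)).2 (Real.exp_pos _)
  have k1 := key hf hf0 fun t ht =>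
    (h t ⟨ht.1.le, ht.2.le.trans hv1.2⟩ (hpos t ht).1.le (hpos t ht).2.le).1
  have k2 := key hg hg0 fun t ht =>
    (h t ⟨ht.1.le, ht.2.le.trans hv1.2⟩ (hpos t ht).1.le (hpos t ht).2.le).2
  exact absurd hv2 (not_le.2 (lt_min k1 k2))

theorem pos_one {f f' : ℝ → ℝ} {t₀ t₁ K : ℝ} (hf : ∀ t, HasDerivAt f (f' t) t)
    (hf0 : 0 < f t₀) (h : ∀ t ∈ Icc t₀ t₁, 0 ≤ f t → -K * f t ≤ f' t) :
    ∀ t ∈ Icc t₀ t₁, 0 < f t := fun t ht =>
  (pos_pair hf hf hf0 hf0 (fun t ht h1 _ => ⟨h t ht h1, h t ht h1⟩) t ht).1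

theorem kappa_bdd (l s t₀ t₁ : ℝ) : ∃ K, 0 ≤ K ∧ ∀ t ∈ Icc t₀ t₁, l + s * Real.cosh t ≤ K := by
  obtain ⟨K, hK⟩ := (isCompact_Icc (a := t₀) (b := t₁)).exists_bound_of_continuousOn
    (f := fun t => l + s * Real.cosh t) (by fun_prop)
  exact ⟨|K|, abs_nonneg _, fun t ht => (le_abs_self _).trans ((hK t ht).trans (le_abs_self _))⟩

theorem Hardy.radial (hη : 0 < η) (hs : 0 < s) (h : Hardy η l s) (hl : η ≤ l + s) {t : ℝ}
    (ht : t ≤ 0) : 0 < ra η l s t ∧ ra η l s t < rb η l s t := by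
  have e1 := h.ev_ra hs.ne'
  have e2 : ∀ᶠ t in atBot, 0 < rb η l s t - ra η l s t :=
    ((h.lim_rb hs.ne').sub (h.lim_ra0 hs.ne')).eventually (lt_mem_nhds (by simp; positivity))
  obtain ⟨t₀, ⟨a1, a2⟩, a3⟩ := ((e1.and e2).and (eventually_le_atBot t)).exists
  obtain ⟨K, hK0, hK⟩ := kappa_bdd l s t₀ 0
  have := pos_pair (K := K + η) (t₁ := 0) (h.d_ra hη.ne' hs.ne')
    (fun t => (h.d_rb hs.ne' t).sub (h.d_ra hη.ne' hs.ne' t)) a1 a2 (by
      intro u hu h1 h2
      have k1 := hK u hu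
      have k2 : l + s ≤ l + s * Real.cosh u := by nlinarith [Real.one_le_cosh u]
      simp only [Pi.sub_apply] at h2 ⊢
      constructor <;> nlinarith [mul_nonneg h1 (sub_nonneg.2 k1), mul_nonneg hK0 h2,
        mul_nonneg h1 (sub_nonneg.2 (hl.trans k2)), mul_nonneg hη.le h1, mul_nonneg hη.le h2])
    t ⟨a3, ht⟩
  simp only [Pi.sub_apply] at this
  exact ⟨this.1, by linarith [this.2]⟩

theorem Hardy.circle (hη : 0 < η) (hs : 0 < s) (h : Hardy η l s) (hl : η ≤ l + s) {t τ : ℝ}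
    (ht : t ≤ 0) (hτ : τ ∈ Icc 0 π) : FB η l s (exp (t + I * τ)) ≠ 0 := by
  set a : ℝ → ℂ := fun τ => FA η l s (exp (t + I * τ)) with ha
  set b : ℝ → ℂ := fun τ => FB η l s (exp (t + I * τ)) with hb
  have hd : ∀ τ : ℝ, HasDerivAt (fun τ => (b τ * conj (b τ) - a τ * conj (a τ)).re)
      (-2 * s * (Real.sinh t * Real.sin τ) * normSq (a τ)) τ := by
    intro τ
    have h1 := vert t τ (h.dA hη.ne' hs.ne' _)
    have h2 := vert t τ (h.dB hs.ne' _)
    rw [cosh_vert] at h1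
    have h3 := (h2.mul (hasDerivAt_conj h2)).sub (h1.mul (hasDerivAt_conj h1))
    refine (hasDerivAt_re h3).congr_deriv ?_
    rw [← ofReal_re (-2 * s * (Real.sinh t * Real.sin τ) * normSq (a τ))]
    congr 1
    simp only [map_add, map_mul, map_neg, conj_I, conj_ofReal, map_div₀, map_ofNat]
    rw [ofReal_mul _ (normSq (a τ)), ← mul_conj]
    simp only [ha, ofReal_mul, ofReal_neg, ofReal_ofNat]
    linear_combination (2 * s * (Real.sinh t * Real.sin τ) * (FA η l s (exp (t + I * τ))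
      * conj (FA η l s (exp (t + I * τ))))) * I_sq
  have hm : MonotoneOn (fun τ => (b τ * conj (b τ) - a τ * conj (a τ)).re) (Icc 0 π) := by
    apply monotoneOn_of_deriv_nonneg (convex_Icc _ _)
    · exact (continuous_iff_continuousAt.2 fun u => (hd u).continuousAt).continuousOn
    · exact fun t _ => (hd t).differentiableAt.differentiableWithinAt
    · intro u hu
      rw [interior_Icc] at hu
      rw [(hd u).deriv]
      have k1 : 0 ≤ Real.sin u := Real.sin_nonneg_of_nonneg_of_le_pi hu.1.le hu.2.le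
      have k2 : 0 ≤ -Real.sinh t := by simpa using ht
      have k3 := normSq_nonneg (a u)
      have : 0 ≤ 2 * s * (-Real.sinh t * Real.sin u) * normSq (a u) := by positivity
      linarith
  have h5 := hm (left_mem_Icc.2 Real.pi_pos.le) hτ hτ.1
  simp only [ha, hb, ofReal_zero, mul_zero, add_zero, h.ra_eq hs.ne', h.rb_eq hs.ne', mul_conj,
    sub_re, ofReal_re, normSq_ofReal] at h5
  obtain ⟨r1, r2⟩ := h.radial hη hs hl ht
  intro h0
  rw [h0] at h5
  have := normSq_nonneg (FA η l s (exp (t + I * τ)))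
  simp only [map_zero] at h5
  nlinarith

theorem Hardy.disc (hη : 0 < η) (hs : 0 < s) (h : Hardy η l s) (hl : η ≤ l + s) {z : ℂ}
    (hz : ‖z‖ ≤ 1) : FB η l s z ≠ 0 := by
  by_cases h0 : z = 0
  · rw [h0, FB, ps_zero]
    have : s / η ≠ 0 := by positivity
    simpa [bs] using ⟨hs.ne', hη.ne'⟩
  have ht : Real.log ‖z‖ ≤ 0 := Real.log_nonpos (norm_nonneg _) hz
  have e : z = exp (Real.log ‖z‖ + I * arg z) := by
    conv_lhs => rw [← exp_log h0]
    rw [mul_comm I]
    rfl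
  rcases le_total 0 (arg z) with h1 | h1
  · rw [e]
    exact h.circle hη hs hl ht ⟨h1, arg_le_pi z⟩
  · have h2 := h.circle hη hs hl ht (τ := -arg z) ⟨by linarith, by linarith [neg_pi_lt_arg z]⟩
    have e2 : exp (Real.log ‖z‖ + I * (-arg z : ℝ)) = conj z := by
      conv_rhs => rw [e, ← exp_conj]
      simp
    rw [e2, FB, (h.fast_bs hs.ne').ps_conj] at h2
    simpa [FB] using h2

theorem Hardy.circ_int (hs : s ≠ 0) (h : Hardy η l s) :
    (∮ z in C(0, 1), z ^ 0 * (deriv (FB η l s) z / FB η l s z))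
      = ∫ τ in (0 : ℝ)..2 * π, η / 2 * (FA η l s (exp (I * τ)) / (I * FB η l s (exp (I * τ)))) := by
  unfold circleIntegral
  congr 1
  ext τ
  have e : circleMap 0 1 τ = exp (I * τ) := by simp [circleMap, mul_comm]
  rw [deriv_circleMap, e, smul_eq_mul]
  have := h.odeB hs (exp (I * τ))
  beta_reduce
  rw [pow_zero, one_mul, mul_comm _ I, mul_assoc, ← mul_div_assoc, this, div_mul_eq_div_div_swap,
    div_I]
  ring

/-- argument principle for the second component -/
theorem Hardy.wind (hs : s ≠ 0) (h : Hardy η l s) (hc : ∀ z, ‖z‖ = 1 → FB η l s z ≠ 0) :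
    (∫ τ in (0 : ℝ)..2 * π, η / 2 * (FA η l s (exp (I * τ)) / (I * FB η l s (exp (I * τ)))) = 0)
      ↔ ∀ z, ‖z‖ < 1 → FB η l s z ≠ 0 := by
  obtain ⟨S, m, hS, hm, hI⟩ := Pool.Agent.Helper890.Cov.JA2.stA2 (FB η l s) 0 1
    (h.fast_bs hs).diff one_pos (fun z hz => hc z (by simpa using hz))
  have h0 := hI 0
  rw [h.circ_int hs] at h0
  simp only [pow_zero, mul_one] at h0
  constructor
  · intro h1 z hz hz0
    rw [h1, mul_zero] at h0
    have hzS : z ∈ S := (hS z).2 ⟨by simpa using hz, hz0⟩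
    have h2 : ∑ t ∈ S, m t = 0 := by exact_mod_cast h0.symm
    have := Finset.sum_eq_zero_iff.1 h2 z hzS
    have := hm z hzS
    omega
  · intro h1
    have : S = ∅ := by
      apply Finset.eq_empty_of_forall_notMem
      intro z hz
      obtain ⟨a1, a2⟩ := (hS z).1 hz
      exact h1 z (by simpa using a1) a2
    rw [this, Finset.sum_empty] at h0
    refine (mul_eq_zero.1 h0).resolve_left (inv_ne_zero two_pi_I_ne_zero)

theorem Hardy.pos_of_ne (hη : 0 < η) (hs : 0 < s) (h : Hardy η l s)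
    (hb : ∀ t ≤ 0, rb η l s t ≠ 0) {t : ℝ} (ht : t ≤ 0) : 0 < ra η l s t ∧ 0 < rb η l s t := by
  have e1 := h.ev_ra hs.ne'
  have e2 : ∀ᶠ t in atBot, 0 < rb η l s t :=
    (h.lim_rb hs.ne').eventually (lt_mem_nhds (by positivity))
  obtain ⟨t₀, ⟨a1, a2⟩, a3⟩ := ((e1.and e2).and (eventually_le_atBot t)).exists
  have hbc : Continuous (rb η l s) :=
    continuous_iff_continuousAt.2 fun u => (h.d_rb hs.ne' u).continuousAt
  have hbp : ∀ u ∈ Icc t₀ 0, 0 < rb η l s u := by
    intro u hu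
    by_contra hn
    push Not at hn
    obtain ⟨v, hv, hv0⟩ := intermediate_value_Icc' hu.1 hbc.continuousOn ⟨hn, a2.le⟩
    exact hb v (hv.2.trans hu.2) hv0
  obtain ⟨K, hK0, hK⟩ := kappa_bdd l s t₀ 0
  refine ⟨pos_one (K := K) (t₁ := 0) (h.d_ra hη.ne' hs.ne') a1 ?_ t ⟨a3, ht⟩, hbp t ⟨a3, ht⟩⟩
  intro u hu h1
  nlinarith [mul_nonneg h1 (sub_nonneg.2 (hK u hu)), mul_pos hη (hbp u hu)]

/-- comparison of two values of the ordinate -/
theorem Hardy.compare {s' : ℝ} (hη : 0 < η) (hs : 0 < s) (hss : s < s') (h : Hardy η l s)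
    (h' : Hardy η l s') (hb : ∀ t ≤ 0, rb η l s t ≠ 0) (hb' : ∀ t ≤ 0, rb η l s' t ≠ 0) :
    ra η l s' 0 * rb η l s 0 < ra η l s 0 * rb η l s' 0 := by
  have hs' : 0 < s' := hs.trans hss
  have e1 : ∀ᶠ t in atBot, 0 < (Real.exp (-t) * ra η l s t) * rb η l s' t
      - (Real.exp (-t) * ra η l s' t) * rb η l s t :=
    (((h.lim_ra hs.ne').mul (h'.lim_rb hs'.ne')).sub
      ((h'.lim_ra hs'.ne').mul (h.lim_rb hs.ne'))).eventually (lt_mem_nhds (by
        rw [one_mul, one_mul, ← sub_div]; apply div_pos _ hη; linarith))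
  obtain ⟨t₀, a1, a3⟩ := (e1.and (eventually_le_atBot 0)).exists
  have a2 : 0 < ra η l s t₀ * rb η l s' t₀ - ra η l s' t₀ * rb η l s t₀ := by
    apply (pos_iff_pos_of_mul_pos (a := Real.exp (-t₀)) _).1 (Real.exp_pos _)
    linarith
  obtain ⟨K, hK0, hK⟩ := kappa_bdd l s t₀ 0
  have := pos_one (K := K) (t₁ := 0) (fun t => ((h.d_ra hη.ne' hs.ne' t).mul
    (h'.d_rb hs'.ne' t)).sub ((h'.d_ra hη.ne' hs'.ne' t).mul (h.d_rb hs.ne' t))) a2 (by
      intro u hu h1
      simp only [Pi.sub_apply, Pi.mul_apply] at h1 ⊢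
      have k1 := (h.pos_of_ne hη hs hb hu.2).2
      have k2 := (h'.pos_of_ne hη hs' hb' hu.2).1
      have k3 : 0 < (s' - s) * Real.cosh u * (ra η l s' u * rb η l s u) :=
        mul_pos (mul_pos (by linarith) (Real.cosh_pos u)) (mul_pos k2 k1)
      nlinarith [mul_nonneg h1 (sub_nonneg.2 (hK u hu))]) 0 ⟨a3, le_rfl⟩
  simp only [Pi.sub_apply, Pi.mul_apply] at this
  linarith

end Pool.Agent.H364Z
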