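import Pool.Agent.H364Z.Tr

set_option autoImplicit false

open Real Set Filter Topology MeasureTheory

namespace Pool.Agent.H364Z

variable {η l s : ℝ} {φ ψ : ℝ → ℝ}

/-- derivative of the period map in `η`, up to sign -/
noncomputable def tq (η : ℝ) (φ : ℝ → ℝ) : ℝ :=
  ∫ τ in (0 : ℝ)..2 * π, sin (φ τ) * exp (η * Cs φ τ)

theorem D_pert_eta (η l s : ℝ) (m : ℤ) (x : ℝ) : ∃ C : ℝ, 0 < C ∧ ∀ η' : ℝ,
    |exp (η * Cs (sol η l s x) (2 * π)) * (D η' l s m x - D η l s m x)
      + (η' - η) * tq η (sol η l s x)| ≤ C * (η' - η) ^ 2 := by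
  have hφ := sol_isSol η l s x
  set φ := sol η l s x with hφd
  have hφc := hφ.continuous
  have hC := Cs_cont hφ.continuous
  obtain ⟨M, hM⟩ := (isCompact_Icc (a := 0) (b := 2 * π)).exists_bound_of_continuousOn
    (f := fun τ => exp (η * Cs φ τ)) (by fun_prop)
  have hM0 : 0 < M := lt_of_lt_of_le (by simp) (hM 0 ⟨le_rfl, by positivity⟩)
  set K := exp (2 * π * (|η| + 1)) with hK
  have hK0 : 0 < K := exp_pos _
  refine ⟨M * (|η| * K ^ 2 + K) * (2 * π), by positivity, fun η' => ?_⟩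
  have hψ := sol_isSol η' l s x
  set ψ := sol η' l s x with hψd
  have c1 : Continuous fun τ => sin (φ τ) * exp (η * Cs φ τ) := by fun_prop
  have hd : ∀ τ, HasDerivAt (fun τ => exp (η * Cs φ τ) * (ψ τ - φ τ)
      + (η' - η) * (∫ u in (0 : ℝ)..τ, sin (φ u) * exp (η * Cs φ u)))
      (-(exp (η * Cs φ τ) * (η * (sin (ψ τ) - sin (φ τ) - cos (φ τ) * (ψ τ - φ τ))
        + (η' - η) * (sin (ψ τ) - sin (φ τ))))) τ := by
    intro τ
    have h1 := ((Cs_deriv hφ.continuous τ).const_mul η).exp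
    have h2 := (c1.integral_hasStrictDerivAt 0 τ).hasDerivAt.const_mul (η' - η)
    refine ((h1.mul ((hψ τ).sub (hφ τ))).add h2).congr_deriv ?_
    simp only [Pi.sub_apply]
    ring
  have h := (convex_Icc 0 (2 * π)).norm_image_sub_le_of_norm_hasDerivWithin_le
    (C := M * (|η| * K ^ 2 + K) * (η' - η) ^ 2)
    (fun τ _ => (hd τ).hasDerivWithinAt) (fun τ hτ => by
      rw [norm_neg, norm_mul, Real.norm_eq_abs (_ + _)]
      have h1 := sin_taylor (φ τ) (ψ τ)
      have h2 := hφ.est hψ hτ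
      rw [hφd, hψd, sol_zero, sol_zero, sub_self, sub_self, sub_self, abs_zero, zero_add, zero_add,
        zero_add, abs_sub_comm η, abs_sub_comm, ← hK, ← hφd, ← hψd] at h2
      have h3 : (ψ τ - φ τ) ^ 2 ≤ (|η' - η| * K) ^ 2 := by
        rw [← sq_abs]
        exact pow_le_pow_left₀ (abs_nonneg _) h2 2
      have h4 := mul_le_mul_of_nonneg_left (h1.trans h3) (abs_nonneg η)
      have h5 := mul_le_mul_of_nonneg_left ((abs_sin_sub (ψ τ) (φ τ)).trans h2)
        (abs_nonneg (η' - η))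
      have h6 := abs_add_le (η * (sin (ψ τ) - sin (φ τ) - cos (φ τ) * (ψ τ - φ τ)))
        ((η' - η) * (sin (ψ τ) - sin (φ τ)))
      rw [abs_mul, abs_mul] at h6
      have h7 : |η * (sin (ψ τ) - sin (φ τ) - cos (φ τ) * (ψ τ - φ τ))
          + (η' - η) * (sin (ψ τ) - sin (φ τ))| ≤ (|η| * K ^ 2 + K) * (η' - η) ^ 2 := by
        rw [← sq_abs (η' - η)]
        nlinarith
      refine (mul_le_mul (hM τ hτ) h7 (by positivity) hM0.le).trans (le_of_eq ?_)
      ring) ⟨le_rfl, by positivity⟩ two_pi_mem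
  rw [Real.norm_eq_abs, Real.norm_eq_abs, sub_zero (2 * π), abs_of_pos (by positivity : 0 < 2 * π)]
    at h
  simp only [hφd, hψd, sol_zero, sub_self, mul_zero, intervalIntegral.integral_same, sub_zero,
    add_zero] at h
  refine le_trans (le_of_eq ?_) (h.trans (le_of_eq (by ring)))
  unfold D tq
  congr 1
  ring

theorem D_sign_eta {m : ℤ} {x : ℝ} (h : D η l s m x = 0) (hE : Cs (sol η l s x) (2 * π) = 0)
    (hc : 0 < tq η (sol η l s x)) : ∀ᶠ η' in 𝓝[≠] η, (η' - η) * D η' l s m x < 0 := by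
  obtain ⟨C, hC0, hC⟩ := D_pert_eta η l s m x
  set c := tq η (sol η l s x)
  have e1 : ∀ᶠ η' in 𝓝 η, |η' - η| < c / C := by
    have : Tendsto (fun η' => |η' - η|) (𝓝 η) (𝓝 0) := by
      have : Continuous fun η' => |η' - η| := by fun_prop
      simpa using this.tendsto η
    exact this.eventually (gt_mem_nhds (by positivity))
  filter_upwards [e1.filter_mono nhdsWithin_le_nhds, self_mem_nhdsWithin] with η' h1 h2
  have h3 := hC η'
  rw [hE, h, mul_zero, exp_zero, sub_zero, one_mul, ← sq_abs (η' - η)] at h3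
  have hδ : 0 < |η' - η| := abs_pos.2 (sub_ne_zero.2 h2)
  rw [lt_div_iff₀ hC0] at h1
  have h4 : |D η' l s m x + (η' - η) * c| < |(η' - η) * c| := by
    rw [abs_mul, abs_of_pos hc]
    nlinarith
  have h5 := sq_lt_sq.2 h4
  by_contra hn
  push Not at hn
  nlinarith [sq_nonneg (D η' l s m x), mul_nonneg hn hc.le]

open Complex ComplexConjugate in
theorem tq_pos {k n j : ℤ} {x : ℝ} (hη : 0 < η) (hs : 0 < s) (hn : 0 ≤ n)
    (hx : π - x = x + k * (2 * π)) (h : D η n s (n + 2 * j) x = 0) :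
    (∀ y, D η n s n y = 0) ∨ 0 < tq η (sol η n s x) := by
  have hφ := sol_isSol η n s x
  set φ := sol η n s x with hφd
  have hC := Cs_sym_zero hx h
  have p1 : la η n s φ (2 * π) = 1 := by
    rw [hφd, la_two_pi h, hC, show (-((n : ℝ) + ((n + 2 * j : ℤ) : ℝ)) / 2)
      = ((-n - j : ℤ) : ℝ) by push_cast; ring, exp_int0]
    simp
  have n1 : IsPer η n s (la η n s φ) (lb η n s φ) :=
    ⟨hφ.lin, by rw [p1, la_zero], by rw [hφd, lb_two_pi h, p1, one_mul]⟩
  by_cases h1 : co (la η n s φ) 1 = 0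
  swap
  · exact Or.inl ((n1.hardy_pos hη.ne' hs.ne' h1).all hη hs hn)
  right
  have h2 : co (la η n s φ) (-1) ≠ 0 := fun h2 =>
    la_ne η n s φ 0 (n1.zero hη.ne' hs.ne' h1 h2).1
  have hp := parseval n1.lin.cont_b n1.lin.cont_a n1.per_a (n1.sum_a hη.ne' hs.ne')
  have hφc := hφ.continuous
  have hCc := Cs_cont hφc
  have e : ((2 * π : ℂ)⁻¹ * ∫ τ in (0 : ℝ)..2 * π, lb η n s φ τ * conj (la η n s φ τ)).im
      = (2 * π)⁻¹ * tq η φ := by
    rw [show (2 * π : ℂ)⁻¹ = (((2 * π)⁻¹ : ℝ) : ℂ) by push_cast; ring, im_ofReal_mul]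
    congr 1
    have ca := n1.lin.cont_a
    have cb := n1.lin.cont_b
    rw [← imCLM_apply, ← imCLM.intervalIntegral_comp_comm
      (Continuous.intervalIntegrable (by fun_prop) _ _), tq]
    congr 1
    ext τ
    rw [imCLM_apply, lb, mul_assoc, la_normSq, exp_I_mul, mul_comm, im_ofReal_mul]
    simp only [add_im, ofReal_im, mul_im, ofReal_re, I_im, I_re]
    ring
  have hi := imCLM.hasSum hp
  simp only [imCLM_apply] at hi
  rw [e] at hi
  have term : ∀ i : ℤ, (co (lb η n s φ) i * conj (co (la η n s φ) i)).im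
      = -(η / (2 * i)) * normSq (co (la η n s φ) i) := by
    intro i
    by_cases h0 : i = 0
    · simp [h0, n1.co_zero hη.ne']
    · rw [n1.cob_eq h0, mul_assoc, mul_conj,
        show (η : ℂ) / (2 * i) = ((η / (2 * i) : ℝ) : ℂ) by push_cast; ring]
      simp only [mul_im, mul_re, neg_re, neg_im, I_re, I_im, ofReal_re, ofReal_im]
      ring
  simp only [term] at hi
  have := hasSum_lt (f := fun _ : ℤ => (0 : ℝ)) (i := -1) (fun i => by
    obtain ⟨m, rfl | rfl⟩ := i.eq_nat_or_neg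
    · simp [n1.co_pos hη.ne' hs.ne', h1]
    · have := normSq_nonneg (co (la η n s φ) ((-m : ℤ) : ℝ))
      have h3 : 0 ≤ -(η / (2 * ((-m : ℤ) : ℝ))) := by
        push_cast
        rw [mul_neg, div_neg, neg_neg]
        positivity
      exact mul_nonneg h3 this) (by
    have := normSq_pos.2 h2
    push_cast
    rw [show -(η / (2 * -1)) = η / 2 by ring]
    positivity) hasSum_zero hi
  exact (pos_iff_pos_of_mul_pos this).1 (by positivity)

end Pool.Agent.H364Z
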