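import Pool.Agent.H364Z.Lin

set_option autoImplicit false

open Set Filter Topology Complex ComplexConjugate MeasureTheory
open scoped Real

namespace Pool.Agent.H364Z

variable {η l s : ℝ} {a b a' b' f g : ℝ → ℂ}

/-- Fourier coefficient with a real exponent -/
noncomputable def co (f : ℝ → ℂ) (x : ℝ) : ℂ :=
  (2 * π : ℂ)⁻¹ * ∫ τ in (0 : ℝ)..2 * π, exp (-I * x * τ) * f τ

theorem two_pi_ne : (2 * π : ℂ) ≠ 0 := by
  have := Real.pi_ne_zero
  simp [this]

theorem co_comb (hf : Continuous f) (hg : Continuous g) (P R : ℂ) (x : ℝ) :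
    co (fun τ => P * f τ + R * g τ) x = P * co f x + R * co g x := by
  unfold co
  have h1 : IntervalIntegrable (fun τ : ℝ => P * (exp (-I * x * τ) * f τ)) volume 0 (2 * π) :=
    Continuous.intervalIntegrable (by fun_prop) _ _
  have h2 : IntervalIntegrable (fun τ : ℝ => R * (exp (-I * x * τ) * g τ)) volume 0 (2 * π) :=
    Continuous.intervalIntegrable (by fun_prop) _ _
  have : (fun τ : ℝ => exp (-I * x * τ) * (P * f τ + R * g τ))
      = fun τ : ℝ => P * (exp (-I * x * τ) * f τ) + R * (exp (-I * x * τ) * g τ) := by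
    ext τ; ring
  rw [this, intervalIntegral.integral_add h1 h2, intervalIntegral.integral_const_mul,
    intervalIntegral.integral_const_mul]
  ring

theorem co_smul (P : ℂ) (x : ℝ) : co (fun τ => P * f τ) x = P * co f x := by
  unfold co
  have : (fun τ : ℝ => exp (-I * x * τ) * (P * f τ))
      = fun τ : ℝ => P * (exp (-I * x * τ) * f τ) := by
    ext τ; ring
  rw [this, intervalIntegral.integral_const_mul]
  ring

theorem co_cos (hf : Continuous f) (x : ℝ) :
    co (fun τ => (Real.cos τ : ℂ) * f τ) x = (co f (x - 1) + co f (x + 1)) / 2 := by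
  have h := co_comb (f := fun τ : ℝ => exp (I * τ) * f τ) (g := fun τ : ℝ => exp (-I * τ) * f τ)
    (by fun_prop) (by fun_prop) (1 / 2) (1 / 2) x
  have e1 : co (fun τ : ℝ => exp (I * τ) * f τ) x = co f (x - 1) := by
    unfold co
    congr 2
    ext τ
    rw [← mul_assoc, ← exp_add]
    congr 2
    push_cast; ring
  have e2 : co (fun τ : ℝ => exp (-I * τ) * f τ) x = co f (x + 1) := by
    unfold co
    congr 2
    ext τ
    rw [← mul_assoc, ← exp_add]
    congr 2
    push_cast; ring
  have e3 : (fun τ : ℝ => (Real.cos τ : ℂ) * f τ)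
      = fun τ : ℝ => 1 / 2 * (exp (I * τ) * f τ) + 1 / 2 * (exp (-I * τ) * f τ) := by
    ext τ
    rw [ofReal_cos, Complex.cos, mul_comm (τ : ℂ) I, show -(τ : ℂ) * I = -I * τ by ring]
    ring
  rw [e3, h, e1, e2]
  ring

theorem co_deriv {f' : ℝ → ℂ} (hf : ∀ τ, HasDerivAt f (f' τ) τ) (hf' : Continuous f') {x : ℝ}
    (hp : f (2 * π) = exp (2 * π * I * x) * f 0) : co f' x = I * x * co f x := by
  have hc : Continuous f := continuous_iff_continuousAt.2 fun t => (hf t).continuousAt
  have hd : ∀ τ : ℝ, HasDerivAt (fun τ : ℝ => exp (-I * x * τ) * f τ)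
      (exp (-I * x * τ) * (1 * f' τ + (-I * x) * f τ)) τ := by
    intro τ
    have h1 := ((hasDerivAt_id τ).ofReal_comp.const_mul (-I * x)).cexp
    refine (h1.mul (hf τ)).congr_deriv ?_
    simp only [id, ofReal_one]
    ring
  have h := intervalIntegral.integral_eq_sub_of_hasDerivAt (a := 0) (b := 2 * π)
    (fun τ _ => hd τ) (Continuous.intervalIntegrable (by fun_prop) _ _)
  have h0 : co (fun τ => 1 * f' τ + (-I * x) * f τ) x = 0 := by
    unfold co
    rw [h, hp, ← mul_assoc, ← exp_add]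
    have : -I * x * ((2 * π : ℝ) : ℂ) + 2 * π * I * x = 0 := by push_cast; ring
    rw [this]
    simp
  rw [co_comb hf' hc] at h0
  linear_combination h0

theorem co_bdd (hf : Continuous f) : ∃ M : ℝ, ∀ x, ‖co f x‖ ≤ M := by
  obtain ⟨M, hM⟩ := (isCompact_uIcc (a := (0 : ℝ)) (b := 2 * π)).exists_bound_of_continuousOn
    hf.continuousOn
  refine ⟨‖(2 * π : ℂ)⁻¹‖ * (M * |2 * π - 0|), fun x => ?_⟩
  unfold co
  rw [norm_mul]
  apply mul_le_mul_of_nonneg_left _ (norm_nonneg _)
  apply intervalIntegral.norm_integral_le_of_norm_le_const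
  intro τ hτ
  rw [norm_mul]
  have : ‖exp (-I * x * τ)‖ = 1 := by
    rw [show -I * x * τ = ((-(x * τ) : ℝ) : ℂ) * I by push_cast; ring, norm_exp_ofReal_mul_I]
  rw [this, one_mul]
  exact hM τ (uIoc_subset_uIcc hτ)

/-- Fourier inversion -/
theorem hasSum_co (hf : Continuous f) (hp : Function.Periodic f (2 * π))
    (hs : Summable fun k : ℤ => co f k) (τ : ℝ) :
    HasSum (fun k : ℤ => co f k * exp (I * k * τ)) (f τ) := by
  have : Fact (0 < 2 * π) := ⟨by positivity⟩
  let G : C(AddCircle (2 * π), ℂ) := ⟨hp.lift, hf.quotient_liftOn' _⟩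
  have hG : ∀ x : ℝ, G (x : AddCircle (2 * π)) = f x := fun x => rfl
  have hπ : (π : ℂ) ≠ 0 := by exact_mod_cast Real.pi_ne_zero
  have hco : ∀ k : ℤ, fourierCoeff G k = co f k := by
    intro k
    rw [fourierCoeff_eq_intervalIntegral _ _ 0, zero_add]
    unfold co
    rw [real_smul]
    congr 1
    · push_cast; simp
    · congr 1
      ext x
      rw [fourier_coe_apply, hG, smul_eq_mul]
      congr 2
      push_cast
      field_simp
  have h := has_pointwise_sum_fourier_series_of_summable (f := G)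
    (by rw [show fourierCoeff G = fun k : ℤ => co f k from funext hco]; exact hs)
    (τ : AddCircle (2 * π))
  rw [hG] at h
  convert h using 2 with k
  rw [hco, fourier_coe_apply, smul_eq_mul]
  congr 2
  push_cast
  field_simp

/-- Parseval -/
theorem parseval (hf : Continuous f) (hg : Continuous g) (hp : Function.Periodic g (2 * π))
    (hs : Summable fun k : ℤ => co g k) :
    HasSum (fun k : ℤ => co f k * conj (co g k))
      ((2 * π : ℂ)⁻¹ * ∫ τ in (0 : ℝ)..2 * π, f τ * conj (g τ)) := by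
  obtain ⟨M, hM⟩ := (isCompact_uIcc (a := (0 : ℝ)) (b := 2 * π)).exists_bound_of_continuousOn
    hf.continuousOn
  have h := intervalIntegral.hasSum_integral_of_dominated_convergence (μ := volume) (a := 0)
    (b := 2 * π) (F := fun (k : ℤ) (τ : ℝ) => conj (co g k) * (exp (-I * k * τ) * f τ))
    (f := fun τ => f τ * conj (g τ)) (fun k _ => ‖co g k‖ * M)
    (fun k => Continuous.aestronglyMeasurable (by fun_prop))
    (fun k => Eventually.of_forall fun τ hτ => by
      rw [norm_mul, norm_mul, norm_conj]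
      have : ‖exp (-I * k * τ)‖ = 1 := by
        rw [show -I * k * τ = ((-(k * τ) : ℝ) : ℂ) * I by push_cast; ring, norm_exp_ofReal_mul_I]
      rw [this, one_mul]
      exact mul_le_mul_of_nonneg_left (hM τ (uIoc_subset_uIcc hτ)) (norm_nonneg _))
    (Eventually.of_forall fun τ _ => hs.norm.mul_right M) intervalIntegrable_const
    (Eventually.of_forall fun τ _ => by
      have h1 := ((hasSum_co hg hp hs τ).star).mul_left (f τ)
      convert! h1 using 2 with k
      simp only [star_def, map_mul, ← exp_conj, conj_I, conj_ofReal, map_intCast]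
      ring)
  have h2 := h.mul_left (2 * π : ℂ)⁻¹
  convert! h2 using 2 with k
  rw [intervalIntegral.integral_const_mul]
  unfold co
  push_cast
  ring

theorem IsLin.rec1 (h : IsLin η l s a b) {x : ℝ} (ha : a (2 * π) = exp (2 * π * I * x) * a 0) :
    (x + l) * co a x + s / 2 * (co a (x - 1) + co a (x + 1)) = -I * (η / 2) * co b x := by
  have hca := h.cont_a
  have hcb := h.cont_b
  have h1 := co_deriv (fun τ => (h τ).1) (by fun_prop) ha
  have e : (fun τ : ℝ => -I * ((l + s * Real.cos τ : ℝ) : ℂ) * a τ + η / 2 * b τ)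
      = fun τ : ℝ => 1 * ((-I * l) * a τ + (-I * s) * ((Real.cos τ : ℂ) * a τ)) + η / 2 * b τ := by
    ext τ
    simp only [ofReal_add, ofReal_mul]
    ring
  rw [e, co_comb (by fun_prop) hcb, co_comb hca (by fun_prop), co_cos hca] at h1
  linear_combination I * h1 + ((x + l) * co a x + s / 2 * (co a (x - 1) + co a (x + 1))) * I_sq

theorem IsLin.rec2 (h : IsLin η l s a b) {x : ℝ} (hb : b (2 * π) = exp (2 * π * I * x) * b 0) :
    x * co b x = -I * (η / 2) * co a x := by
  have hca := h.cont_a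
  have h1 := co_deriv (fun τ => (h τ).2) (by fun_prop) hb
  rw [co_smul] at h1
  linear_combination I * h1 + (x * co b x) * I_sq

/-- diagonal of the Jacobi matrix -/
noncomputable def dg (η l x : ℝ) : ℝ := x + l + η ^ 2 / (4 * x)

theorem IsLin.rec3 (h : IsLin η l s a b) {x : ℝ} (ha : a (2 * π) = exp (2 * π * I * x) * a 0)
    (hb : b (2 * π) = exp (2 * π * I * x) * b 0) (hx : x ≠ 0) :
    dg η l x * co a x + s / 2 * (co a (x - 1) + co a (x + 1)) = 0 := by
  have h1 := h.rec1 ha
  have h2 := h.rec2 hb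
  have hx' : (x : ℂ) ≠ 0 := by exact_mod_cast hx
  have e : (x : ℂ) * (dg η l x : ℂ) = x * (x + l) + η ^ 2 / 4 := by
    unfold dg
    push_cast
    field_simp
  apply mul_left_cancel₀ hx'
  linear_combination co a x * e + x * h1 - (I * η / 2) * h2 + (η ^ 2 / 4 * co a x) * I_sq

theorem exp_int (ν : ℝ) (k : ℤ) : exp (2 * π * I * ((k + ν : ℝ) : ℂ)) = exp (2 * π * I * ν) := by
  push_cast
  rw [mul_add, exp_add, show 2 * π * I * (k : ℂ) = k * (2 * π * I) by ring,
    exp_int_mul_two_pi_mul_I, one_mul]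

theorem zero_of_co {ν : ℝ} (hf : Continuous f)
    (hp : ∀ τ, f (τ + 2 * π) = exp (2 * π * I * ν) * f τ) (h0 : ∀ k : ℤ, co f (k + ν) = 0) :
    f 0 = 0 := by
  have hco : ∀ k : ℤ, co (fun τ : ℝ => exp (-I * ν * τ) * f τ) k = 0 := by
    intro k
    rw [← h0 k]
    unfold co
    congr 2
    ext τ
    rw [← mul_assoc, ← exp_add]
    congr 2
    push_cast; ring
  have h := hasSum_co (f := fun τ : ℝ => exp (-I * ν * τ) * f τ) (by fun_prop) (by
    intro τ
    simp only [hp]
    rw [← mul_assoc, ← exp_add]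
    congr 2
    push_cast; ring) (by simp only [hco]; exact summable_zero) 0
  simp only [hco, zero_mul] at h
  have := h.unique hasSum_zero
  simpa using this

theorem two_sided {p : ℤ → ℂ} {d : ℤ → ℂ} {c : ℂ} (hc : c ≠ 0)
    (h : ∀ k, d k * p k + c * (p (k - 1) + p (k + 1)) = 0) (h0 : p 0 = 0) (h1 : p 1 = 0) (k : ℤ) :
    p k = 0 := by
  have : ∀ k : ℤ, p k = 0 ∧ p (k + 1) = 0 := by
    intro k
    induction k using Int.induction_on with
    | zero => exact ⟨h0, by simpa using h1⟩
    | succ n ih =>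
      refine ⟨ih.2, ?_⟩
      have := h (n + 1)
      rw [ih.2, add_sub_cancel_right, ih.1] at this
      simpa [hc] using this
    | pred n ih =>
      refine ⟨?_, by simpa using ih.1⟩
      have := h (-n)
      rw [ih.1, ih.2] at this
      simpa [hc] using this
  exact (this k).1

theorem exists_ker {x y z w : ℂ} (h : x * w - y * z = 0) :
    ∃ P R : ℂ, (P ≠ 0 ∨ R ≠ 0) ∧ P * x + R * y = 0 ∧ P * z + R * w = 0 := by
  by_cases h1 : x = 0 ∧ y = 0
  · by_cases h2 : z = 0 ∧ w = 0
    · exact ⟨1, 0, Or.inl one_ne_zero, by simp [h1.1], by simp [h2.1]⟩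
    · refine ⟨w, -z, ?_, by simp [h1.1, h1.2], by ring⟩
      by_contra hn
      push Not at hn
      exact h2 ⟨by simpa using hn.2, hn.1⟩
  · refine ⟨y, -x, ?_, by ring, by linear_combination -h⟩
    by_contra hn
    push Not at hn
    exact h1 ⟨by simpa using hn.2, hn.1⟩

/-- a scalar monodromy is the identity -/
theorem nu_zero (hs : s ≠ 0) (h : IsLin η l s a b) (h' : IsLin η l s a' b')
    (hind : a 0 * b' 0 - b 0 * a' 0 ≠ 0) {ν : ℝ} (hν : 0 ≤ ν) (hν1 : ν < 1)
    (ha : a (2 * π) = exp (2 * π * I * ν) * a 0) (hb : b (2 * π) = exp (2 * π * I * ν) * b 0)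
    (ha' : a' (2 * π) = exp (2 * π * I * ν) * a' 0) (hb' : b' (2 * π) = exp (2 * π * I * ν) * b' 0) :
    ν = 0 := by
  by_contra hne
  have hν0 : 0 < ν := lt_of_le_of_ne hν (Ne.symm hne)
  have hk : ∀ k : ℤ, (k + ν : ℝ) ≠ 0 := by
    intro k hk
    have h1 : (-1 : ℝ) < k := by linarith
    have h2 : (k : ℝ) < 0 := by linarith
    have h3 : (-1 : ℤ) < k := by exact_mod_cast h1
    have h4 : k < 0 := by exact_mod_cast h2
    omega
  have hs' : (s / 2 : ℂ) ≠ 0 := by
    have : (s : ℂ) ≠ 0 := by exact_mod_cast hs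
    simp [this]
  have hrec : ∀ {a b : ℝ → ℂ}, IsLin η l s a b → a (2 * π) = exp (2 * π * I * ν) * a 0 →
      b (2 * π) = exp (2 * π * I * ν) * b 0 → ∀ k : ℤ, dg η l (k + ν) * co a (k + ν)
        + s / 2 * (co a ((k - 1 : ℤ) + ν) + co a ((k + 1 : ℤ) + ν)) = 0 := by
    intro a b h ha hb k
    have := h.rec3 (x := k + ν) (by rw [exp_int]; exact ha) (by rw [exp_int]; exact hb) (hk k)
    convert this using 5 <;> push_cast <;> ring
  have r := hrec h ha hb
  have r' := hrec h' ha' hb'
  set p : ℤ → ℂ := fun k => co a (k + ν) with hp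
  set q : ℤ → ℂ := fun k => co a' (k + ν) with hq
  have hC : ∀ n : ℕ, p n * q (n + 1) - q n * p (n + 1) = p 0 * q 1 - q 0 * p 1 := by
    intro n
    induction n with
    | zero => simp
    | succ n ih =>
      rw [← ih]
      have h1 := r (n + 1)
      have h2 := r' (n + 1)
      rw [add_sub_cancel_right] at h1 h2
      apply mul_left_cancel₀ hs'
      push_cast
      simp only [hp, hq] at *
      linear_combination (co a (((n : ℤ) + 1 : ℤ) + ν)) * h2 - (co a' (((n : ℤ) + 1 : ℤ) + ν)) * h1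
  have hC0 : p 0 * q 1 - q 0 * p 1 = 0 := by
    obtain ⟨M, hM⟩ := co_bdd h.cont_a
    obtain ⟨M', hM'⟩ := co_bdd h'.cont_a
    by_contra hn
    have hpos : 0 < ‖p 0 * q 1 - q 0 * p 1‖ := norm_pos_iff.2 hn
    obtain ⟨n, hn1⟩ := exists_nat_gt (|l| + ‖(s / 2 : ℂ)‖ * (2 * (M * M')) / ‖p 0 * q 1 - q 0 * p 1‖)
    have h1 := r n
    have h2 := r' n
    have h3 : (dg η l (n + ν) : ℂ) * (p 0 * q 1 - q 0 * p 1)
        = s / 2 * (q (n - 1) * p (n + 1) - p (n - 1) * q (n + 1)) := by
      rw [← hC n]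
      simp only [hp, hq] at *
      push_cast at *
      linear_combination (co a' (n + 1 + ν)) * h1 - (co a (n + 1 + ν)) * h2
    have h4 := congrArg norm h3
    rw [norm_mul, norm_mul, norm_real, Real.norm_eq_abs] at h4
    have hM0 : 0 ≤ M := (norm_nonneg _).trans (hM 0)
    have hM0' : 0 ≤ M' := (norm_nonneg _).trans (hM' 0)
    have h5 : ‖q (n - 1) * p (n + 1) - p (n - 1) * q (n + 1)‖ ≤ 2 * (M * M') := by
      refine (norm_sub_le _ _).trans ?_
      rw [norm_mul, norm_mul]
      have k1 : ‖q (n - 1)‖ * ‖p (n + 1)‖ ≤ M' * M :=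
        mul_le_mul (hM' _) (hM _) (norm_nonneg _) hM0'
      have k2 : ‖p (n - 1)‖ * ‖q (n + 1)‖ ≤ M * M' :=
        mul_le_mul (hM _) (hM' _) (norm_nonneg _) hM0
      linarith
    have h6 : (n : ℝ) - |l| ≤ |dg η l (n + ν)| := by
      refine le_trans ?_ (le_abs_self _)
      unfold dg
      have : 0 ≤ η ^ 2 / (4 * (n + ν)) := by positivity
      linarith [neg_abs_le l]
    have h7 : ‖(s / 2 : ℂ)‖ * (2 * (M * M')) / ‖p 0 * q 1 - q 0 * p 1‖ < |dg η l (n + ν)| := by
      linarith
    rw [div_lt_iff₀ hpos, h4] at h7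
    have := mul_le_mul_of_nonneg_left h5 (norm_nonneg (s / 2 : ℂ))
    linarith
  obtain ⟨P, R, hPR, e0, e1⟩ := exists_ker hC0
  have hy := h.comb h' P R
  have hya : P * a (2 * π) + R * a' (2 * π) = exp (2 * π * I * ν) * (P * a 0 + R * a' 0) := by
    rw [ha, ha']; ring
  have hyb : P * b (2 * π) + R * b' (2 * π) = exp (2 * π * I * ν) * (P * b 0 + R * b' 0) := by
    rw [hb, hb']; ring
  have hz : ∀ k : ℤ, co (fun τ => P * a τ + R * a' τ) (k + ν) = 0 := by
    apply two_sided hs' (hrec hy hya hyb)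
    · rw [co_comb h.cont_a h'.cont_a]; exact e0
    · rw [co_comb h.cont_a h'.cont_a]; exact e1
  have hzb : ∀ k : ℤ, co (fun τ => P * b τ + R * b' τ) (k + ν) = 0 := by
    intro k
    have := hy.rec2 (x := k + ν) (by rw [exp_int]; exact hyb)
    rw [hz, mul_zero] at this
    refine (mul_eq_zero.1 this).resolve_left ?_
    exact_mod_cast hk k
  have z1 := zero_of_co hy.cont_a (fun τ => (hy.quasi hya hyb τ).1) hz
  have z2 := zero_of_co hy.cont_b (fun τ => (hy.quasi hya hyb τ).2) hzb
  rcases hPR with hP | hR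
  · apply hind
    apply mul_left_cancel₀ hP
    linear_combination b' 0 * z1 - a' 0 * z2
  · apply hind
    apply mul_left_cancel₀ hR
    linear_combination a 0 * z2 - b 0 * z1

end Pool.Agent.H364Z
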