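import Pool.Agent.H24R2.JP.Had

set_option autoImplicit false

open Set Filter Topology Complex Polynomial ComplexConjugate

namespace Pool.Agent.H364Z

theorem lin_three {x y a b : ℝ} (ha : 0 ≤ a) (hb : 0 ≤ b) (hab : a + b = 1) (hxy : x ≤ y) {r : ℂ}
    (h1 : r.im = 0) (h2 : r.re ∉ Icc x y) :
    ‖(x : ℂ) - r‖ ^ a * ‖(y : ℂ) - r‖ ^ b ≤ ‖((a * x + b * y : ℝ) : ℂ) - r‖ := by
  have e : r = (r.re : ℂ) := by apply Complex.ext <;> simp [h1]
  rw [e, ← ofReal_sub, ← ofReal_sub, ← ofReal_sub, norm_real, norm_real, norm_real,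
    Real.norm_eq_abs, Real.norm_eq_abs, Real.norm_eq_abs]
  refine (Real.geom_mean_le_arith_mean2_weighted ha hb (abs_nonneg _) (abs_nonneg _) hab).trans ?_
  have e2 : a * x + b * y - r.re = a * (x - r.re) + b * (y - r.re) := by
    linear_combination r.re * hab
  rw [e2]
  by_cases h : r.re < x
  · rw [abs_of_pos (by linarith), abs_of_pos (by linarith)]
    exact le_abs_self _
  · have : y < r.re := by
      by_contra hn
      exact h2 ⟨not_lt.1 h, not_lt.1 hn⟩
    rw [abs_of_neg (by linarith), abs_of_neg (by linarith)]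
    refine le_trans (le_of_eq ?_) (neg_le_abs _)
    ring

theorem poly_three {x y a b : ℝ} (ha : 0 ≤ a) (hb : 0 ≤ b) (hab : a + b = 1) (hxy : x ≤ y)
    (Q : ℂ[X]) (h : ∀ r, Q.eval r = 0 → r.im = 0 ∧ r.re ∉ Icc x y) :
    ‖Q.eval (x : ℂ)‖ ^ a * ‖Q.eval (y : ℂ)‖ ^ b ≤ ‖Q.eval ((a * x + b * y : ℝ) : ℂ)‖ := by
  have key : ∀ S : Multiset ℂ, (∀ r ∈ S, r.im = 0 ∧ r.re ∉ Icc x y) →
      ‖((S.map fun r => X - C r).prod).eval (x : ℂ)‖ ^ a
        * ‖((S.map fun r => X - C r).prod).eval (y : ℂ)‖ ^ b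
        ≤ ‖((S.map fun r => X - C r).prod).eval ((a * x + b * y : ℝ) : ℂ)‖ := by
    intro S
    induction S using Multiset.induction_on with
    | empty => simp
    | cons r S ih =>
      intro hS
      have h1 := hS r (Multiset.mem_cons_self _ _)
      have h2 := ih fun r hr => hS r (Multiset.mem_cons_of_mem hr)
      simp only [Multiset.map_cons, Multiset.prod_cons, eval_mul, eval_sub, eval_X, eval_C,
        norm_mul]
      rw [Real.mul_rpow (norm_nonneg _) (norm_nonneg _),
        Real.mul_rpow (norm_nonneg _) (norm_nonneg _), mul_mul_mul_comm]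
      exact mul_le_mul (lin_three ha hb hab hxy h1.1 h1.2) h2 (by positivity) (norm_nonneg _)
  have h2 := key Q.roots fun r hr => h r (isRoot_of_mem_roots hr)
  rw [← C_leadingCoeff_mul_prod_multiset_X_sub_C (p := Q) IsAlgClosed.card_roots_eq_natDegree]
  simp only [eval_mul, eval_C, norm_mul]
  rw [Real.mul_rpow (norm_nonneg _) (norm_nonneg _),
    Real.mul_rpow (norm_nonneg _) (norm_nonneg _), mul_mul_mul_comm,
    ← Real.rpow_add' (norm_nonneg _) (by rw [hab]; exact one_ne_zero), hab, Real.rpow_one]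
  exact mul_le_mul_of_nonneg_left h2 (norm_nonneg _)

/-- logarithmic concavity of a real entire function of small order with real zeros -/
theorem entire_three {f : ℂ → ℂ} {K : ℝ} (hf : Differentiable ℂ f)
    (hs : ∀ z, f (conj z) = conj (f z)) (hK : 0 ≤ K)
    (hb : ∀ z, ‖f z‖ ≤ Real.exp (K * √(1 + ‖z‖))) (hz : ∀ z, f z = 0 → z.im = 0)
    {x y a b : ℝ} (ha : 0 ≤ a) (hb' : 0 ≤ b) (hab : a + b = 1) (hxy : x ≤ y)
    (hn : ∀ t ∈ Icc x y, f t ≠ 0) :
    ‖f x‖ ^ a * ‖f y‖ ^ b ≤ ‖f ((a * x + b * y : ℝ) : ℂ)‖ := by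
  obtain ⟨P, h1, h2⟩ := H24R2.JP.had (fun z => f (z + x)) (K * √(1 + |x|)) (by fun_prop)
    (by simpa using hn x ⟨le_rfl, hxy⟩) (fun z => by rw [← hs]; simp) (fun z => by
      refine (hb _).trans (Real.exp_le_exp.2 ?_)
      rw [mul_assoc]
      refine mul_le_mul_of_nonneg_left ?_ hK
      have k1 : 1 + ‖z + x‖ ≤ (1 + |x|) * (1 + ‖z‖) := by
        have := norm_add_le z x
        rw [norm_real, Real.norm_eq_abs] at this
        nlinarith [abs_nonneg x, norm_nonneg z]
      refine (Real.sqrt_le_sqrt k1).trans ?_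
      rw [Real.sqrt_mul (by positivity), Real.sqrt_eq_rpow (1 + ‖z‖)]
      exact mul_le_mul_of_nonneg_left (Real.rpow_le_rpow_of_exponent_le
        (by linarith [norm_nonneg z]) (by norm_num)) (Real.sqrt_nonneg _))
  have lim : ∀ t : ℝ, Tendsto (fun N => ‖aeval ((t - x : ℝ) : ℂ) (P N)‖) atTop (𝓝 ‖f t‖) := by
    intro t
    have := ((h2.tendstoLocallyUniformlyOn (s := univ)).tendsto_at
      (mem_univ ((t - x : ℝ) : ℂ))).norm
    simpa using this
  refine le_of_tendsto_of_tendsto' (((lim x).rpow_const (Or.inr ha)).mul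
    ((lim y).rpow_const (Or.inr hb'))) (lim _) fun N => ?_
  have := poly_three ha hb' hab (x := x - x) (y := y - x) (by linarith)
    ((P N).map (algebraMap ℝ ℂ)) fun r hr => by
      rw [eval_map_algebraMap] at hr
      have h3 := h1 N r hr
      have h4 := hz _ h3
      simp only [add_im, ofReal_im, add_zero] at h4
      refine ⟨h4, fun h5 => hn (r.re + x) ⟨by linarith [h5.1], by linarith [h5.2]⟩ ?_⟩
      rw [← h3]
      congr 1
      apply Complex.ext <;> simp [h4]
  simp only [eval_map_algebraMap] at this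
  rw [show a * x + b * y - x = a * (x - x) + b * (y - x) by linear_combination x * hab]
  exact this

end Pool.Agent.H364Z
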