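import Pool.Agent.H364Z.Rot

set_option autoImplicit false

open Set Filter Topology Complex ComplexConjugate
open scoped Real

namespace Pool.Agent.H364Z

variable {η l s : ℝ} {φ ψ : ℝ → ℝ} {a b a' b' : ℝ → ℂ}

/-- the linear system whose projectivisation is the equation on the torus -/
def IsLin (η l s : ℝ) (a b : ℝ → ℂ) : Prop :=
  ∀ τ : ℝ, HasDerivAt a (-I * ((l + s * Real.cos τ : ℝ) : ℂ) * a τ + η / 2 * b τ) τ ∧
    HasDerivAt b (η / 2 * a τ) τ

theorem IsLin.cont_a (h : IsLin η l s a b) : Continuous a :=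
  continuous_iff_continuousAt.2 fun t => (h t).1.continuousAt

theorem IsLin.cont_b (h : IsLin η l s a b) : Continuous b :=
  continuous_iff_continuousAt.2 fun t => (h t).2.continuousAt

theorem IsLin.comb (h : IsLin η l s a b) (h' : IsLin η l s a' b') (P R : ℂ) :
    IsLin η l s (fun τ => P * a τ + R * a' τ) (fun τ => P * b τ + R * b' τ) := by
  intro τ
  refine ⟨(((h τ).1.const_mul P).add ((h' τ).1.const_mul R)).congr_deriv ?_,
    (((h τ).2.const_mul P).add ((h' τ).2.const_mul R)).congr_deriv ?_⟩ <;> ring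

theorem IsLin.smul (h : IsLin η l s a b) (P : ℂ) :
    IsLin η l s (fun τ => P * a τ) (fun τ => P * b τ) := by
  intro τ
  refine ⟨((h τ).1.const_mul P).congr_deriv ?_, ((h τ).2.const_mul P).congr_deriv ?_⟩ <;> ring

theorem hasDerivAt_conj {f : ℝ → ℂ} {f' : ℂ} {τ : ℝ} (h : HasDerivAt f f' τ) :
    HasDerivAt (fun τ => conj (f τ)) (conj f') τ := h.star

theorem IsLin.W (h : IsLin η l s a b) (h' : IsLin η l s a' b') (τ t₀ : ℝ) :
    a τ * conj (a' τ) - b τ * conj (b' τ) = a t₀ * conj (a' t₀) - b t₀ * conj (b' t₀) := by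
  have hd : ∀ τ, HasDerivAt (fun τ => a τ * conj (a' τ) - b τ * conj (b' τ)) 0 τ := by
    intro τ
    refine ((((h τ).1).mul (hasDerivAt_conj (h' τ).1)).sub
      (((h τ).2).mul (hasDerivAt_conj (h' τ).2))).congr_deriv ?_
    simp only [map_add, map_mul, map_neg, conj_I, conj_ofReal, map_div₀, map_ofNat]
    ring
  exact is_const_of_deriv_eq_zero (fun τ => (hd τ).differentiableAt) (fun τ => (hd τ).deriv) τ t₀

theorem IsLin.unique (h : IsLin η l s a b) (h' : IsLin η l s a' b') {t₀ : ℝ}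
    (ha : a t₀ = a' t₀) (hb : b t₀ = b' t₀) (τ : ℝ) : a τ = a' τ ∧ b τ = b' τ := by
  have hL : ∀ t : ℝ, LipschitzWith (Real.nnabs (|l| + |s| + |η|))
      (fun x : ℂ × ℂ => ((-I * ((l + s * Real.cos t : ℝ) : ℂ) * x.1 + η / 2 * x.2,
        η / 2 * x.1) : ℂ × ℂ)) := by
    intro t
    apply LipschitzWith.of_dist_le_mul
    intro x y
    have hK : (0 : ℝ) ≤ |l| + |s| + |η| := by positivity
    rw [Real.coe_nnabs, abs_of_nonneg hK, Prod.dist_eq]
    have h1 : ‖x.1 - y.1‖ ≤ dist x y := by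
      rw [← dist_eq_norm, Prod.dist_eq]; exact le_max_left _ _
    have h2 : ‖x.2 - y.2‖ ≤ dist x y := by
      rw [← dist_eq_norm, Prod.dist_eq]; exact le_max_right _ _
    have h3 : |l + s * Real.cos t| ≤ |l| + |s| := by
      refine (abs_add_le _ _).trans ?_
      rw [abs_mul]
      have := mul_le_of_le_one_right (abs_nonneg s) (Real.abs_cos_le_one t)
      linarith
    have h4 : ‖((η : ℂ) / 2)‖ ≤ |η| := by
      rw [norm_div, norm_real, Real.norm_eq_abs]
      simp only [Complex.norm_ofNat]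
      linarith [abs_nonneg η]
    have hd := dist_nonneg (x := x) (y := y)
    apply max_le
    · rw [dist_eq_norm]
      have e : -I * ((l + s * Real.cos t : ℝ) : ℂ) * x.1 + η / 2 * x.2
          - (-I * ((l + s * Real.cos t : ℝ) : ℂ) * y.1 + η / 2 * y.2)
          = -I * ((l + s * Real.cos t : ℝ) : ℂ) * (x.1 - y.1) + η / 2 * (x.2 - y.2) := by ring
      simp only [e]
      refine (norm_add_le _ _).trans ?_
      rw [norm_mul, norm_mul, norm_mul, norm_neg, norm_I, one_mul, norm_real, Real.norm_eq_abs]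
      have k1 := mul_le_mul h3 h1 (norm_nonneg _) (by positivity)
      have k2 := mul_le_mul h4 h2 (norm_nonneg _) (abs_nonneg _)
      linarith
    · rw [dist_eq_norm]
      have e : (η : ℂ) / 2 * x.1 - η / 2 * y.1 = η / 2 * (x.1 - y.1) := by ring
      simp only [e]
      rw [norm_mul]
      have k2 := mul_le_mul h4 h1 (norm_nonneg _) (abs_nonneg _)
      have : 0 ≤ (|l| + |s|) * dist x y := by positivity
      linarith
  have := ODE_solution_unique_univ (v := fun t (x : ℂ × ℂ) =>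
      ((-I * ((l + s * Real.cos t : ℝ) : ℂ) * x.1 + η / 2 * x.2, η / 2 * x.1) : ℂ × ℂ))
    (s := fun _ => univ) (t₀ := t₀) (f := fun t => (a t, b t)) (g := fun t => (a' t, b' t))
    (fun t => (hL t).lipschitzOnWith) (fun t => ⟨(h t).1.prodMk (h t).2, mem_univ _⟩)
    (fun t => ⟨(h' t).1.prodMk (h' t).2, mem_univ _⟩) (by simp [ha, hb])
  have h2 := congrFun this τ
  simpa using h2

theorem IsLin.shift (h : IsLin η l s a b) :
    IsLin η l s (fun τ => a (τ + 2 * π)) (fun τ => b (τ + 2 * π)) := by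
  intro τ
  have h1 := (h (τ + 2 * π)).1.comp_add_const τ (2 * π)
  rw [Real.cos_add_two_pi] at h1
  exact ⟨h1, (h (τ + 2 * π)).2.comp_add_const τ (2 * π)⟩

theorem IsLin.quasi (h : IsLin η l s a b) {m : ℂ} (ha : a (2 * π) = m * a 0)
    (hb : b (2 * π) = m * b 0) (τ : ℝ) : a (τ + 2 * π) = m * a τ ∧ b (τ + 2 * π) = m * b τ :=
  h.shift.unique (h.smul m) (t₀ := 0) (by simpa using ha) (by simpa using hb) τ

theorem IsLin.flip (h : IsLin η l s a b) :
    IsLin η (-l) s (fun τ => -a (π - τ)) (fun τ => b (π - τ)) := by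
  intro τ
  have h1 := ((h (π - τ)).1.comp_const_sub π τ).neg
  have h2 := (h (π - τ)).2.comp_const_sub π τ
  refine ⟨h1.congr_deriv ?_, h2.congr_deriv ?_⟩
  · rw [Real.cos_pi_sub]; push_cast; ring
  · ring

/-- the phase -/
noncomputable def th (l s τ : ℝ) : ℝ := l * τ + s * Real.sin τ

theorem th_deriv (l s τ : ℝ) : HasDerivAt (th l s) (l + s * Real.cos τ) τ := by
  refine (((hasDerivAt_id τ).const_mul l).add ((Real.hasDerivAt_sin τ).const_mul s)).congr_deriv ?_
  ring

theorem IsLin.sigma (h : IsLin η l s a b) :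
    IsLin η l s (fun τ => exp (-I * th l s τ) * conj (b τ))
      (fun τ => exp (-I * th l s τ) * conj (a τ)) := by
  intro τ
  have h0 := (((th_deriv l s τ).ofReal_comp).const_mul (-I)).cexp
  refine ⟨(h0.mul (hasDerivAt_conj (h τ).2)).congr_deriv ?_,
    (h0.mul (hasDerivAt_conj (h τ).1)).congr_deriv ?_⟩
  · simp only [map_mul, conj_ofReal, map_div₀, map_ofNat]
    ring
  · simp only [map_add, map_mul, map_neg, conj_I, conj_ofReal, map_div₀, map_ofNat]
    ring

/-- the lift of a solution on the torus -/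
noncomputable def la (η l s : ℝ) (φ : ℝ → ℝ) (τ : ℝ) : ℂ :=
  exp (((η / 2 * Cs φ τ : ℝ) : ℂ) - I * ((th l s τ + φ τ - φ 0) / 2 : ℝ))

noncomputable def lb (η l s : ℝ) (φ : ℝ → ℝ) (τ : ℝ) : ℂ := exp (I * φ τ) * la η l s φ τ

theorem la_zero (η l s : ℝ) (φ : ℝ → ℝ) : la η l s φ 0 = 1 := by simp [la, th]

theorem lb_zero (η l s : ℝ) (φ : ℝ → ℝ) : lb η l s φ 0 = exp (I * φ 0) := by simp [lb, la_zero]

theorem la_ne (η l s : ℝ) (φ : ℝ → ℝ) (τ : ℝ) : la η l s φ τ ≠ 0 := exp_ne_zero _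

theorem exp_I_mul (x : ℝ) : exp (I * x) = Real.cos x + Real.sin x * I := by
  rw [mul_comm, exp_mul_I]; simp

theorem exp_I_mul_conj (x : ℝ) : exp (I * x) * conj (exp (I * x)) = 1 := by
  rw [← exp_conj, ← exp_add]; simp

theorem IsSol.lin (hφ : IsSol η l s φ) : IsLin η l s (la η l s φ) (lb η l s φ) := by
  intro τ
  have h1 := ((Cs_deriv hφ.continuous τ).const_mul (η / 2)).ofReal_comp
  have h2 := ((((th_deriv l s τ).add (hφ τ)).sub_const (φ 0)).div_const 2).ofReal_comp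
  have h3 : HasDerivAt (la η l s φ)
      (-I * ((l + s * Real.cos τ : ℝ) : ℂ) * la η l s φ τ + η / 2 * lb η l s φ τ) τ := by
    refine ((h1.sub (h2.const_mul I)).cexp).congr_deriv ?_
    change la η l s φ τ * _ = _
    rw [lb, exp_I_mul]
    push_cast
    ring
  refine ⟨h3, ?_⟩
  have h4 := (((hφ τ).ofReal_comp).const_mul I).cexp
  refine (h4.mul h3).congr_deriv ?_
  rw [lb, exp_I_mul]
  have e : (Real.cos (φ τ) : ℂ) ^ 2 + (Real.sin (φ τ) : ℂ) ^ 2 = 1 := by
    exact_mod_cast Real.cos_sq_add_sin_sq (φ τ)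
  simp only [ofReal_sub, ofReal_mul, ofReal_add]
  linear_combination (η / 2 * la η l s φ τ) * e
    - (η / 2 * la η l s φ τ * (Real.sin (φ τ) : ℂ) ^ 2) * I_sq

theorem la_normSq (η l s : ℝ) (φ : ℝ → ℝ) (τ : ℝ) :
    la η l s φ τ * conj (la η l s φ τ) = (Real.exp (η * Cs φ τ) : ℝ) := by
  rw [la, ← exp_conj, ← exp_add]
  simp only [map_sub, map_mul, conj_ofReal, conj_I]
  push_cast
  congr 1
  ring

theorem lb_normSq (η l s : ℝ) (φ : ℝ → ℝ) (τ : ℝ) :
    lb η l s φ τ * conj (lb η l s φ τ) = (Real.exp (η * Cs φ τ) : ℝ) := by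
  rw [← la_normSq η l s φ τ, lb, map_mul]
  linear_combination (la η l s φ τ * conj (la η l s φ τ)) * exp_I_mul_conj (φ τ)

end Pool.Agent.H364Z
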