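import Pool.Agent.H364Z.Axis

set_option autoImplicit false

open Real Set Filter Topology

namespace Pool.Agent.H364Z

variable {η l s : ℝ} {φ ψ : ℝ → ℝ}

theorem D_le_of {l' s' : ℝ} (h : l + |s - s'| < l') (m : ℤ) (x : ℝ) :
    D η l s m x ≤ D η l' s' m x := by
  have hφ := sol_isSol η l s x
  have hψ := sol_isSol η l' s' x
  have := image_le_of_deriv_right_lt_deriv_boundary (f := sol η l s x)
      (f' := fun u => l + s * cos u - η * sin (sol η l s x u)) (a := 0) (b := 2 * π)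
      hφ.continuous.continuousOn
      (fun u _ => (hφ u).hasDerivWithinAt) (by simp) hψ (by
        intro u _ hu
        simp only [hu]
        have h1 : |(s - s') * cos u| ≤ |s - s'| := by
          rw [abs_mul]; exact mul_le_of_le_one_right (abs_nonneg _) (abs_cos_le_one _)
        have h2 := le_abs_self ((s - s') * cos u)
        linarith) two_pi_mem
  unfold D
  linarith

theorem exists_D_nonpos {m : ℤ} (hη : 0 < η) (hm : 0 ≤ m) (hs : 0 ≤ s) :
    ∃ x, D η m s m x ≤ 0 := by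
  rcases hm.lt_or_eq with hm | hm
  · obtain ⟨t, -, -, h1, -, h2, h3⟩ := axis hη (m := m) hm
    have : Mn η m s ≤ 0 := by
      rcases lt_trichotomy s t with h | h | h
      · exact (Mn_le_Mx η m s).trans (h1 s ⟨hs, h⟩).le
      · rw [h]; exact h2.le
      · rcases h3 s h with h4 | h4
        · simp [Mn, h4]
        · exact h4.1.le
    rcases min_le_iff.1 this with h | h
    exacts [⟨_, h⟩, ⟨_, h⟩]
  · subst hm
    by_contra hn
    push Not at hn
    have hφ := sol_isSol η ((0 : ℤ) : ℝ) s 0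
    have h1 := hφ.neg.half
    simp only [Int.cast_zero, neg_zero, neg_neg] at h1 hφ hn
    have h2 := hn (-sol η 0 s 0 (0 + π))
    rw [h1.D_eq] at h2
    have h3 := hn 0
    unfold D at h3
    have h4 := hφ.lt (hφ.shift 1 0) (t₀ := 0) (by simp at h3 ⊢; linarith) π
    simp only [Int.cast_one, one_mul, Int.cast_zero, zero_mul, add_zero, zero_add, sub_zero]
      at h2 h4
    rw [add_comm π] at h4
    linarith

/-- the rotation number on and to the left of an axis -/
theorem Rot.le_axis {r : ℝ} {m : ℤ} (hη : 0 < η) (h : Rot η l s r) (hm : 0 ≤ m) (hl : l ≤ m) :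
    r ≤ m := by
  wlog hs : 0 ≤ s generalizing s
  · exact this h.half (by linarith)
  obtain ⟨x, hx⟩ := exists_D_nonpos hη hm hs
  exact h.le_of_D ((D_le_of_le hl m x).trans hx)

theorem all_of_slice {m : ℤ} (h : ∀ l', Rot η l' s m → l' = l) (x : ℝ) : D η l s m x = 0 := by
  obtain ⟨l', hl'⟩ := exists_l η s m x
  rw [← h l' (rot_of_D hl')]
  exact hl'

theorem slice_of_all {m : ℤ} (h : ∀ x, D η l s m x = 0) (l' : ℝ) : Rot η l' s m ↔ l' = l := by
  refine ⟨fun h1 => ?_, fun h1 => by rw [h1]; exact rot_of_D (h 0)⟩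
  obtain ⟨x, hx⟩ := rot_iff_D.1 h1
  rcases lt_trichotomy l' l with h2 | h2 | h2
  · have := D_lt_of_lt (η := η) (s := s) h2 m x
    rw [hx, h] at this
    exact absurd this (lt_irrefl _)
  · exact h2
  · have := D_lt_of_lt (η := η) (s := s) h2 m x
    rw [hx, h] at this
    exact absurd this (lt_irrefl _)

theorem F_cont (η : ℝ) (m : ℤ) :
    Continuous fun p : ℝ × ℝ => D η p.1 p.2 m (π / 2) * D η p.1 p.2 m (-(π / 2)) :=
  (D_cont continuous_const continuous_fst continuous_snd continuous_const m).mul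
    (D_cont continuous_const continuous_fst continuous_snd continuous_const m)

theorem rot_closed (η : ℝ) (m : ℤ) : IsClosed {p : ℝ × ℝ | Rot η p.1 p.2 m} := by
  simp only [rot_iff_crit]
  exact isClosed_le (F_cont η m) continuous_const

theorem mul_of_M {a b : ℝ} (h1 : min a b < 0) (h2 : 0 < max a b) : a * b < 0 := by
  rcases le_total a b with h | h
  · rw [min_eq_left h] at h1; rw [max_eq_right h] at h2; exact mul_neg_of_neg_of_pos h1 h2
  · rw [min_eq_right h] at h1; rw [max_eq_left h] at h2; exact mul_neg_of_pos_of_neg h2 h1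

theorem axis_pos {m : ℤ} (hη : 0 < η) (hm : 1 ≤ m) : ∃ t, 0 < t ∧
    (∀ s ∈ Ico 0 t, ¬ Rot η m s m) ∧ Rot η m t m ∧ (∃ l : ℝ, l ≠ m ∧ Rot η l t m) ∧
    ∀ s, t < s → (∀ l, Rot η l s m ↔ l = m) ∨ ∀ᶠ p : ℝ × ℝ in 𝓝 ((m : ℝ), s), Rot η p.1 p.2 m := by
  obtain ⟨t, t0, -, h1, h2, h3, h4⟩ := axis hη hm
  refine ⟨t, t0, fun s hs => ?_, ?_, ?_, fun s hs => ?_⟩
  · rw [rot_iff_crit, not_le]
    have := max_lt_iff.1 (h1 s hs)
    exact mul_pos_of_neg_of_neg this.1 this.2
  · unfold Mx at h2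
    rcases max_choice (D η m t m (π / 2)) (D η m t m (-(π / 2))) with h | h <;> rw [h] at h2 <;>
      exact rot_of_D h2
  · by_contra hn
    push Not at hn
    have := all_of_slice (l := m) (fun l' hl' => by_contra fun h => hn l' h hl')
    simp [Mn, this] at h3
  · rcases h4 s hs with h | h
    · exact Or.inl (slice_of_all h)
    · right
      have := ((F_cont η m).tendsto ((m : ℝ), s)).eventually (gt_mem_nhds (mul_of_M h.1 h.2))
      filter_upwards [this] with p hp
      exact rot_iff_crit.2 hp.le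

theorem rot_neg' {m : ℤ} : Rot η (-l) s ((-m : ℤ) : ℝ) ↔ Rot η l s m := by
  rw [Int.cast_neg, rot_neg_iff]

theorem axis_all {m : ℤ} (hη : 0 < η) (hm : m ≠ 0) : ∃ t, 0 < t ∧
    (∀ s ∈ Ico 0 t, ¬ Rot η m s m) ∧ Rot η m t m ∧ (∃ l : ℝ, l ≠ m ∧ Rot η l t m) ∧
    ∀ s, t < s → (∀ l, Rot η l s m ↔ l = m) ∨ ∀ᶠ p : ℝ × ℝ in 𝓝 ((m : ℝ), s), Rot η p.1 p.2 m := by
  rcases hm.lt_or_gt with h | h
  swap
  · exact axis_pos hη h
  obtain ⟨t, t0, h1, h2, ⟨l, h3, h4⟩, h5⟩ := axis_pos hη (m := -m) (by omega)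
  push_cast at h1 h2 h3 h4 h5
  refine ⟨t, t0, fun s hs => by rw [← rot_neg_iff]; exact h1 s hs, rot_neg_iff.1 h2,
    ⟨-l, fun h => h3 (by linarith), by rw [← rot_neg_iff, neg_neg]; exact h4⟩, fun s hs => ?_⟩
  rcases h5 s hs with h6 | h6
  · left
    intro l
    rw [← rot_neg_iff, h6, neg_inj]
  · right
    have hc : Continuous fun p : ℝ × ℝ => (-p.1, p.2) := by fun_prop
    filter_upwards [(hc.tendsto ((m : ℝ), s)).eventually h6] with p hp
    exact rot_neg_iff.1 hp

/-- constrictions lie above the level `η` -/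
theorem slice_high {m : ℤ} (hη : 0 < η) (hs : 0 < s) (h : ∀ l', Rot η l' s m → l' = l) : η ≤ s := by
  rcases le_total 0 l with hl | hl
  · linarith [(constr hη hs hl (all_of_slice h)).2.1]
  · have : ∀ l', Rot η l' s ((-m : ℤ) : ℝ) → l' = -l := by
      intro l' h1
      rw [← neg_neg l', rot_neg'] at h1
      linarith [h _ h1]
    linarith [(constr hη hs (by linarith) (all_of_slice this)).2.1]

theorem Rot.le_high {r : ℤ} (hη : 0 < η) (hs : η ≤ s) (h : Rot η l s r) :
    l ≤ 2 * (|(r : ℝ)| + 1) := by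
  by_contra hn
  push Not at hn
  have hm : 1 ≤ |r| + 1 := by linarith [abs_nonneg r]
  obtain ⟨t, -, t1, -, -, -, h4⟩ := axis hη hm
  set m := |r| + 1 with hmd
  have hm' : (m : ℝ) = |(r : ℝ)| + 1 := by rw [hmd]; push_cast; ring
  have h1 : 0 ≤ Mx η m (max s (m + η)) := by
    rcases h4 _ (t1.trans_le (le_max_right s _)) with h | h
    · simp [Mx, h]
    · exact h.2.le
  have h2 : m + |max s (m + η) - s| < l := by
    have : |max s (m + η) - s| ≤ m := by
      rw [abs_of_nonneg (sub_nonneg.2 (le_max_left _ _)), sub_le_iff_le_add]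
      have := abs_nonneg (r : ℝ)
      exact max_le (by linarith) (by linarith)
    linarith
  have h3 : ∃ x, 0 ≤ D η m (max s (m + η)) m x := by
    rcases le_max_iff.1 h1 with h | h
    exacts [⟨_, h⟩, ⟨_, h⟩]
  obtain ⟨x, hx⟩ := h3
  have := h.ge_of_D (hx.trans (D_le_of h2 m x))
  linarith [le_abs_self (r : ℝ)]

theorem Rot.abs_high {r : ℤ} (hη : 0 < η) (hs : η ≤ s) (h : Rot η l s r) :
    |l| ≤ 2 * (|(r : ℝ)| + 1) := by
  have h1 := h.le_high hη hs
  have h2 := (rot_neg'.2 h).le_high hη hs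
  rw [Int.cast_neg, abs_neg] at h2
  exact _root_.abs_le.2 ⟨by linarith, h1⟩

theorem bq_pos (hφ : IsSol η l s φ) : 0 < bq η φ := by
  have := Cs_cont hφ.continuous
  exact intervalIntegral.intervalIntegral_pos_of_pos
    (Continuous.intervalIntegrable (by fun_prop) _ _) (fun _ => exp_pos _) (by positivity)

/-- at a constriction the phase-lock area contains points outside a cone around the axis -/
theorem cone {m : ℤ} (hη : 0 < η) (hs : 0 < s) (hl : 0 ≤ l) (h : ∀ x, D η l s m x = 0) :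
    ∃ ε > 0, ∀ᶠ s' in 𝓝[≠] s, ∃ l', Rot η l' s' m ∧ ε * |s' - s| ≤ |l' - l| := by
  obtain ⟨-, -, h3⟩ := constr hη hs hl h
  have hc : 0 < |cq η (fp η l s)| := abs_pos.2 (left_ne_zero_of_mul h3.ne)
  have hb := bq_pos (sol_isSol η l s (π / 2))
  obtain ⟨C, hC0, hC⟩ := D_pert η l s m (π / 2)
  rw [Cs_sym_zero sym_p (h _), h] at hC
  simp only [mul_zero, exp_zero, sub_zero, one_mul] at hC
  set c := cq η (fp η l s)
  set b := bq η (fp η l s)
  refine ⟨min 1 (|c| / (2 * b)), by positivity, ?_⟩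
  have e1 : ∀ᶠ s' in 𝓝 s, |s' - s| < |c| / (8 * C) := by
    have : Tendsto (fun s' => |s' - s|) (𝓝 s) (𝓝 0) := by
      have : Continuous fun s' => |s' - s| := by fun_prop
      simpa using this.tendsto s
    exact this.eventually (gt_mem_nhds (by positivity))
  filter_upwards [e1.filter_mono nhdsWithin_le_nhds, self_mem_nhdsWithin] with s' h1 h2
  obtain ⟨l', hl'⟩ := exists_l η s' m (π / 2)
  refine ⟨l', rot_of_D hl', ?_⟩
  by_contra hn
  push Not at hn
  have h4 := hC l' s'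
  rw [hl'] at h4
  have hδ : 0 < |s' - s| := abs_pos.2 (sub_ne_zero.2 h2)
  rw [lt_div_iff₀ (by positivity)] at h1
  have k1 : |l' - l| ≤ |s' - s| := by
    have := mul_le_mul_of_nonneg_right (min_le_left 1 (|c| / (2 * b))) hδ.le
    linarith
  have k2 : |l' - l| * b ≤ |c| / 2 * |s' - s| := by
    have := mul_le_mul_of_nonneg_right (min_le_right 1 (|c| / (2 * b))) hδ.le
    have h5 := mul_le_mul_of_nonneg_right (hn.le.trans this) hb.le
    refine h5.trans (le_of_eq ?_)
    field_simp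
  have k3 : |s' - s| * |c| ≤ |0 - (l' - l) * b - (s' - s) * c| + |l' - l| * b := by
    rw [← abs_mul, ← abs_of_pos hb, ← abs_mul, abs_of_pos hb]
    have := abs_add_le (0 - (l' - l) * b - (s' - s) * c) ((l' - l) * b)
    rw [show 0 - (l' - l) * b - (s' - s) * c + (l' - l) * b = -((s' - s) * c) by ring,
      abs_neg] at this
    exact this
  have k4 : (|l' - l| + |s' - s|) ^ 2 ≤ (2 * |s' - s|) ^ 2 :=
    pow_le_pow_left₀ (by positivity) (by linarith) 2
  have k5 := mul_le_mul_of_nonneg_left k4 hC0.le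
  nlinarith

/-! conversion to the original time and parameters -/

variable {ω B A : ℝ}

theorem conv_sol (hω : 0 < ω)
    (h : ∀ t, HasDerivAt φ (-sin (φ t) + B + A * cos (ω * t)) t) :
    IsSol ω⁻¹ (B / ω) (A / ω) (fun τ => φ (τ / ω)) := by
  intro τ
  refine ((h (τ / ω)).comp τ ((hasDerivAt_id τ).div_const ω)).congr_deriv ?_
  rw [mul_div_cancel₀ _ hω.ne']
  field_simp
  ring

theorem conv_sol' (hω : 0 < ω) (h : IsSol ω⁻¹ (B / ω) (A / ω) φ) (t : ℝ) :
    HasDerivAt (fun t => φ (ω * t)) (-sin (φ (ω * t)) + B + A * cos (ω * t)) t := by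
  refine ((h (ω * t)).comp t ((hasDerivAt_id t).const_mul ω)).congr_deriv ?_
  field_simp
  ring

theorem conv_lim (hω : 0 < ω) {r : ℝ} :
    Tendsto (fun τ => φ (τ / ω) / τ) atTop (𝓝 r) ↔ Tendsto (fun t => φ t / (ω * t)) atTop (𝓝 r) := by
  constructor
  · intro h
    refine (h.comp (tendsto_id.const_mul_atTop hω)).congr fun t => ?_
    simp only [Function.comp, id]
    rw [mul_div_cancel_left₀ _ hω.ne']
  · intro h
    refine (h.comp (tendsto_id.atTop_div_const hω)).congr fun t => ?_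
    simp only [Function.comp, id]
    rw [mul_div_cancel₀ _ hω.ne']

theorem conv_lim2 (hω : 0 < ω) {r : ℝ} :
    Tendsto (fun t => φ t / t) atTop (𝓝 (r * ω)) ↔ Tendsto (fun t => φ t / (ω * t)) atTop (𝓝 r) := by
  constructor
  · intro h
    have := h.div_const ω
    rw [mul_div_cancel_right₀ _ hω.ne'] at this
    exact this.congr fun t => by rw [div_div, mul_comm]
  · intro h
    refine (h.mul_const ω).congr fun t => ?_
    rw [mul_comm ω, ← div_div, div_mul_cancel₀ _ hω.ne']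

theorem rot_ex (hω : 0 < ω) {r : ℝ} :
    (∃ φ : ℝ → ℝ, (∀ t, HasDerivAt φ (-sin (φ t) + B + A * cos (ω * t)) t) ∧
      Tendsto (fun t => φ t / (ω * t)) atTop (𝓝 r)) ↔ Rot ω⁻¹ (B / ω) (A / ω) r := by
  constructor
  · rintro ⟨φ, h1, h2⟩
    exact ⟨_, conv_sol hω h1, (conv_lim hω).2 h2⟩
  · rintro ⟨φ, h1, h2⟩
    refine ⟨_, conv_sol' hω h1, (conv_lim hω).1 ?_⟩
    simpa only [mul_div_cancel₀ _ hω.ne'] using h2

theorem rot_fa (hω : 0 < ω) {r : ℝ} :
    (∀ φ : ℝ → ℝ, (∀ t, HasDerivAt φ (-sin (φ t) + B + A * cos (ω * t)) t) →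
      Tendsto (fun t => φ t / (ω * t)) atTop (𝓝 r)) ↔ Rot ω⁻¹ (B / ω) (A / ω) r := by
  constructor
  · intro h
    have h1 := conv_sol' hω (sol_isSol ω⁻¹ (B / ω) (A / ω) 0)
    exact (rot_ex hω).1 ⟨_, h1, h _ h1⟩
  · intro h φ h1
    exact (conv_lim hω).1 (h.all (conv_sol hω h1))

/-- the phase-lock area in the original parameters -/
def Area (ω : ℝ) (r : ℤ) : Set (ℝ × ℝ) := {p | Rot ω⁻¹ (p.1 / ω) (p.2 / ω) r}

theorem area_closed (ω : ℝ) (r : ℤ) : IsClosed (Area ω r) :=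
  (rot_closed ω⁻¹ r).preimage (f := fun p : ℝ × ℝ => (p.1 / ω, p.2 / ω)) (by fun_prop)

theorem area_axis (hω : 0 < ω) {r : ℤ} (hr : r ≠ 0) : ∃ a, 0 < a ∧
    (∀ A, 0 ≤ A → ((r * ω, A) ∈ Area ω r ↔ a ≤ A)) ∧ (r * ω, a) ∈ frontier (Area ω r) ∧
    {p ∈ Area ω r | p.2 = a} ≠ {(r * ω, a)} ∧
    ∀ A, a < A → (r * ω, A) ∈ frontier (Area ω r) → {p ∈ Area ω r | p.2 = A} = {(r * ω, A)} := by
  obtain ⟨t, t0, h1, h2, ⟨l, h3, h4⟩, h5⟩ := axis_all (inv_pos.2 hω) hr
  have e : (r : ℝ) * ω / ω = r := mul_div_cancel_right₀ _ hω.ne'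
  have e2 : t * ω / ω = t := mul_div_cancel_right₀ _ hω.ne'
  have k1 : ∀ A, 0 ≤ A → ((r * ω, A) ∈ Area ω r ↔ t * ω ≤ A) := by
    intro A hA
    simp only [Area, mem_setOf_eq, e]
    rw [← le_div_iff₀ hω]
    refine ⟨fun h => not_lt.1 fun h' => h1 _ ⟨by positivity, h'⟩ h, fun h => ?_⟩
    rcases h.lt_or_eq with h | h
    · rcases h5 _ h with h | h
      · exact (h _).2 rfl
      · exact h.self_of_nhds
    · rw [← h]; exact h2
  refine ⟨t * ω, by positivity, k1, ?_, ?_, fun A hA hF => ?_⟩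
  · rw [(area_closed ω r).frontier_eq]
    refine ⟨(k1 _ (by positivity)).2 le_rfl, fun h => ?_⟩
    have hc : Continuous fun A : ℝ => ((r : ℝ) * ω, A) := by fun_prop
    have := (hc.tendsto (t * ω)).eventually (mem_interior_iff_mem_nhds.1 h)
    obtain ⟨u, hu, hu2⟩ := exists_left (a := 0) (by positivity) (this.filter_mono nhdsWithin_le_nhds)
    exact absurd ((k1 u hu.1.le).1 hu2) (not_le.2 hu.2)
  · intro h
    have : (l * ω, t * ω) ∈ {p ∈ Area ω r | p.2 = t * ω} := by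
      refine ⟨?_, rfl⟩
      simp only [Area, mem_setOf_eq, e2, mul_div_cancel_right₀ _ hω.ne']
      exact h4
    rw [h] at this
    exact h3 (mul_right_cancel₀ hω.ne' (congrArg Prod.fst this))
  · rcases h5 (A / ω) (by rwa [lt_div_iff₀ hω]) with h | h
    · ext ⟨B', A'⟩
      simp only [Area, mem_setOf_eq, mem_singleton_iff, Prod.mk.injEq]
      constructor
      · rintro ⟨a1, rfl⟩
        rw [h, div_eq_iff hω.ne'] at a1
        exact ⟨a1, rfl⟩
      · rintro ⟨rfl, rfl⟩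
        exact ⟨(h _).2 e, rfl⟩
    · exfalso
      apply hF.2
      rw [mem_interior_iff_mem_nhds]
      have hc : Continuous fun p : ℝ × ℝ => (p.1 / ω, p.2 / ω) := by fun_prop
      have := hc.tendsto ((r : ℝ) * ω, A)
      simp only [e] at this
      exact this.eventually h

end Pool.Agent.H364Z
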