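import Pool.Agent.H364Z.Ent

set_option autoImplicit false

open Set Filter Topology Complex ComplexConjugate MeasureTheory
open scoped Real

namespace Pool.Agent.H364Z

variable {η l s : ℝ} {a b a' b' : ℝ → ℂ} {φ : ℝ → ℝ}

/-- periodic solutions of the linear system -/
structure IsPer (η l s : ℝ) (a b : ℝ → ℂ) : Prop where
  lin : IsLin η l s a b
  pa : a (2 * π) = a 0
  pb : b (2 * π) = b 0

theorem exp_int0 (k : ℤ) : exp (2 * π * I * ((k : ℝ) : ℂ)) = 1 := by
  have := exp_int 0 k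
  simpa using this

theorem IsPer.per_a (h : IsPer η l s a b) : Function.Periodic a (2 * π) := fun τ => by
  simpa using (h.lin.quasi (m := 1) (by simpa using h.pa) (by simpa using h.pb) τ).1

theorem IsPer.per_b (h : IsPer η l s a b) : Function.Periodic b (2 * π) := fun τ => by
  simpa using (h.lin.quasi (m := 1) (by simpa using h.pa) (by simpa using h.pb) τ).2

theorem IsPer.comb (h : IsPer η l s a b) (h' : IsPer η l s a' b') (P R : ℂ) :
    IsPer η l s (fun τ => P * a τ + R * a' τ) (fun τ => P * b τ + R * b' τ) :=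
  ⟨h.lin.comb h'.lin P R, by simp only [h.pa, h'.pa], by simp only [h.pb, h'.pb]⟩

theorem IsPer.smul (h : IsPer η l s a b) (P : ℂ) :
    IsPer η l s (fun τ => P * a τ) (fun τ => P * b τ) :=
  ⟨h.lin.smul P, by simp only [h.pa], by simp only [h.pb]⟩

theorem IsPer.rec1 (h : IsPer η l s a b) (k : ℤ) :
    (k + l) * co a k + s / 2 * (co a (k - 1) + co a (k + 1)) = -I * (η / 2) * co b k := by
  have := h.lin.rec1 (x := k) (by rw [exp_int0, one_mul]; exact h.pa)
  simpa using this

theorem IsPer.rec2 (h : IsPer η l s a b) (k : ℤ) : k * co b k = -I * (η / 2) * co a k := by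
  have := h.lin.rec2 (x := k) (by rw [exp_int0, one_mul]; exact h.pb)
  simpa using this

theorem IsPer.rec3 (h : IsPer η l s a b) {k : ℤ} (hk : k ≠ 0) :
    dg η l k * co a k + s / 2 * (co a (k - 1) + co a (k + 1)) = 0 :=
  h.lin.rec3 (x := k) (by rw [exp_int0, one_mul]; exact h.pa)
    (by rw [exp_int0, one_mul]; exact h.pb) (by exact_mod_cast hk)

theorem IsPer.co_zero (hη : η ≠ 0) (h : IsPer η l s a b) : co a 0 = 0 := by
  have := h.rec2 0
  have hη' : (η : ℂ) ≠ 0 := by exact_mod_cast hη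
  simpa [hη'] using this

theorem IsPer.co_pos (hη : η ≠ 0) (hs : s ≠ 0) (h : IsPer η l s a b) (k : ℕ) :
    co a k = co a 1 * sh η l s k := by
  have := eq_sh (η := η) (l := l) hs (p := fun k : ℕ => co a k) (by simpa using h.co_zero hη)
    (fun k => by
      have := h.rec3 (k := (k + 1 : ℕ)) (by exact_mod_cast Nat.succ_ne_zero k)
      push_cast at this ⊢
      rw [add_sub_cancel_right, add_assoc (k : ℝ), one_add_one_eq_two] at this
      exact this) k
  simpa using this

theorem dg_neg (η l x : ℝ) : dg η l (-x) = -dg η (-l) x := by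
  unfold dg
  rw [mul_neg, div_neg]
  ring

theorem IsPer.co_neg (hη : η ≠ 0) (hs : s ≠ 0) (h : IsPer η l s a b) (k : ℕ) :
    co a (-k) = -(-1) ^ k * (co a (-1) * sh η (-l) s k) := by
  have := eq_sh (η := η) (l := -l) hs (p := fun k : ℕ => -(-1) ^ k * co a (-k))
    (by simpa using h.co_zero hη)
    (fun k => by
      have := h.rec3 (k := -(k + 1 : ℕ)) (by
        rw [neg_ne_zero]; exact_mod_cast Nat.succ_ne_zero k)
      push_cast at this ⊢
      rw [dg_neg, show -((k : ℝ) + 1) - 1 = -(k + 2) by ring,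
        show -((k : ℝ) + 1) + 1 = -k by ring] at this
      push_cast at this
      rw [pow_succ, pow_succ]
      linear_combination (-(-1) ^ k) * this) k
  simp only [pow_one, neg_neg, Nat.cast_one, one_mul] at this
  rw [← this]
  have e : ((-1 : ℂ) ^ k) * (-1) ^ k = 1 := by rw [← mul_pow]; simp
  linear_combination (-co a (-k)) * e

theorem IsPer.hardy_pos (hη : η ≠ 0) (hs : s ≠ 0) (h : IsPer η l s a b) (h1 : co a 1 ≠ 0) :
    Hardy η l s := by
  obtain ⟨M, hM⟩ := co_bdd h.lin.cont_a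
  refine ⟨M / ‖co a 1‖, fun k => ?_⟩
  have := hM k
  rw [h.co_pos hη hs, norm_mul, norm_real, Real.norm_eq_abs] at this
  rw [le_div_iff₀ (norm_pos_iff.2 h1)]
  linarith

theorem IsPer.hardy_neg (hη : η ≠ 0) (hs : s ≠ 0) (h : IsPer η l s a b) (h1 : co a (-1) ≠ 0) :
    Hardy η (-l) s := by
  obtain ⟨M, hM⟩ := co_bdd h.lin.cont_a
  refine ⟨M / ‖co a (-1)‖, fun k => ?_⟩
  have := hM (-k)
  rw [h.co_neg hη hs, norm_mul, norm_mul, norm_real, Real.norm_eq_abs] at this
  rw [le_div_iff₀ (norm_pos_iff.2 h1)]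
  simp only [norm_neg, norm_pow, norm_one, one_pow, one_mul] at this
  linarith

theorem IsPer.sum_a (hη : η ≠ 0) (hs : s ≠ 0) (h : IsPer η l s a b) :
    Summable fun k : ℤ => co a k := by
  apply Summable.of_nat_of_neg
  · simp only [Int.cast_natCast, h.co_pos hη hs]
    by_cases h1 : co a 1 = 0
    · simp only [h1, zero_mul]; exact summable_zero
    · have := (((h.hardy_pos hη hs h1).fast hs).hasSum 1).summable.mul_left (co a 1)
      simpa using this
  · simp only [Int.cast_neg, Int.cast_natCast, h.co_neg hη hs]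
    by_cases h1 : co a (-1) = 0
    · simp only [h1, zero_mul, mul_zero]; exact summable_zero
    · have := (((h.hardy_neg hη hs h1).fast hs).hasSum (-1)).summable.mul_left (-co a (-1))
      convert! this using 2 with k
      ring

theorem IsPer.sum_b (hη : η ≠ 0) (hs : s ≠ 0) (h : IsPer η l s a b) :
    Summable fun k : ℤ => co b k := by
  refine Summable.of_norm_bounded_eventually ((h.sum_a hη hs).norm.mul_left |η|) ?_
  filter_upwards [(finite_singleton (0 : ℤ)).compl_mem_cofinite] with k hk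
  have hk0 : k ≠ 0 := hk
  have h1 := congrArg norm (h.rec2 k)
  simp only [norm_mul, norm_neg, norm_I, one_mul, norm_div, norm_real, Real.norm_eq_abs,
    Complex.norm_ofNat, norm_intCast] at h1
  have h2 : (1 : ℝ) ≤ |(k : ℝ)| := by exact_mod_cast Int.one_le_abs hk0
  have h3 := norm_nonneg (co b k)
  have h4 := mul_nonneg (abs_nonneg η) (norm_nonneg (co a k))
  nlinarith

theorem IsPer.cob_zero (hη : η ≠ 0) (h : IsPer η l s a b) :
    co b 0 = I * (co a 1 + co a (-1)) * (s / η : ℝ) := by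
  have h1 := h.rec1 0
  have hη' : (η : ℂ) ≠ 0 := by exact_mod_cast hη
  simp only [Int.cast_zero, h.co_zero hη, mul_zero, zero_add, zero_sub] at h1
  push_cast
  field_simp
  linear_combination (-2 * I) * h1 + (η * co b 0) * I_sq

theorem IsPer.cob_eq (h : IsPer η l s a b) {k : ℤ} (hk : k ≠ 0) :
    co b k = -I * (η / (2 * k)) * co a k := by
  have h1 := h.rec2 k
  have hk' : (k : ℂ) ≠ 0 := by exact_mod_cast hk
  field_simp
  linear_combination 2 * h1

theorem exp_nat (k : ℕ) (τ : ℝ) : exp (I * ((k : ℤ) : ℂ) * τ) = exp (I * τ) ^ k := by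
  rw [← exp_nat_mul]; congr 1; push_cast; ring

theorem exp_neg_nat (k : ℕ) (τ : ℝ) :
    exp (I * ((-(k : ℤ) : ℤ) : ℂ) * τ) = (-1) ^ k * exp (I * (π - τ : ℝ)) ^ k := by
  rw [← mul_pow, ← exp_pi_mul_I, ← exp_add, ← exp_nat_mul]
  rw [show (k : ℂ) * (π * I + I * (π - τ : ℝ)) = I * ((-(k : ℤ) : ℤ) : ℂ) * τ + k * (2 * π * I) by
    push_cast; ring, exp_add, exp_nat_mul_two_pi_mul_I, mul_one]

theorem hasSum_nat_of {f : ℤ → ℂ} {x : ℂ} (h : HasSum f x) (h0 : ∀ k : ℕ, f (-(k + 1 : ℕ)) = 0) :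
    HasSum (fun k : ℕ => f k) x := by
  refine (Function.Injective.hasSum_iff (g := fun k : ℕ => (k : ℤ)) Nat.cast_injective ?_).2 h
  intro k hk
  have : k < 0 := by
    by_contra hn
    exact hk ⟨k.toNat, by simp only; omega⟩
  have := h0 (-k - 1).toNat
  rwa [show -(((-k - 1).toNat + 1 : ℕ) : ℤ) = k by omega] at this

theorem hasSum_neg_of {f : ℤ → ℂ} {x : ℂ} (h : HasSum f x) (h0 : ∀ k : ℕ, f (k + 1 : ℕ) = 0) :
    HasSum (fun k : ℕ => f (-k)) x :=
  hasSum_nat_of (f := fun k => f (-k)) ((Equiv.neg ℤ).hasSum_iff.2 h) (by simpa using h0)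

theorem IsPer.rep_pos (hη : η ≠ 0) (hs : s ≠ 0) (h : IsPer η l s a b) (h0 : co a (-1) = 0)
    (hH : Hardy η l s) (τ : ℝ) : a τ = co a 1 * FA η l s (exp (I * τ)) ∧
      b τ = co a 1 * (I * FB η l s (exp (I * τ))) := by
  have hz : ∀ k : ℕ, co a (-k) = 0 := fun k => by rw [h.co_neg hη hs, h0]; simp
  have h1 := hasSum_nat_of (hasSum_co h.lin.cont_a h.per_a (h.sum_a hη hs) τ) (fun k => by
    have := hz (k + 1)
    push_cast at this ⊢
    rw [this, zero_mul])
  have h2 := hasSum_nat_of (hasSum_co h.lin.cont_b h.per_b (h.sum_b hη hs) τ) (fun k => by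
    rw [h.cob_eq (by rw [neg_ne_zero]; exact_mod_cast Nat.succ_ne_zero k)]
    have := hz (k + 1)
    push_cast at this ⊢
    rw [this]; simp)
  constructor
  · refine h1.unique ?_
    convert! ((hH.fast hs).hasSum (exp (I * τ))).mul_left (co a 1) using 2 with k
    rw [exp_nat, Int.cast_natCast, h.co_pos hη hs]
    ring
  · refine h2.unique ?_
    convert! (((hH.fast_bs hs).hasSum (exp (I * τ))).mul_left I).mul_left (co a 1) using 2 with k
    rw [exp_nat]
    rcases k with _ | k
    · simp only [Nat.cast_zero, Int.cast_zero, h.cob_zero hη, h0, bs, if_true]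
      ring
    · rw [h.cob_eq (by exact_mod_cast Nat.succ_ne_zero k), Int.cast_natCast (R := ℝ),
        h.co_pos hη hs, bs_succ]
      push_cast
      ring

theorem IsPer.rep_neg (hη : η ≠ 0) (hs : s ≠ 0) (h : IsPer η l s a b) (h0 : co a 1 = 0)
    (hH : Hardy η (-l) s) (τ : ℝ) : a τ = -co a (-1) * FA η (-l) s (exp (I * (π - τ : ℝ))) ∧
      b τ = co a (-1) * (I * FB η (-l) s (exp (I * (π - τ : ℝ)))) := by
  have hz : ∀ k : ℕ, co a k = 0 := fun k => by rw [h.co_pos hη hs, h0]; simp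
  have h1 := hasSum_neg_of (hasSum_co h.lin.cont_a h.per_a (h.sum_a hη hs) τ) (fun k => by
    have := hz (k + 1)
    push_cast at this ⊢
    rw [this, zero_mul])
  have h2 := hasSum_neg_of (hasSum_co h.lin.cont_b h.per_b (h.sum_b hη hs) τ) (fun k => by
    rw [h.cob_eq (by exact_mod_cast Nat.succ_ne_zero k)]
    have := hz (k + 1)
    push_cast at this ⊢
    rw [this]; simp)
  have e : ∀ k : ℕ, ((-1 : ℂ) ^ k) * (-1) ^ k = 1 := fun k => by rw [← mul_pow]; simp
  constructor
  · refine h1.unique ?_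
    convert! ((hH.fast hs).hasSum (exp (I * (π - τ : ℝ)))).mul_left (-co a (-1)) using 2 with k
    rw [exp_neg_nat, Int.cast_neg, Int.cast_natCast, h.co_neg hη hs]
    linear_combination (-co a (-1) * sh η (-l) s k * exp (I * (π - τ : ℝ)) ^ k) * e k
  · refine h2.unique ?_
    convert! (((hH.fast_bs hs).hasSum (exp (I * (π - τ : ℝ)))).mul_left I).mul_left (co a (-1))
      using 2 with k
    rw [exp_neg_nat]
    rcases k with _ | k
    · simp only [Nat.cast_zero, neg_zero, Int.cast_zero, h.cob_zero hη, h0, bs, if_true]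
      ring
    · rw [h.cob_eq (by rw [neg_ne_zero]; exact_mod_cast Nat.succ_ne_zero k),
        Int.cast_neg (R := ℝ), Int.cast_natCast (R := ℝ), h.co_neg hη hs, bs_succ]
      have e1 := e (k + 1)
      generalize (-1 : ℂ) ^ (k + 1) = u at e1 ⊢
      push_cast
      rw [mul_neg (2 : ℂ), div_neg]
      linear_combination (-I * (η / (2 * (k + 1))) * co a (-1) * sh η (-l) s (k + 1)
        * exp (I * (π - τ)) ^ (k + 1)) * e1

theorem IsPer.zero (hη : η ≠ 0) (hs : s ≠ 0) (h : IsPer η l s a b) (h0 : co a 1 = 0)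
    (h1 : co a (-1) = 0) : a 0 = 0 ∧ b 0 = 0 := by
  have hz : ∀ k : ℤ, co a k = 0 := by
    intro k
    obtain ⟨n, rfl | rfl⟩ := k.eq_nat_or_neg
    · rw [Int.cast_natCast, h.co_pos hη hs, h0]; simp
    · rw [Int.cast_neg, Int.cast_natCast, h.co_neg hη hs, h1]; simp
  have hzb : ∀ k : ℤ, co b k = 0 := by
    intro k
    by_cases hk : k = 0
    · simp [hk, h.cob_zero hη, h0, h1]
    · rw [h.cob_eq hk, hz]; simp
  exact ⟨zero_of_co (ν := 0) h.lin.cont_a (fun τ => by simpa using h.per_a τ) (by simpa using hz),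
    zero_of_co (ν := 0) h.lin.cont_b (fun τ => by simpa using h.per_b τ) (by simpa using hzb)⟩

/-- the Hermitian form given by the derivative in the ordinate -/
noncomputable def Qf (a a' : ℝ → ℂ) : ℂ :=
  (2 * π : ℂ)⁻¹ * ∫ τ in (0 : ℝ)..2 * π, ((Real.cos τ : ℂ) * a τ) * conj (a' τ)

theorem IsPer.hasSum_Q (hη : η ≠ 0) (hs : s ≠ 0) (h : IsPer η l s a b) (h' : IsPer η l s a' b') :
    HasSum (fun k : ℤ => (co a (k - 1) + co a (k + 1)) / 2 * conj (co a' k)) (Qf a a') := by
  have hc := h.lin.cont_a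
  have := parseval (f := fun τ => (Real.cos τ : ℂ) * a τ) (by fun_prop) h'.lin.cont_a h'.per_a
    (h'.sum_a hη hs)
  simp only [co_cos hc] at this
  exact this

theorem IsPer.Q_cross (hη : η ≠ 0) (hs : s ≠ 0) (h : IsPer η l s a b) (h' : IsPer η l s a' b')
    (h0 : co a (-1) = 0) (h1 : co a' 1 = 0) : Qf a a' = 0 := by
  refine (h.hasSum_Q hη hs h').unique ?_
  convert! hasSum_zero (α := ℂ) (β := ℤ) using 2 with k
  have hz : ∀ k : ℕ, co a (-k) = 0 := fun k => by rw [h.co_neg hη hs, h0]; simp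
  have hz' : ∀ k : ℕ, co a' k = 0 := fun k => by rw [h'.co_pos hη hs, h1]; simp
  rcases k with n | n
  · simp [hz']
  · have e1 := hz (n + 2)
    have e2 := hz n
    rw [show (((Int.negSucc n : ℤ) : ℝ) - 1) = -((n + 2 : ℕ) : ℝ) by push_cast; ring,
      show (((Int.negSucc n : ℤ) : ℝ) + 1) = -(n : ℝ) by push_cast; ring, e1, e2]
    simp

theorem IsPer.Q_neg (hη : 0 < η) (hs : 0 < s) (hl : 0 ≤ l) (h : IsPer η l s a b)
    (h0 : co a (-1) = 0) (h1 : co a 1 ≠ 0) : (Qf a a).re < 0 := by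
  have hz : ∀ k : ℕ, co a (-k) = 0 := fun k => by rw [h.co_neg hη.ne' hs.ne', h0]; simp
  have h2 := hasSum_nat_of (h.hasSum_Q hη.ne' hs.ne' h) (fun k => by
    have := hz (k + 1)
    push_cast at this ⊢
    rw [this]; simp)
  have h3 := (hasSum_nat_add_iff' 1).2 h2
  simp only [Finset.range_one, Finset.sum_singleton, Nat.cast_zero, Int.cast_zero,
    h.co_zero hη.ne', map_zero, mul_zero, sub_zero] at h3
  have h4 := (reCLM.hasSum h3).mul_left (-s)
  have h5 : HasSum (fun k : ℕ => dg η l (k + 1) * normSq (co a (k + 1))) (-s * (Qf a a).re) := by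
    convert! h4 using 2 with k
    have r := h.rec3 (k := (k + 1 : ℕ)) (by exact_mod_cast Nat.succ_ne_zero k)
    rw [reCLM_apply, ← re_ofReal_mul, ← ofReal_re (dg η l (k + 1) * normSq (co a (k + 1)))]
    congr 1
    rw [ofReal_mul, ← mul_conj]
    push_cast at r ⊢
    linear_combination (conj (co a (k + 1))) * r
  have hd : ∀ k : ℕ, 0 < dg η l (k + 1) := fun k =>
    (by linarith : 0 < l + η).trans_le (dg_ge' η l (by positivity))
  have h6 : 0 < -s * (Qf a a).re := by
    refine hasSum_lt (i := 0) (f := fun _ => 0) (fun k => ?_) ?_ hasSum_zero h5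
    · exact mul_nonneg (hd k).le (normSq_nonneg _)
    · apply mul_pos (hd 0)
      simpa using normSq_pos.2 h1
  nlinarith

theorem Hardy.per (hη : η ≠ 0) (hs : s ≠ 0) (h : Hardy η l s) :
    IsPer η l s (fun τ => FA η l s (exp (I * τ))) (fun τ => I * FB η l s (exp (I * τ))) := by
  have e : exp (I * (2 * π : ℝ)) = exp (I * (0 : ℝ)) := by
    push_cast
    rw [mul_comm I, exp_two_pi_mul_I]; simp
  exact ⟨h.lin hη hs, by simp only [e], by simp only [e]⟩

theorem Hardy.W_neg (hη : 0 < η) (hs : 0 < s) (h : Hardy η l s) (hl : η ≤ l + s) (τ : ℝ) :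
    normSq (FA η l s (exp (I * τ))) < normSq (I * FB η l s (exp (I * τ))) := by
  have h1 := (h.lin hη.ne' hs.ne').W (h.lin hη.ne' hs.ne') τ 0
  have e1 := h.ra_eq hs.ne' 0
  have e2 := h.rb_eq hs.ne' 0
  simp only [ofReal_zero, mul_zero] at h1 e1 e2
  rw [e1, e2, mul_conj, mul_conj, mul_conj, mul_conj] at h1
  have h2 : normSq (FA η l s (exp (I * τ))) - normSq (I * FB η l s (exp (I * τ)))
      = normSq (ra η l s 0 : ℂ) - normSq (I * rb η l s 0) := by exact_mod_cast h1
  rw [map_mul normSq I (rb η l s 0 : ℂ), normSq_I, normSq_ofReal, normSq_ofReal] at h2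
  obtain ⟨r1, r2⟩ := h.radial hη hs hl (le_refl 0)
  nlinarith

theorem IsSol.G_deriv (hφ : IsSol η l s φ) (τ : ℝ) :
    HasDerivAt (fun τ => ((η / 2 * Cs φ τ : ℝ) : ℂ) - I * ((φ τ - th l s τ) / 2 : ℝ))
      (η / 2 * exp (I * φ τ)) τ := by
  have h1 := ((Cs_deriv hφ.continuous τ).const_mul (η / 2)).ofReal_comp
  have h2 := (((hφ τ).sub (th_deriv l s τ)).div_const 2).ofReal_comp
  refine (h1.sub (h2.const_mul I)).congr_deriv ?_
  rw [exp_I_mul]
  simp only [ofReal_div, ofReal_sub, ofReal_mul, ofReal_add, ofReal_ofNat]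
  ring

theorem th_two_pi (l s : ℝ) : th l s (2 * π) = l * (2 * π) := by simp [th]

theorem th_zero (l s : ℝ) : th l s 0 = 0 := by simp [th]

/-- the winding number at a point where the recurrence has a bounded solution -/
theorem Hardy.rot (hη : 0 < η) (hs : 0 < s) (h : Hardy η l s) (hl : η ≤ l + s)
    (hφ : IsSol η l s φ) (hp : exp (I * φ (2 * π)) = exp (I * φ 0)) :
    φ (2 * π) = φ 0 + l * (2 * π) := by
  have hP := h.per hη.ne' hs.ne'
  set a : ℝ → ℂ := fun τ => FA η l s (exp (I * τ)) with ha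
  set b : ℝ → ℂ := fun τ => I * FB η l s (exp (I * τ)) with hb
  have hW : ∀ τ, normSq (a τ) < normSq (b τ) := h.W_neg hη hs hl
  have hb0 : ∀ τ, b τ ≠ 0 := fun τ h0 => by
    have := hW τ
    rw [h0, map_zero] at this
    exact absurd (normSq_nonneg _) (not_le.2 this)
  have hint := (h.wind hs.ne' fun z hz => h.disc hη hs hl hz.le).2
    fun z hz => h.disc hη hs hl hz.le
  have hφc := hφ.continuous
  have hac := hP.lin.cont_a
  have hbc := hP.lin.cont_b
  have hslit : ∀ τ, 1 - a τ / b τ * exp (I * φ τ) ∈ slitPlane := by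
    intro τ
    left
    have h1 : ‖a τ / b τ * exp (I * φ τ)‖ < 1 := by
      rw [norm_mul, mul_comm I, norm_exp_ofReal_mul_I, mul_one, norm_div,
        div_lt_one (norm_pos_iff.2 (hb0 τ))]
      have := hW τ
      rw [normSq_eq_norm_sq, normSq_eq_norm_sq] at this
      exact lt_of_pow_lt_pow_left₀ 2 (norm_nonneg _) this
    have h2 := re_le_norm (a τ / b τ * exp (I * φ τ))
    simp only [sub_re, one_re]
    linarith
  have hd : ∀ τ, HasDerivAt (fun τ => log (1 - a τ / b τ * exp (I * φ τ)))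
      (-(η / 2 * (a τ / b τ)) - η / 2 * exp (I * φ τ)) τ := by
    intro τ
    have h1 := ((hP.lin τ).1.div (hP.lin τ).2 (hb0 τ)).mul
      (((hφ τ).ofReal_comp).const_mul I).cexp
    have h2 := (h1.const_sub 1).clog_real (hslit τ)
    refine h2.congr_deriv ?_
    have h3 := slitPlane_ne_zero (hslit τ)
    simp only [Pi.div_apply, Pi.mul_apply] at h3 ⊢
    rw [div_eq_iff h3]
    have h4 := hb0 τ
    have e1 : (Real.sin (φ τ) : ℂ) * (2 * I) * exp (I * φ τ) = exp (I * φ τ) ^ 2 - 1 := by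
      rw [exp_I_mul]
      have e : (Real.cos (φ τ) : ℂ) ^ 2 + (Real.sin (φ τ) : ℂ) ^ 2 = 1 := by
        exact_mod_cast Real.cos_sq_add_sin_sq (φ τ)
      linear_combination (-1) * e + (Real.sin (φ τ) : ℂ) ^ 2 * I_sq
    simp only [ofReal_sub, ofReal_mul]
    generalize exp (I * φ τ) = u at e1 ⊢
    generalize ((l + s * Real.cos τ : ℝ) : ℂ) = κ
    field_simp
    linear_combination (η * a τ * b τ) * e1
  have h5 := intervalIntegral.integral_eq_sub_of_hasDerivAt (a := 0) (b := 2 * π)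
    (fun τ _ => hd τ) (Continuous.intervalIntegrable (by
      have : Continuous fun τ => a τ / b τ := hac.div hbc hb0
      fun_prop) _ _)
  rw [hP.pa, hP.pb, hp, sub_self, intervalIntegral.integral_sub (Continuous.intervalIntegrable (by
      have : Continuous fun τ => a τ / b τ := hac.div hbc hb0
      fun_prop) _ _) (Continuous.intervalIntegrable (by fun_prop) _ _),
    intervalIntegral.integral_neg] at h5
  have h6 := intervalIntegral.integral_eq_sub_of_hasDerivAt (a := 0) (b := 2 * π)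
    (fun τ _ => hφ.G_deriv τ) (Continuous.intervalIntegrable (by fun_prop) _ _)
  simp only [ha, hb] at h5
  rw [hint, h6] at h5
  have h7 := congrArg im h5
  simp only [th_two_pi, th_zero, neg_zero, zero_sub, neg_im, sub_im, ofReal_im, mul_im, I_re,
    I_im, ofReal_re, zero_im] at h7
  linarith

end Pool.Agent.H364Z
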