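import Pool.Agent.H364Z.Basic

set_option autoImplicit false

open Real Set Filter Topology

namespace Pool.Agent.H364Z

variable {η l s : ℝ} {φ ψ : ℝ → ℝ}

/-- rotation number `r` -/
def Rot (η l s r : ℝ) : Prop := ∃ φ, IsSol η l s φ ∧ Tendsto (fun τ => φ τ / τ) atTop (𝓝 r)

/-- displacement of the period map -/
noncomputable def D (η l s : ℝ) (m : ℤ) (x : ℝ) : ℝ := sol η l s x (2 * π) - x - m * (2 * π)

theorem IsSol.D_eq (hφ : IsSol η l s φ) (m : ℤ) :
    D η l s m (φ 0) = φ (2 * π) - φ 0 - m * (2 * π) := by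
  unfold D
  rw [← hφ.eq_sol]

theorem two_pi_mem : (2 * π) ∈ Icc 0 (2 * π) := ⟨by positivity, le_rfl⟩

theorem D_cont {X : Type} [TopologicalSpace X] {fη fl fs fx : X → ℝ} (hη : Continuous fη)
    (hl : Continuous fl) (hs : Continuous fs) (hx : Continuous fx) (m : ℤ) :
    Continuous fun p => D (fη p) (fl p) (fs p) m (fx p) := by
  unfold D
  exact ((sol_cont hη hl hs hx two_pi_mem).sub hx).sub continuous_const

theorem D_cont_x (η l s : ℝ) (m : ℤ) : Continuous (D η l s m) :=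
  D_cont continuous_const continuous_const continuous_const continuous_id m

theorem D_add (η l s : ℝ) (m k : ℤ) (x : ℝ) : D η l s m (x + k * (2 * π)) = D η l s m x := by
  have h := ((sol_isSol η l s x).shift 0 k).D_eq m
  simp only [Int.cast_zero, zero_mul, add_zero, sol_zero] at h
  rw [h]
  unfold D
  ring

theorem D_lt_of_lt {l' : ℝ} (h : l < l') (m : ℤ) (x : ℝ) : D η l s m x < D η l' s m x := by
  unfold D
  have := (sol_isSol η l s x).lt_of_lt (sol_isSol η l' s x) h (by simp) (t := 2 * π) (by positivity)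
  linarith

theorem D_le_of_le {l' : ℝ} (h : l ≤ l') (m : ℤ) (x : ℝ) : D η l s m x ≤ D η l' s m x := by
  rcases h.lt_or_eq with h | h
  · exact (D_lt_of_lt h m x).le
  · rw [h]

theorem D_crude (η l s : ℝ) (m : ℤ) (x : ℝ) :
    |D η l s m x - (l - m) * (2 * π)| ≤ |η| * (2 * π) := by
  have h := (sol_isSol η l s x).crude (t := 2 * π) (by positivity)
  rw [sin_two_pi, sol_zero] at h
  unfold D
  convert h using 2
  ring

theorem IsSol.bdd_diff (hφ : IsSol η l s φ) (hψ : IsSol η l s ψ) :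
    ∃ c : ℝ, ∀ τ, |ψ τ - φ τ| ≤ c := by
  obtain ⟨k, hk⟩ := exists_nat_ge (|ψ 0 - φ 0| / (2 * π))
  have hp : 0 < 2 * π := by positivity
  rw [div_le_iff₀ hp, abs_le] at hk
  refine ⟨k * (2 * π), fun τ => ?_⟩
  have h1 := hψ.le (hφ.shift 0 k) (t₀ := 0) (by simp; linarith [hk.2]) τ
  have h2 := (hφ.shift 0 (-k)).le hψ (t₀ := 0) (by simp; linarith [hk.1]) τ
  simp at h1 h2
  rw [abs_le]
  constructor <;> linarith

theorem tendsto_of_bdd {f g : ℝ → ℝ} {c r : ℝ} (h : ∀ τ, 0 ≤ τ → |g τ - f τ| ≤ c)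
    (hf : Tendsto (fun τ => f τ / τ) atTop (𝓝 r)) : Tendsto (fun τ => g τ / τ) atTop (𝓝 r) := by
  have h0 : Tendsto (fun τ => (g τ - f τ) / τ) atTop (𝓝 0) := by
    have h1 : Tendsto (fun τ : ℝ => c / τ) atTop (𝓝 0) := tendsto_const_nhds.div_atTop tendsto_id
    refine squeeze_zero_norm' ?_ h1
    filter_upwards [eventually_gt_atTop 0] with τ hτ
    rw [Real.norm_eq_abs, abs_div, abs_of_pos hτ]
    exact div_le_div_of_nonneg_right (h τ hτ.le) hτ.le
  have := hf.add h0
  rw [add_zero] at this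
  refine this.congr fun τ => ?_
  ring

theorem Rot.all {r : ℝ} (h : Rot η l s r) (hψ : IsSol η l s ψ) :
    Tendsto (fun τ => ψ τ / τ) atTop (𝓝 r) := by
  obtain ⟨φ, hφ, hr⟩ := h
  obtain ⟨c, hc⟩ := hφ.bdd_diff hψ
  exact tendsto_of_bdd (fun τ _ => hc τ) hr

theorem Rot.neg {r : ℝ} (h : Rot η l s r) : Rot η (-l) (-s) (-r) := by
  obtain ⟨φ, hφ, hr⟩ := h
  refine ⟨_, hφ.neg, ?_⟩
  simpa only [neg_div] using hr.neg

theorem Rot.half {r : ℝ} (h : Rot η l s r) : Rot η l (-s) r := by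
  obtain ⟨φ, hφ, hr⟩ := h
  refine ⟨_, hφ.half, ?_⟩
  refine tendsto_of_bdd (c := (|l| + |s| + |η|) * π) (fun τ _ => ?_) hr
  have h := convex_univ.norm_image_sub_le_of_norm_hasDerivWithin_le (s := (univ : Set ℝ))
    (f := φ) (f' := fun u => l + s * cos u - η * sin (φ u)) (C := |l| + |s| + |η|)
    (fun u _ => (hφ u).hasDerivWithinAt) (fun u _ => by
      rw [Real.norm_eq_abs]
      have h1 : |s * cos u| ≤ |s| := by
        rw [abs_mul]; exact mul_le_of_le_one_right (abs_nonneg _) (abs_cos_le_one _)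
      have h2 : |η * sin (φ u)| ≤ |η| := by
        rw [abs_mul]; exact mul_le_of_le_one_right (abs_nonneg _) (abs_sin_le_one _)
      have h3 := abs_sub (l + s * cos u) (η * sin (φ u))
      have h4 := abs_add_le l (s * cos u)
      linarith) (mem_univ τ) (mem_univ (τ + π))
  rwa [Real.norm_eq_abs, Real.norm_eq_abs, add_sub_cancel_left, abs_of_pos pi_pos] at h

theorem rot_half_iff {r : ℝ} : Rot η l (-s) r ↔ Rot η l s r :=
  ⟨fun h => by simpa using h.half, fun h => h.half⟩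

theorem rot_neg_iff {r : ℝ} : Rot η (-l) s (-r) ↔ Rot η l s r :=
  ⟨fun h => by simpa using h.neg.half, fun h => by simpa using h.neg.half⟩

theorem lim_le_of_seq {f : ℝ → ℝ} {r c q : ℝ} (hf : Tendsto (fun τ => f τ / τ) atTop (𝓝 r))
    (h : ∀ n : ℕ, f (n * (2 * π)) ≤ c + n * (q * (2 * π))) : r ≤ q := by
  have hp : 0 < 2 * π := by positivity
  have hn : Tendsto (fun n : ℕ => (n : ℝ) * (2 * π)) atTop atTop :=
    tendsto_natCast_atTop_atTop.atTop_mul_const hp
  have h1 := hf.comp hn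
  have h2 : Tendsto (fun n : ℕ => c / ((n : ℝ) * (2 * π)) + q) atTop (𝓝 (0 + q)) :=
    (tendsto_const_nhds.div_atTop hn).add tendsto_const_nhds
  rw [zero_add] at h2
  refine le_of_tendsto_of_tendsto h1 h2 ?_
  filter_upwards [eventually_gt_atTop 0] with n hn0
  have hn1 : (0 : ℝ) < n * (2 * π) := by positivity
  simp only [Function.comp]
  rw [div_le_iff₀ hn1, add_mul, div_mul_cancel₀ _ hn1.ne']
  have := h n
  linarith

theorem IsSol.iter_le {q : ℝ} (_hφ : IsSol η l s φ)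
    (h : ∀ n : ℕ, φ ((n + 1) * (2 * π)) ≤ φ (n * (2 * π)) + q * (2 * π)) (n : ℕ) :
    φ (n * (2 * π)) ≤ φ 0 + n * (q * (2 * π)) := by
  induction n with
  | zero => simp
  | succ n ih =>
    have := h n
    push_cast
    linarith

theorem Rot.le_of_D {r : ℝ} (h : Rot η l s r) {m : ℤ} {x : ℝ} (hx : D η l s m x ≤ 0) : r ≤ m := by
  have hφ := sol_isSol η l s x
  refine lim_le_of_seq (h.all hφ) (hφ.iter_le fun n => ?_)
  have h1 := (hφ.shift 1 (-m)).le hφ (t₀ := 0) (by unfold D at hx; simp; linarith) (n * (2 * π))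
  simp only [Int.cast_one, one_mul, Int.cast_neg] at h1
  rw [add_mul, one_mul]
  linarith

theorem D_neg (η l s : ℝ) (m : ℤ) (x : ℝ) : D η (-l) (-s) (-m) (-x) = -D η l s m x := by
  have h := (sol_isSol η l s x).neg.D_eq (-m)
  simp only [sol_zero] at h
  rw [h]
  unfold D
  push_cast
  ring

theorem Rot.ge_of_D {r : ℝ} (h : Rot η l s r) {m : ℤ} {x : ℝ} (hx : 0 ≤ D η l s m x) : m ≤ r := by
  have := h.neg.le_of_D (m := -m) (x := -x) (by rw [D_neg]; linarith)
  push_cast at this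
  linarith

theorem Rot.lt_of_D {r : ℝ} (h : Rot η l s r) {m : ℤ} (hx : ∀ x, D η l s m x < 0) : r < m := by
  have hp : 0 < 2 * π := by positivity
  obtain ⟨x₀, -, hx₀⟩ := (isCompact_Icc (a := 0) (b := 2 * π)).exists_isMaxOn
    ⟨0, left_mem_Icc.2 hp.le⟩ (D_cont_x η l s m).continuousOn
  have hall : ∀ x, D η l s m x ≤ D η l s m x₀ := by
    intro x
    have h1 := D_add η l s m (-⌊x / (2 * π)⌋) x
    rw [← h1]
    apply hx₀
    have h2 := Int.floor_le (x / (2 * π))
    have h3 := Int.lt_floor_add_one (x / (2 * π))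
    rw [le_div_iff₀ hp] at h2
    rw [div_lt_iff₀ hp] at h3
    push_cast
    constructor <;> linarith
  have hφ := sol_isSol η l s 0
  have h4 : r ≤ m + D η l s m x₀ / (2 * π) := by
    refine lim_le_of_seq (h.all hφ) (hφ.iter_le fun n => ?_)
    have h1 := (hφ.shift n 0).D_eq m
    simp only [Int.cast_natCast, Int.cast_zero, zero_mul, add_zero, zero_add] at h1
    have h2 := hall (sol η l s 0 (n * (2 * π)))
    rw [h1] at h2
    rw [add_mul (m : ℝ), div_mul_cancel₀ _ hp.ne', add_mul, one_mul, add_comm (n * (2 * π))]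
    linarith
  have h5 : D η l s m x₀ / (2 * π) < 0 := div_neg_of_neg_of_pos (hx x₀) hp
  linarith

theorem Rot.gt_of_D {r : ℝ} (h : Rot η l s r) {m : ℤ} (hx : ∀ x, 0 < D η l s m x) : m < r := by
  have := h.neg.lt_of_D (m := -m) (fun x => by
    have := D_neg η l s m (-x)
    rw [neg_neg] at this
    rw [this]
    linarith [hx (-x)])
  push_cast at this
  linarith

theorem IsSol.per {m : ℤ} (hφ : IsSol η l s φ) (h : D η l s m (φ 0) = 0) (τ : ℝ) :
    φ (τ + 2 * π) = φ τ + m * (2 * π) := by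
  rw [hφ.D_eq] at h
  have h1 := (hφ.shift 1 (-m)).unique hφ (t₀ := 0) (by simp; linarith)
  have h2 := congrFun h1 τ
  simp only [Int.cast_one, one_mul, Int.cast_neg] at h2
  linarith

theorem rot_of_D {m : ℤ} {x : ℝ} (hx : D η l s m x = 0) : Rot η l s m := by
  have hφ := sol_isSol η l s x
  have hp : 0 < 2 * π := by positivity
  have hper : Function.Periodic (fun τ => sol η l s x τ - m * τ) (2 * π) := by
    intro τ
    have := hφ.per (m := m) (by simpa using hx) τ
    simp only [this]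
    ring
  have hc : Continuous fun τ => sol η l s x τ - m * τ := hφ.continuous.sub (by fun_prop)
  obtain ⟨c, hc⟩ := (hper.isBounded_of_continuous hp.ne' hc).exists_norm_le
  refine ⟨_, hφ, tendsto_of_bdd (f := fun τ => m * τ) (c := c) (fun τ _ => ?_) ?_⟩
  · exact hc _ ⟨τ, rfl⟩
  · refine tendsto_const_nhds.congr' ?_
    filter_upwards [eventually_gt_atTop 0] with τ hτ
    field_simp

theorem rot_iff_D {m : ℤ} : Rot η l s m ↔ ∃ x, D η l s m x = 0 := by
  refine ⟨fun h => ?_, fun ⟨x, hx⟩ => rot_of_D hx⟩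
  by_contra hn
  push Not at hn
  have hc := D_cont_x η l s m
  rcases lt_or_gt_of_ne (hn 0) with h0 | h0
  · have : ∀ x, D η l s m x < 0 := by
      intro x
      by_contra hx
      push Not at hx
      obtain ⟨y, hy⟩ := intermediate_value_univ 0 x hc ⟨h0.le, hx⟩
      exact hn y hy
    exact lt_irrefl _ (h.lt_of_D this)
  · have : ∀ x, 0 < D η l s m x := by
      intro x
      by_contra hx
      push Not at hx
      obtain ⟨y, hy⟩ := intermediate_value_univ x 0 hc ⟨hx, h0.le⟩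
      exact hn y hy
    exact lt_irrefl _ (h.gt_of_D this)

theorem D_abs_lt {m : ℤ} {x₀ : ℝ} (h : D η l s m x₀ = 0) (x : ℝ) : |D η l s m x| < 2 * π := by
  have hp : 0 < 2 * π := by positivity
  set k : ℤ := ⌊(x - x₀) / (2 * π)⌋ with hk
  have h2 := Int.floor_le ((x - x₀) / (2 * π))
  have h3 := Int.lt_floor_add_one ((x - x₀) / (2 * π))
  rw [le_div_iff₀ hp] at h2
  rw [div_lt_iff₀ hp] at h3
  rw [← hk] at h2 h3
  have hφ := sol_isSol η l s x₀
  have hψ := sol_isSol η l s x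
  have h4 := (hφ.shift 0 k).le hψ (t₀ := 0) (by simp; linarith) (2 * π)
  have h5 := hψ.lt (hφ.shift 0 (k + 1)) (t₀ := 0) (by simp; linarith) (2 * π)
  simp only [Int.cast_zero, zero_mul, add_zero, Int.cast_add, Int.cast_one] at h4 h5
  unfold D at h ⊢
  rw [abs_lt]
  constructor <;> linarith

theorem IsSol.refl2 (hφ : IsSol η l s φ) : IsSol η l s (fun τ => π - φ (2 * π - τ)) := by
  have h := (hφ.shift 1 0).refl
  simp only [Int.cast_one, one_mul, Int.cast_zero, zero_mul, add_zero] at h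
  convert h using 4
  ring

theorem D_refl {m : ℤ} {x₀ : ℝ} (h : D η l s m x₀ = 0) : D η l s m (π - x₀) = 0 := by
  have h1 := (sol_isSol η l s x₀).refl2.D_eq m
  simp only [sub_zero, sub_self, sol_zero] at h1
  have h2 := D_add η l s m (-m) (π - x₀)
  unfold D at h
  have e : π - sol η l s x₀ (2 * π) = π - x₀ + ((-m : ℤ) : ℝ) * (2 * π) := by push_cast; linarith
  rw [← h2, ← e, h1]
  linarith

/-- primitive of `cos φ` -/
noncomputable def Cs (φ : ℝ → ℝ) (τ : ℝ) : ℝ := ∫ u in (0 : ℝ)..τ, cos (φ u)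

@[simp] theorem Cs_zero (φ : ℝ → ℝ) : Cs φ 0 = 0 := by simp [Cs]

theorem Cs_deriv (h : Continuous φ) (τ : ℝ) : HasDerivAt (Cs φ) (cos (φ τ)) τ := by
  have hc : Continuous fun u => cos (φ u) := by fun_prop
  exact (hc.integral_hasStrictDerivAt 0 τ).hasDerivAt

theorem IsSol.wr (hφ : IsSol η l s φ) (hψ : IsSol η l s ψ) (τ : ℝ) :
    exp (η / 2 * Cs φ τ) * exp (η / 2 * Cs ψ τ) * sin ((ψ τ - φ τ) / 2) = sin ((ψ 0 - φ 0) / 2) := by
  have hd : ∀ τ, HasDerivAt (fun τ => exp (η / 2 * Cs φ τ) * exp (η / 2 * Cs ψ τ)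
      * sin ((ψ τ - φ τ) / 2)) 0 τ := by
    intro τ
    have h1 := ((Cs_deriv hφ.continuous τ).const_mul (η / 2)).exp
    have h2 := ((Cs_deriv hψ.continuous τ).const_mul (η / 2)).exp
    have h3 := (((hψ τ).sub (hφ τ)).div_const 2).sin
    refine ((h1.mul h2).mul h3).congr_deriv ?_
    simp only [Pi.mul_apply, Pi.sub_apply]
    have e1 := cos_add_cos (φ τ) (ψ τ)
    have e2 := sin_sub_sin (ψ τ) (φ τ)
    have e3 : cos ((φ τ - ψ τ) / 2) = cos ((ψ τ - φ τ) / 2) := by
      rw [← cos_neg]; congr 1; ring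
    have e4 : cos ((ψ τ + φ τ) / 2) = cos ((φ τ + ψ τ) / 2) := by congr 1; ring
    rw [e3] at e1
    rw [e4] at e2
    set A := exp (η / 2 * Cs φ τ)
    set B := exp (η / 2 * Cs ψ τ)
    have : (A * (η / 2 * cos (φ τ)) * B + A * (B * (η / 2 * cos (ψ τ)))) * sin ((ψ τ - φ τ) / 2)
        + A * B * (cos ((ψ τ - φ τ) / 2) * ((l + s * cos τ - η * sin (ψ τ)
          - (l + s * cos τ - η * sin (φ τ))) / 2))
        = A * B * (η / 2) * ((cos (φ τ) + cos (ψ τ)) * sin ((ψ τ - φ τ) / 2)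
          - cos ((ψ τ - φ τ) / 2) * (sin (ψ τ) - sin (φ τ))) := by ring
    rw [this, e1, e2]
    ring
  have h := is_const_of_deriv_eq_zero (fun τ => (hd τ).differentiableAt)
    (fun τ => (hd τ).deriv) τ 0
  simpa using h

theorem crit_of_D {m : ℤ} {x₀ : ℝ} (h : D η l s m x₀ = 0) :
    D η l s m (π / 2) * D η l s m (-(π / 2)) ≤ 0 := by
  have h1 := D_refl h
  have hp := D_abs_lt h (π / 2)
  have hm := D_abs_lt h (-(π / 2))
  have w1 := (sol_isSol η l s (π / 2)).wr (sol_isSol η l s x₀) (2 * π)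
  have w2 := (sol_isSol η l s (π / 2)).wr (sol_isSol η l s (π - x₀)) (2 * π)
  have w3 := (sol_isSol η l s (-(π / 2))).wr (sol_isSol η l s x₀) (2 * π)
  have w4 := (sol_isSol η l s (-(π / 2))).wr (sol_isSol η l s (π - x₀)) (2 * π)
  simp only [sol_zero] at w1 w2 w3 w4
  set u : ℝ := (x₀ - π / 2) / 2 with hu
  set p : ℝ := D η l s m (π / 2) / 2 with hpd
  set q : ℝ := D η l s m (-(π / 2)) / 2 with hqd
  have e1 : (sol η l s x₀ (2 * π) - sol η l s (π / 2) (2 * π)) / 2 = u - p := by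
    unfold D at h hpd; rw [hu, hpd]; linarith
  have e2 : (sol η l s (π - x₀) (2 * π) - sol η l s (π / 2) (2 * π)) / 2 = -(u + p) := by
    unfold D at h1 hpd; rw [hu, hpd]; linarith
  have e3 : (sol η l s x₀ (2 * π) - sol η l s (-(π / 2)) (2 * π)) / 2 = (u - q) + π / 2 := by
    unfold D at h hqd; rw [hu, hqd]; linarith
  have e4 : (sol η l s (π - x₀) (2 * π) - sol η l s (-(π / 2)) (2 * π)) / 2 = π / 2 - (u + q) := by
    unfold D at h1 hqd; rw [hu, hqd]; linarith
  have f2 : (π - x₀ - π / 2) / 2 = -u := by rw [hu]; ring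
  have f3 : (x₀ - -(π / 2)) / 2 = u + π / 2 := by rw [hu]; ring
  have f4 : (π - x₀ - -(π / 2)) / 2 = π / 2 - u := by rw [hu]; ring
  rw [e1, sin_sub] at w1
  rw [e2, f2, sin_neg, sin_neg, sin_add] at w2
  rw [e3, f3, sin_add_pi_div_two, sin_add_pi_div_two, cos_sub] at w3
  rw [e4, f4, sin_pi_div_two_sub, sin_pi_div_two_sub, cos_add] at w4
  set a := exp (η / 2 * Cs (sol η l s (π / 2)) (2 * π))
  set b := exp (η / 2 * Cs (sol η l s (-(π / 2))) (2 * π))
  set c := exp (η / 2 * Cs (sol η l s x₀) (2 * π))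
  set d := exp (η / 2 * Cs (sol η l s (π - x₀)) (2 * π))
  have ha : 0 < a := exp_pos _
  have hb : 0 < b := exp_pos _
  have hc : 0 < c := exp_pos _
  have hd : 0 < d := exp_pos _
  have k1 : 2 * (a * c * d) * cos u * sin p = sin u * (c - d) := by
    linear_combination (-d) * w1 - c * w2
  have k2 : 2 * (b * c * d) * sin u * sin q = cos u * (d - c) := by
    linear_combination d * w3 - c * w4
  have k3 : a * sin p * cos u ^ 2 + b * sin q * sin u ^ 2 = 0 := by
    have : 2 * (c * d) * (a * sin p * cos u ^ 2 + b * sin q * sin u ^ 2) = 0 := by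
      linear_combination cos u * k1 + sin u * k2
    have h0 : 2 * (c * d) ≠ 0 := by positivity
    exact (mul_eq_zero.1 this).resolve_left h0
  have hcs := sin_sq_add_cos_sq u
  rw [abs_lt] at hp hm
  by_contra hn
  push Not at hn
  have hpq : 0 < p * q := by rw [hpd, hqd]; nlinarith
  rcases pos_and_pos_or_neg_and_neg_of_mul_pos hpq with ⟨h2, h3⟩ | ⟨h2, h3⟩
  · have s1 : 0 < a * sin p := mul_pos ha (sin_pos_of_pos_of_lt_pi h2 (by rw [hpd]; linarith))
    have s2 : 0 < b * sin q := mul_pos hb (sin_pos_of_pos_of_lt_pi h3 (by rw [hqd]; linarith))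
    rcases le_total (a * sin p) (b * sin q) with h | h <;> nlinarith [sq_nonneg (sin u), sq_nonneg (cos u)]
  · have s1 : a * sin p < 0 :=
      mul_neg_of_pos_of_neg ha (sin_neg_of_neg_of_neg_pi_lt h2 (by rw [hpd]; linarith))
    have s2 : b * sin q < 0 :=
      mul_neg_of_pos_of_neg hb (sin_neg_of_neg_of_neg_pi_lt h3 (by rw [hqd]; linarith))
    rcases le_total (a * sin p) (b * sin q) with h | h <;> nlinarith [sq_nonneg (sin u), sq_nonneg (cos u)]

theorem rot_iff_crit {m : ℤ} :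
    Rot η l s m ↔ D η l s m (π / 2) * D η l s m (-(π / 2)) ≤ 0 := by
  rw [rot_iff_D]
  refine ⟨fun ⟨x, hx⟩ => crit_of_D hx, fun h => ?_⟩
  have hc := D_cont_x η l s m
  rcases mul_nonpos_iff.1 h with ⟨h1, h2⟩ | ⟨h1, h2⟩
  · exact intermediate_value_univ _ _ hc ⟨h2, h1⟩
  · exact intermediate_value_univ _ _ hc ⟨h1, h2⟩

/-- every horizontal line meets the level set of every orbit -/
theorem exists_l (η s : ℝ) (m : ℤ) (x : ℝ) : ∃ l, D η l s m x = 0 := by
  have hc : Continuous fun l => D η l s m x :=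
    D_cont continuous_const continuous_id continuous_const continuous_const m
  have h1 := D_crude η (m - |η|) s m x
  have h2 := D_crude η (m + |η|) s m x
  rw [abs_le] at h1 h2
  exact intermediate_value_univ (m - |η|) (m + |η|) hc ⟨by linarith [h1.2], by linarith [h2.1]⟩

theorem Rot.abs_le {m : ℤ} (h : Rot η l s m) : |l - m| ≤ |η| := by
  obtain ⟨x, hx⟩ := rot_iff_D.1 h
  have h1 := D_crude η l s m x
  rw [hx, zero_sub, abs_neg, abs_mul, abs_of_pos (by positivity : 0 < 2 * π)] at h1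
  exact le_of_mul_le_mul_right h1 (by positivity)

end Pool.Agent.H364Z
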