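import Pool.Agent.H364Z.Four

set_option autoImplicit false

open Set Filter Topology
open scoped Real

namespace Pool.Agent.H364Z

variable {η l s : ℝ}

/-- the solution of the three-term recurrence that starts with `0, 1` -/
noncomputable def sh (η l s : ℝ) : ℕ → ℝ
  | 0 => 0
  | 1 => 1
  | (k + 2) => -(2 / s) * dg η l (k + 1) * sh η l s (k + 1) - sh η l s k

theorem sh_zero (η l s : ℝ) : sh η l s 0 = 0 := by rw [sh]

theorem sh_one (η l s : ℝ) : sh η l s 1 = 1 := by rw [sh]

theorem sh_rec (hs : s ≠ 0) (k : ℕ) :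
    dg η l (k + 1) * sh η l s (k + 1) + s / 2 * (sh η l s k + sh η l s (k + 2)) = 0 := by
  rw [sh]
  field_simp
  ring

/-- the recurrence has a bounded solution -/
def Hardy (η l s : ℝ) : Prop := ∃ M : ℝ, ∀ k, |sh η l s k| ≤ M

theorem eq_sh (hs : s ≠ 0) {p : ℕ → ℂ} (h0 : p 0 = 0)
    (h : ∀ k : ℕ, (dg η l (k + 1) : ℂ) * p (k + 1) + s / 2 * (p k + p (k + 2)) = 0) (k : ℕ) :
    p k = p 1 * sh η l s k := by
  have hs' : (s / 2 : ℂ) ≠ 0 := by
    have : (s : ℂ) ≠ 0 := by exact_mod_cast hs
    simp [this]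
  have : ∀ k : ℕ, p k = p 1 * sh η l s k ∧ p (k + 1) = p 1 * sh η l s (k + 1) := by
    intro k
    induction k with
    | zero => simp [sh_zero, sh_one, h0]
    | succ n ih =>
      refine ⟨ih.2, ?_⟩
      have h1 := h n
      have h2 : (dg η l (n + 1) : ℂ) * sh η l s (n + 1)
          + s / 2 * (sh η l s n + sh η l s (n + 2)) = 0 := by exact_mod_cast sh_rec hs n
      apply mul_left_cancel₀ hs'
      rw [ih.1, ih.2] at h1
      linear_combination h1 - p 1 * h2
  exact (this k).1

theorem dg_ge (η l : ℝ) {x : ℝ} (hx : 0 < x) : x - |l| ≤ dg η l x := by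
  unfold dg
  have : 0 ≤ η ^ 2 / (4 * x) := by positivity
  linarith [neg_abs_le l]

theorem dg_ge' (η l : ℝ) {x : ℝ} (hx : 0 < x) : l + η ≤ dg η l x := by
  unfold dg
  have : η - x ≤ η ^ 2 / (4 * x) := by
    rw [le_div_iff₀ (by positivity)]
    nlinarith [sq_nonneg (η - 2 * x)]
  linarith

theorem sh_step (hs : s ≠ 0) (k : ℕ) :
    |dg η l (k + 1)| * |sh η l s (k + 1)| ≤ |s| / 2 * (|sh η l s k| + |sh η l s (k + 2)|) := by
  have h := sh_rec (η := η) (l := l) hs k
  have e : dg η l (k + 1) * sh η l s (k + 1) = -(s / 2 * (sh η l s k + sh η l s (k + 2))) := by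
    linarith
  rw [← abs_mul, e, abs_neg, abs_mul, abs_div, abs_two]
  exact mul_le_mul_of_nonneg_left (abs_add_le _ _) (by positivity)

/-- faster than geometric decay -/
def Fast (c : ℕ → ℝ) : Prop := ∀ q : ℝ, 0 < q → ∃ C : ℝ, ∀ k, |c k| ≤ C * q ^ k

theorem Hardy.fast (hs : s ≠ 0) (h : Hardy η l s) : Fast (sh η l s) := by
  obtain ⟨M, hM⟩ := h
  have hM0 : 0 ≤ M := (abs_nonneg _).trans (hM 0)
  have key : ∀ q : ℝ, 0 < q → q ≤ 1 → ∃ C : ℝ, 0 ≤ C ∧ ∀ k, |sh η l s k| ≤ C * q ^ k := by
    intro q hq hq1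
    obtain ⟨N, hN⟩ := exists_nat_gt (|l| + |s| / q)
    have hsq : 0 ≤ |s| / q := by positivity
    have step : ∀ j : ℕ, ∀ n : ℕ, N + j ≤ n → |sh η l s n| ≤ M * q ^ j := by
      intro j
      induction j with
      | zero => intro n _; simpa using hM n
      | succ j ih =>
        intro n hn
        obtain ⟨k, rfl⟩ : ∃ k, n = k + 1 := ⟨n - 1, by omega⟩
        have h1 := sh_step (η := η) (l := l) hs k
        have h2 := ih k (by omega)
        have h3 := ih (k + 2) (by omega)
        have h4 := dg_ge η l (x := k + 1) (by positivity)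
        have h5 : (N : ℝ) ≤ k := by exact_mod_cast (by omega : N ≤ k)
        have h6 : |s| / q + 1 ≤ |dg η l (k + 1)| := by
          refine le_trans ?_ (le_abs_self _); linarith
        have h7 : (|s| / q + 1) * |sh η l s (k + 1)| ≤ |s| * (M * q ^ j) := by
          have := mul_le_mul_of_nonneg_right h6 (abs_nonneg (sh η l s (k + 1)))
          have h8 : |s| / 2 * (|sh η l s k| + |sh η l s (k + 2)|) ≤ |s| / 2 * (2 * (M * q ^ j)) :=
            mul_le_mul_of_nonneg_left (by linarith) (by positivity)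
          linarith
        have h9 : |s| * (M * q ^ j) ≤ (|s| / q + 1) * (M * q ^ (j + 1)) := by
          have : (|s| / q + 1) * (M * q ^ (j + 1)) = |s| * (M * q ^ j) + M * q ^ (j + 1) := by
            field_simp
            ring
          rw [this]
          have : 0 ≤ M * q ^ (j + 1) := by positivity
          linarith
        exact le_of_mul_le_mul_left (h7.trans h9) (by positivity)
    refine ⟨M / q ^ N, by positivity, fun k => ?_⟩
    rcases le_total N k with hk | hk
    · obtain ⟨j, rfl⟩ := Nat.exists_eq_add_of_le hk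
      have := step j (N + j) le_rfl
      convert this using 1
      rw [pow_add]
      field_simp
    · refine (hM k).trans ?_
      rw [div_mul_eq_mul_div, le_div_iff₀ (by positivity)]
      exact mul_le_mul_of_nonneg_left (pow_le_pow_of_le_one hq.le hq1 hk) hM0
  intro q hq
  rcases le_total q 1 with h1 | h1
  · obtain ⟨C, -, hC⟩ := key q hq h1
    exact ⟨C, hC⟩
  · refine ⟨M, fun k => (hM k).trans ?_⟩
    exact le_mul_of_one_le_right hM0 (one_le_pow₀ h1)

theorem Fast.summable {c : ℕ → ℝ} (h : Fast c) {R : ℝ} (hR : 0 < R) :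
    Summable fun k => |c k| * R ^ k := by
  obtain ⟨C, hC⟩ := h (1 / (2 * R)) (by positivity)
  refine Summable.of_nonneg_of_le (fun k => by positivity) (fun k => ?_)
    ((summable_geometric_two).mul_left C)
  refine (mul_le_mul_of_nonneg_right (hC k) (by positivity)).trans (le_of_eq ?_)
  rw [mul_assoc, ← mul_pow]
  congr 2
  field_simp

theorem Fast.tendsto {c : ℕ → ℝ} (h : Fast c) : Tendsto (fun k => |c k|) atTop (𝓝 0) := by
  simpa using (h.summable one_pos).tendsto_atTop_zero

/-- a bounded solution exists only above the line `A = B + 1` -/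
theorem Hardy.lower (hs : 0 < s) (h : Hardy η l s) : l + η ≤ s := by
  have ht := (h.fast hs.ne').tendsto
  have hev : ∀ᶠ k in atTop, |sh η l s k| < 1 := ht.eventually (gt_mem_nhds one_pos)
  obtain ⟨N, hN⟩ := eventually_atTop.1 hev
  obtain ⟨k, hk, hmax⟩ := (Finset.range (N + 2)).exists_max_image (fun k => |sh η l s k|)
    ⟨1, by simp⟩
  have h1 : 1 ≤ |sh η l s k| := by simpa [sh_one] using hmax 1 (by simp)
  have hall : ∀ j, |sh η l s j| ≤ |sh η l s k| := by
    intro j
    rcases lt_or_ge j (N + 2) with hj | hj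
    · exact hmax j (Finset.mem_range.2 hj)
    · linarith [hN j (by omega)]
  obtain ⟨j, rfl⟩ : ∃ j, k = j + 1 := by
    rcases k with _ | j
    · rw [sh_zero] at h1; norm_num at h1
    · exact ⟨j, rfl⟩
  have h2 := sh_step (η := η) (l := l) hs.ne' j
  have h3 := (dg_ge' η l (x := j + 1) (by positivity)).trans (le_abs_self _)
  rw [abs_of_pos hs] at h2
  have h4 := hall j
  have h5 := hall (j + 2)
  have h6 : (l + η) * |sh η l s (j + 1)| ≤ s * |sh η l s (j + 1)| := by
    have := mul_le_mul_of_nonneg_right h3 (abs_nonneg (sh η l s (j + 1)))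
    nlinarith
  exact le_of_mul_le_mul_right h6 (by linarith)

theorem sh_contOn (η l : ℝ) (k : ℕ) : ContinuousOn (fun s => sh η l s k) (Ioi 0) := by
  have : ∀ k : ℕ, ContinuousOn (fun s => sh η l s k) (Ioi 0) ∧
      ContinuousOn (fun s => sh η l s (k + 1)) (Ioi 0) := by
    intro k
    induction k with
    | zero => simp only [sh_zero, zero_add, sh_one]; exact ⟨continuousOn_const, continuousOn_const⟩
    | succ n ih =>
      refine ⟨ih.2, ?_⟩
      have e : (fun s => sh η l s (n + 1 + 1))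
          = fun s => -(2 / s) * dg η l (n + 1) * sh η l s (n + 1) - sh η l s n := by
        ext s; rw [sh]
      rw [e]
      refine ContinuousOn.sub (ContinuousOn.mul (ContinuousOn.mul (ContinuousOn.neg
        (ContinuousOn.div continuousOn_const continuousOn_id fun x hx => ne_of_gt hx))
        continuousOn_const) ih.2) ih.1
  exact (this k).1

/-- the alternating version -/
noncomputable def sa (η l s : ℝ) (k : ℕ) : ℝ := -(-1) ^ k * sh η l s k

theorem sa_zero (η l s : ℝ) : sa η l s 0 = 0 := by simp [sa, sh_zero]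

theorem sa_one (η l s : ℝ) : sa η l s 1 = 1 := by simp [sa, sh_one]

theorem sa_rec (hs : s ≠ 0) (k : ℕ) :
    s / 2 * (sa η l s k + sa η l s (k + 2)) = dg η l (k + 1) * sa η l s (k + 1) := by
  have h := sh_rec (η := η) (l := l) hs k
  unfold sa
  rw [pow_succ, pow_succ]
  linear_combination (-(-1) ^ k) * h

theorem sa_abs (η l s : ℝ) (k : ℕ) : |sa η l s k| = |sh η l s k| := by
  simp [sa, abs_mul]

theorem sa_grow (hs : 0 < s) {N : ℕ} (hN : ∀ k : ℕ, N ≤ k → s ≤ dg η l (k + 1))
    (h1 : sa η l s N < sa η l s (N + 1)) (h2 : 0 < sa η l s (N + 1)) (j : ℕ) :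
    sa η l s (N + j) < sa η l s (N + j + 1) ∧ 0 < sa η l s (N + j + 1) := by
  induction j with
  | zero => exact ⟨h1, h2⟩
  | succ j ih =>
    have h3 := sa_rec (η := η) (l := l) hs.ne' (N + j)
    have h4 := hN (N + j) (by omega)
    have h5 := mul_le_mul_of_nonneg_right h4 ih.2.le
    have h6 : sa η l s (N + j + 1) < sa η l s (N + j + 2) := by
      have := ih.1
      nlinarith
    exact ⟨h6, ih.2.trans h6⟩

theorem exists_hardy (hη : 0 < η) (hl : 0 ≤ l) : ∃ s, 0 < s ∧ Hardy η l s := by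
  set G : Set ℝ := {s | 0 < s ∧ ∀ k, 0 < sa η l s (k + 1)} with hG
  have hc : ∀ k, ContinuousOn (fun s => sa η l s k) (Ioi 0) := fun k =>
    continuousOn_const.mul (sh_contOn η l k)
  have hlη : 0 < l + η := by linarith
  have h1 : l + η ∈ G := by
    refine ⟨hlη, fun k => ?_⟩
    have := sa_grow (η := η) (l := l) hlη (N := 0) (fun k _ => dg_ge' η l (by positivity))
      (by simp [sa_zero, sa_one]) (by simp [sa_one]) k
    simpa using this.2
  have hd : ∀ k : ℕ, 0 < dg η l (k + 1) := fun k =>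
    hlη.trans_le (dg_ge' η l (by positivity))
  have h2 : BddAbove G := by
    refine ⟨2 * (dg η l 1 + dg η l 2), fun s hs => ?_⟩
    by_contra hn
    push Not at hn
    have r0 := sa_rec (η := η) (l := l) hs.1.ne' 0
    have r1 := sa_rec (η := η) (l := l) hs.1.ne' 1
    have p2 := hs.2 1
    have p3 := hs.2 2
    have d1 := hd 0
    have d2 := hd 1
    simp only [sa_zero, sa_one, Nat.cast_zero, zero_add, mul_one, Nat.cast_one,
      one_add_one_eq_two] at r0 r1 d1 d2 p2 p3
    norm_num at r0 r1 p2 p3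
    have k1 : sa η l s 2 < 1 := by nlinarith
    nlinarith [hs.1]
  set s₁ := sSup G with hs₁
  have hs0 : 0 < s₁ := hlη.trans_le (le_csSup h2 h1)
  have hcl : s₁ ∈ closure G := csSup_mem_closure ⟨_, h1⟩ h2
  have hnn : ∀ k, 0 ≤ sa η l s₁ (k + 1) := by
    intro k
    have hca : ContinuousAt (fun s => sa η l s (k + 1)) s₁ :=
      (hc (k + 1)).continuousAt (Ioi_mem_nhds hs0)
    by_contra hn
    push Not at hn
    have hev : ∀ᶠ s in 𝓝 s₁, sa η l s (k + 1) < 0 := hca.eventually (gt_mem_nhds hn)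
    obtain ⟨s, hs, hsG⟩ := mem_closure_iff_nhds.1 hcl _ hev
    exact lt_asymm hs (hsG.2 k)
  have hpos : ∀ k, 0 < sa η l s₁ (k + 1) := by
    intro k
    induction k with
    | zero => simp [sa_one]
    | succ k ih =>
      refine lt_of_le_of_ne (hnn _) fun h0 => ?_
      have r := sa_rec (η := η) (l := l) hs0.ne' (k + 1)
      rw [← h0, mul_zero] at r
      have := hnn (k + 2)
      nlinarith
  refine ⟨s₁, hs0, ?_⟩
  obtain ⟨N, hN⟩ := exists_nat_gt (|l| + s₁ + 1)
  have hdN : ∀ k : ℕ, N ≤ k → s₁ + 1 ≤ dg η l (k + 1) := by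
    intro k hk
    have h4 := dg_ge η l (x := k + 1) (by positivity)
    have h5 : (N : ℝ) ≤ k := by exact_mod_cast hk
    linarith
  have hdec : ∀ k : ℕ, N ≤ k → sa η l s₁ (k + 1) ≤ sa η l s₁ k := by
    intro K hK
    by_contra hn
    push Not at hn
    have e1 : ∀ᶠ s in 𝓝 s₁, ∀ k ∈ Finset.range (K + 1), 0 < sa η l s (k + 1) := by
      rw [Filter.eventually_all_finset]
      intro k _
      exact ((hc (k + 1)).continuousAt (Ioi_mem_nhds hs0)).eventually (lt_mem_nhds (hpos k))
    have e2 : ∀ᶠ s in 𝓝 s₁, 0 < sa η l s (K + 1) - sa η l s K :=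
      (((hc (K + 1)).sub (hc K)).continuousAt (Ioi_mem_nhds hs0)).eventually
        (lt_mem_nhds (sub_pos.2 hn))
    have e3 : ∀ᶠ s in 𝓝 s₁, s < s₁ + 1 := gt_mem_nhds (by linarith)
    have e4 : ∀ᶠ s in 𝓝[>] s₁, s₁ < s := self_mem_nhdsWithin
    obtain ⟨s, ⟨a1, a2, a3⟩, a4⟩ :=
      (((e1.and (e2.and e3)).filter_mono nhdsWithin_le_nhds).and e4).exists
    have hs : 0 < s := hs0.trans a4
    have hsG : s ∈ G := by
      refine ⟨hs, fun k => ?_⟩
      rcases lt_or_ge k (K + 1) with hk | hk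
      · exact a1 k (Finset.mem_range.2 hk)
      · obtain ⟨j, rfl⟩ := Nat.exists_eq_add_of_le (by omega : K ≤ k)
        exact (sa_grow hs (N := K) (fun k hk => by linarith [hdN k (by omega)]) (by linarith)
          (a1 K (by simp)) j).2
    exact absurd (le_csSup h2 hsG) (not_le.2 a4)
  refine ⟨∑ k ∈ Finset.range (N + 1), |sa η l s₁ k|, fun k => ?_⟩
  rw [← sa_abs]
  rcases lt_or_ge k (N + 1) with hk | hk
  · exact Finset.single_le_sum (f := fun k => |sa η l s₁ k|) (fun _ _ => abs_nonneg _)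
      (Finset.mem_range.2 hk)
  · have h3 : ∀ j, sa η l s₁ (N + j) ≤ sa η l s₁ N := by
      intro j
      induction j with
      | zero => exact le_rfl
      | succ j ih => exact (hdec (N + j) (by omega)).trans ih
    obtain ⟨j, rfl⟩ := Nat.exists_eq_add_of_le hk
    have h4 := h3 (j + 1)
    have h5 := hpos (N + j)
    rw [show N + 1 + j = N + j + 1 by ring, abs_of_pos h5]
    refine le_trans (h4.trans (le_abs_self _)) ?_
    exact Finset.single_le_sum (f := fun k => |sa η l s₁ k|) (fun _ _ => abs_nonneg _)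
      (Finset.mem_range.2 (by omega))

end Pool.Agent.H364Z
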