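import Pool.Agent.H364Z.Eta

set_option autoImplicit false

open Real Set Filter Topology

namespace Pool.Agent.H364Z

variable {η l s : ℝ}

noncomputable def rr (η l s x : ℝ) : ℝ := exp (η / 2 * Cs (sol η l s x) (2 * π))

/-- half of the trace of the monodromy, up to sign -/
noncomputable def Pn (η l s : ℝ) (n : ℤ) : ℝ := rr η l s (π / 2) * cos (D η l s n (π / 2) / 2)

theorem rr_pos (η l s x : ℝ) : 0 < rr η l s x := exp_pos _

theorem pq_det (η l s : ℝ) (n : ℤ) : rr η l s (π / 2) * rr η l s (-(π / 2))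
    * cos ((D η l s n (π / 2) - D η l s n (-(π / 2))) / 2) = 1 := by
  have w := (sol_isSol η l s (-(π / 2))).wr (sol_isSol η l s (π / 2)) (2 * π)
  rw [sol_zero, sol_zero, show (π / 2 - -(π / 2)) / 2 = π / 2 by ring, sin_pi_div_two,
    show (sol η l s (π / 2) (2 * π) - sol η l s (-(π / 2)) (2 * π)) / 2
      = (D η l s n (π / 2) - D η l s n (-(π / 2))) / 2 + π / 2 by unfold D; ring,
    sin_add_pi_div_two] at w
  rw [← w, rr, rr]
  ring

theorem pq_lt (η l s : ℝ) (n : ℤ) : |D η l s n (π / 2) - D η l s n (-(π / 2))| < π := by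
  have hp := sol_isSol η l s (π / 2)
  have hm := sol_isSol η l s (-(π / 2))
  have h1 := hm.lt hp (t₀ := 0) (by simp; positivity) (2 * π)
  have h2 := hp.lt (hm.shift 0 1) (t₀ := 0) (by simp; linarith [pi_pos]) (2 * π)
  simp only [Int.cast_zero, zero_mul, add_zero, Int.cast_one, one_mul] at h2
  unfold D
  rw [abs_lt]
  constructor <;> linarith

theorem pq_eq (η l s : ℝ) (n : ℤ) :
    Pn η l s n = rr η l s (-(π / 2)) * cos (D η l s n (-(π / 2)) / 2) := by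
  have hp := sol_isSol η l s (π / 2)
  have w := (sol_isSol η l s (-(π / 2))).wr hp.refl2 (2 * π)
  have e : Cs (fun τ => π - sol η l s (π / 2) (2 * π - τ)) (2 * π)
      = -Cs (sol η l s (π / 2)) (2 * π) := by
    unfold Cs
    simp only [cos_pi_sub]
    rw [intervalIntegral.integral_neg,
      intervalIntegral.integral_comp_sub_left (fun u => cos (sol η l s (π / 2) u))]
    simp
  simp only [e, sub_self, sub_zero, sol_zero] at w
  rw [show (π - π / 2 - sol η l s (-(π / 2)) (2 * π)) / 2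
      = π / 2 - (D η l s n (-(π / 2)) / 2 + n * π) by unfold D; ring,
    show (π - sol η l s (π / 2) (2 * π) - -(π / 2)) / 2
      = π / 2 - (D η l s n (π / 2) / 2 + n * π) by unfold D; ring,
    sin_pi_div_two_sub, sin_pi_div_two_sub, cos_add_int_mul_pi, cos_add_int_mul_pi, mul_neg,
    exp_neg] at w
  have h0 : ((-1 : ℝ) ^ n) ≠ 0 := zpow_ne_zero _ (by norm_num)
  have h1 := exp_pos (η / 2 * Cs (sol η l s (π / 2)) (2 * π))
  unfold Pn rr
  generalize exp (η / 2 * Cs (sol η l s (π / 2)) (2 * π)) = A at *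
  generalize exp (η / 2 * Cs (sol η l s (-(π / 2))) (2 * π)) = B at *
  field_simp at w
  linear_combination -w

theorem P_sq (η l s : ℝ) (n : ℤ) : Pn η l s n ^ 2 - 1 = -(rr η l s (π / 2) * rr η l s (-(π / 2))
    * (sin (D η l s n (π / 2) / 2) * sin (D η l s n (-(π / 2)) / 2))) := by
  have h1 := pq_det η l s n
  rw [sub_div, cos_sub] at h1
  rw [sq]
  nth_rewrite 2 [pq_eq]
  unfold Pn
  linear_combination h1

theorem sin_half_mul {p q : ℝ} (hp : |p| < 2 * π) (hq : |q| < 2 * π) (h : 0 < p * q) :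
    0 < sin (p / 2) * sin (q / 2) := by
  rw [abs_lt] at hp hq
  rcases pos_and_pos_or_neg_and_neg_of_mul_pos h with ⟨h1, h2⟩ | ⟨h1, h2⟩
  · exact mul_pos (sin_pos_of_pos_of_lt_pi (by linarith) (by linarith))
      (sin_pos_of_pos_of_lt_pi (by linarith) (by linarith))
  · exact mul_pos_of_neg_of_neg (sin_neg_of_neg_of_neg_pi_lt (by linarith) (by linarith))
      (sin_neg_of_neg_of_neg_pi_lt (by linarith) (by linarith))

theorem P_pos {n : ℤ} (h : D η l s n (π / 2) * D η l s n (-(π / 2)) ≤ 0) :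
    0 < Pn η l s n ∧ |D η l s n (π / 2)| < π ∧ |D η l s n (-(π / 2))| < π := by
  have h1 := abs_lt.1 (pq_lt η l s n)
  have h2 : |D η l s n (π / 2)| < π ∧ |D η l s n (-(π / 2))| < π := by
    rcases mul_nonpos_iff.1 h with ⟨a, b⟩ | ⟨a, b⟩ <;> refine ⟨abs_lt.2 ⟨?_, ?_⟩, abs_lt.2 ⟨?_, ?_⟩⟩
      <;> linarith [pi_pos]
  refine ⟨mul_pos (rr_pos _ _ _ _) (cos_pos_of_mem_Ioo ⟨?_, ?_⟩), h2⟩ <;>
    linarith [abs_lt.1 h2.1]

theorem P_eq {n : ℤ} (h : D η l s n (π / 2) * D η l s n (-(π / 2)) = 0) : Pn η l s n = 1 := by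
  have h1 := (P_pos h.le).1
  have h2 := P_sq η l s n
  have h3 : sin (D η l s n (π / 2) / 2) * sin (D η l s n (-(π / 2)) / 2) = 0 := by
    rcases mul_eq_zero.1 h with h | h <;> simp [h]
  rw [h3] at h2
  nlinarith

theorem P_gt {n : ℤ} (h : D η l s n (π / 2) * D η l s n (-(π / 2)) < 0) : 1 < Pn η l s n := by
  obtain ⟨h1, h4, h5⟩ := P_pos h.le
  have h2 := P_sq η l s n
  have h3 := sin_half_mul (p := D η l s n (π / 2)) (q := -D η l s n (-(π / 2)))
    (by linarith [pi_pos]) (by rw [abs_neg]; linarith [pi_pos]) (by linarith)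
  rw [neg_div, sin_neg] at h3
  have := mul_pos (mul_pos (rr_pos η l s (π / 2)) (rr_pos η l s (-(π / 2)))) h3
  nlinarith

theorem Rot.P_ge {n : ℤ} (h : Rot η l s n) : 1 ≤ Pn η l s n := by
  rcases (rot_iff_crit.1 h).lt_or_eq with h | h
  exacts [(P_gt h).le, (P_eq h).ge]

theorem P_lt {n : ℤ} (h : 0 < D η l s n (π / 2) * D η l s n (-(π / 2)))
    (hp : |D η l s n (π / 2)| < 2 * π) (hq : |D η l s n (-(π / 2))| < 2 * π) :
    |Pn η l s n| < 1 := by
  have h2 := P_sq η l s n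
  have := mul_pos (mul_pos (rr_pos η l s (π / 2)) (rr_pos η l s (-(π / 2)))) (sin_half_mul hp hq h)
  rw [← sq_lt_one_iff_abs_lt_one]
  linarith

theorem P_even (η l s : ℝ) (n j : ℤ) : Pn η l s (n + 2 * j) = Pn η l s n := by
  unfold Pn
  rw [show D η l s (n + 2 * j) (π / 2) / 2 = D η l s n (π / 2) / 2 - j * (2 * π) by
    unfold D; push_cast; ring, cos_sub_int_mul_two_pi]

theorem P_odd (η l s : ℝ) (n j : ℤ) : Pn η l s (n + 2 * j + 1) = -Pn η l s n := by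
  rw [← P_even η l s n j]
  unfold Pn
  rw [show D η l s (n + 2 * j + 1) (π / 2) / 2 = D η l s (n + 2 * j) (π / 2) / 2 - π by
    unfold D; push_cast; ring, cos_sub_pi, mul_neg]

theorem P_one {n : ℤ} (h : Pn η l s n = 1) :
    ∃ j : ℤ, D η l s (n + 2 * j) (π / 2) = 0 ∨ D η l s (n + 2 * j) (-(π / 2)) = 0 := by
  have h2 := P_sq η l s n
  rw [h, one_pow, sub_self, eq_comm, neg_eq_zero] at h2
  have h3 := (mul_eq_zero.1 h2).resolve_left (mul_pos (rr_pos _ _ _ _) (rr_pos _ _ _ _)).ne'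
  have key : ∀ x, sin (D η l s n x / 2) = 0 → ∃ j : ℤ, D η l s (n + 2 * j) x = 0 := by
    intro x hx
    obtain ⟨i, hi⟩ := sin_eq_zero_iff.1 hx
    have h4 : D η l s (n + i) x = 0 := by unfold D at *; push_cast; linarith
    obtain ⟨j, rfl | rfl⟩ := Int.even_or_odd' i
    · exact ⟨j, h4⟩
    · have := (rot_of_D h4).P_ge
      rw [← add_assoc, P_odd, h] at this
      linarith
  rcases mul_eq_zero.1 h3 with h | h <;> obtain ⟨j, hj⟩ := key _ h
  exacts [⟨j, Or.inl hj⟩, ⟨j, Or.inr hj⟩]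

open Complex in
theorem TR_real (n : ℤ) (hη : η ≠ 0) :
    TR n 1 (((η ^ 2 / 4 : ℝ) : ℂ), (s : ℂ)) = ((2 * Pn η n s n : ℝ) : ℂ) := by
  have hη' : (η : ℂ) ≠ 0 := ofReal_ne_zero.2 hη
  rw [← TR_scale n 1 _ (c := η / 2) (by simpa using hη)]
  have e : (((η ^ 2 / 4 : ℝ) : ℂ)) / (η / 2) = η / 2 := by push_cast; field_simp; norm_num
  simp only [mul_one, e]
  have lin : ∀ v, IsLin η n s (fun τ => (Z n (η / 2) v ((η / 2 : ℂ), (s : ℂ)) τ).1)
      (fun τ => (Z n (η / 2) v ((η / 2 : ℂ), (s : ℂ)) τ).2) := by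
    intro v τ
    refine ⟨((Z_isZ _ _ v _).d1 τ).congr_deriv ?_, (Z_isZ _ _ v _).d2 τ⟩
    simp
  have d1 := ((lin (1, 0)).decomp (2 * π)).1
  have d2 := ((lin (0, 1)).decomp (2 * π)).2
  simp only [Z_zero] at d1 d2
  have a1 : ∀ x, la η n s (sol η n s x) (2 * π)
      = rr η n s x * exp (-(((D η n s (-n) x / 2 : ℝ) : ℂ)) * I) := by
    intro x
    rw [la, rr, ofReal_exp, ← Complex.exp_add, th_two_pi, sol_zero]
    congr 1
    unfold D
    push_cast
    ring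
  have b1 : ∀ x, lb η n s (sol η n s x) (2 * π)
      = exp (I * x) * (rr η n s x * exp ((((D η n s (-n) x / 2 : ℝ) : ℂ)) * I)) := by
    intro x
    rw [lb, a1, mul_left_comm, mul_left_comm (cexp _), ← Complex.exp_add, ← Complex.exp_add,
      ← mul_one (cexp (I * _ + -_ * I)), ← exp_int0 n, ← Complex.exp_add]
    congr 2
    unfold D
    push_cast
    ring
  have k := P_even η n s n (-n)
  rw [show n + 2 * -n = -n by ring] at k
  rw [TR, d1, d2, a1, a1, b1, b1, exp_half, exp_neg_half, ← k, two_mul (Pn η n s (-n))]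
  nth_rewrite 2 [pq_eq]
  have c1 := Complex.two_cos ((D η n s (-n) (π / 2) / 2 : ℝ) : ℂ)
  have c2 := Complex.two_cos ((D η n s (-n) (-(π / 2)) / 2 : ℝ) : ℂ)
  simp only [Pn, ofReal_add, ofReal_mul, ofReal_cos]
  linear_combination (-(rr η n s (π / 2) : ℂ) / 2) * c1 - ((rr η n s (-(π / 2)) : ℂ) / 2) * c2
    - ((rr η n s (π / 2) : ℂ) / 2 * exp (((D η n s (-n) (π / 2) / 2 : ℝ) : ℂ) * I)
      + (rr η n s (-(π / 2)) : ℂ) / 2 * exp (((D η n s (-n) (-(π / 2)) / 2 : ℝ) : ℂ) * I)) * I_sq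

theorem freq_real {P : ℂ → Prop} {x : ℝ} (h : ∀ᶠ t : ℝ in 𝓝 x, P t) : ∃ᶠ z in 𝓝[≠] (x : ℂ), P z := by
  have : Tendsto (fun t : ℝ => (t : ℂ)) (𝓝[≠] x) (𝓝[≠] (x : ℂ)) :=
    tendsto_nhdsWithin_iff.2 ⟨(Complex.continuous_ofReal.tendsto x).mono_left nhdsWithin_le_nhds,
      eventually_nhdsWithin_of_forall fun t ht h => ht (Complex.ofReal_injective h)⟩
  exact this.frequently (h.filter_mono nhdsWithin_le_nhds).frequently

theorem TR_diff1 (n : ℤ) (s : ℂ) : Differentiable ℂ fun z : ℂ => TR n 1 (z, s) := by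
  simpa using TR_diff n 1 (0, s) (1, 0)

theorem TR_diff2 (n : ℤ) (α : ℂ) : Differentiable ℂ fun z : ℂ => TR n 1 (α, z) := by
  simpa using TR_diff n 1 (α, 0) (0, 1)

theorem P_contOn (n : ℤ) (s : ℝ) : ∃ G : ℝ → ℝ, Continuous G ∧ ∀ η, η ≠ 0 → G η = Pn η n s n := by
  have c := (TR_diff1 n s).continuous
  refine ⟨fun η => (TR n 1 (((η ^ 2 / 4 : ℝ) : ℂ), (s : ℂ))).re / 2,
    (Complex.continuous_re.comp (c.comp (by fun_prop))).div_const 2, fun η hη => ?_⟩
  simp only [TR_real n hη, Complex.ofReal_re]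
  ring

open Complex ComplexConjugate in
theorem P_three (n : ℤ) (s : ℝ) {η₁ η₂ η₃ : ℝ} (h0 : 0 < η₁) (h1 : η₁ < η₂) (h2 : η₂ < η₃)
    (h : ∀ η ∈ Icc η₁ η₃, Pn η n s n ≠ 1) : ∃ a b : ℝ, 0 < a ∧ 0 < b ∧ a + b = 1 ∧
      |2 * Pn η₁ n s n - 2| ^ a * |2 * Pn η₃ n s n - 2| ^ b ≤ |2 * Pn η₂ n s n - 2| := by
  have hd : Differentiable ℂ fun z : ℂ => TR n 1 (z, s) - 2 := (TR_diff1 n s).sub_const 2
  have val : ∀ η : ℝ, 0 < η → TR n 1 (((η ^ 2 / 4 : ℝ) : ℂ), (s : ℂ)) - 2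
      = ((2 * Pn η n s n - 2 : ℝ) : ℂ) := by
    intro η hη
    rw [TR_real n hη.ne']
    push_cast
    ring
  have sq : ∀ t : ℝ, 0 < t → (2 * √t) ^ 2 / 4 = t := fun t ht => by
    rw [mul_pow, sq_sqrt ht.le]; ring
  have hs : ∀ z, TR n 1 (conj z, s) - 2 = conj (TR n 1 (z, s) - 2) := by
    have a1 : Differentiable ℂ (conj ∘ (fun z : ℂ => TR n 1 (z, s) - 2) ∘ conj) := fun z => by
      simpa using (hd (conj z)).conj_conj
    have := (a1.differentiableOn.analyticOnNhd isOpen_univ).eq_of_frequently_eq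
      (hd.differentiableOn.analyticOnNhd isOpen_univ) (z₀ := ((1 : ℝ) : ℂ)) (freq_real (by
        filter_upwards [lt_mem_nhds one_pos] with t ht
        simp only [Function.comp, conj_ofReal]
        rw [← sq t ht, val _ (by positivity), conj_ofReal]))
    intro z
    have h3 := congrFun this z
    simp only [Function.comp] at h3
    rw [← h3, conj_conj]
  have h03 : 0 < η₃ ^ 2 - η₁ ^ 2 := by nlinarith
  refine ⟨(η₃ ^ 2 - η₂ ^ 2) / (η₃ ^ 2 - η₁ ^ 2), (η₂ ^ 2 - η₁ ^ 2) / (η₃ ^ 2 - η₁ ^ 2),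
    div_pos (by nlinarith) h03, div_pos (by nlinarith) h03, by field_simp; ring, ?_⟩
  have := entire_three (K := 2 + (|(n : ℝ)| + 2 + |s|) * (2 * π)) hd hs (by positivity) (fun z => by
      set c := √(1 + ‖z‖) with hc
      have c1 : 1 ≤ c := one_le_sqrt.2 (by linarith [norm_nonneg z])
      have c2 : c * c = 1 + ‖z‖ := mul_self_sqrt (by positivity)
      have b := TR_bound n (c * 1) (z / c, s)
      rw [show (z / c, (s : ℂ)) = ((z, (s : ℂ)).1 / c, (z, (s : ℂ)).2) from rfl,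
        TR_scale n 1 _ (ofReal_ne_zero.2 (by linarith))] at b
      simp only [mul_one, norm_div, norm_real, Real.norm_eq_abs, abs_of_pos (one_pos.trans_le c1)]
        at b
      have c3 : ‖z‖ / c ≤ c := by rw [div_le_iff₀ (by linarith)]; linarith
      have c4 : (|(n : ℝ)| + c + (‖z‖ / c + |s|)) * (2 * π)
          ≤ (|(n : ℝ)| + 2 + |s|) * (2 * π) * c := by
        rw [mul_right_comm]
        refine mul_le_mul_of_nonneg_right ?_ (by positivity)
        nlinarith [abs_nonneg (n : ℝ), abs_nonneg s]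
      have c5 := Real.exp_le_exp.2 c4
      have c6 : 1 ≤ Real.exp ((|(n : ℝ)| + 2 + |s|) * (2 * π) * c) := one_le_exp (by positivity)
      have c7 : 4 ≤ Real.exp (2 * c) := by
        rw [two_mul, Real.exp_add]
        nlinarith [add_one_le_exp c]
      refine (norm_sub_le _ _).trans ?_
      rw [add_mul 2, Real.exp_add, Complex.norm_ofNat]
      nlinarith) (fun z hz => TR_real_zero (sub_eq_zero.1 hz))
    (x := η₁ ^ 2 / 4) (y := η₃ ^ 2 / 4) (a := (η₃ ^ 2 - η₂ ^ 2) / (η₃ ^ 2 - η₁ ^ 2))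
    (b := (η₂ ^ 2 - η₁ ^ 2) / (η₃ ^ 2 - η₁ ^ 2)) (div_pos (by nlinarith) h03).le
    (div_pos (by nlinarith) h03).le (by field_simp; ring) (by linarith) (fun t ht => by
      have ht0 : 0 < t := lt_of_lt_of_le (by positivity) ht.1
      rw [← sq t ht0, val _ (by positivity), ofReal_ne_zero]
      have k := sq t ht0
      have := h (2 * √t) ⟨by
        refine le_of_sq_le_sq (by linarith [ht.1]) (by positivity) |> fun h => h, by
        refine le_of_sq_le_sq (by linarith [ht.2]) (by linarith) |> fun h => h⟩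
      intro h5
      exact this (by linarith))
  rw [show (η₃ ^ 2 - η₂ ^ 2) / (η₃ ^ 2 - η₁ ^ 2) * (η₁ ^ 2 / 4)
      + (η₂ ^ 2 - η₁ ^ 2) / (η₃ ^ 2 - η₁ ^ 2) * (η₃ ^ 2 / 4) = η₂ ^ 2 / 4 by field_simp; ring,
    val _ h0, val _ (by linarith), val _ (by linarith)] at this
  simpa only [norm_real, Real.norm_eq_abs] using this

theorem P_three_lt (n : ℤ) (s : ℝ) {η₁ η₂ η₃ : ℝ} (h0 : 0 < η₁) (h1 : η₁ < η₂) (h2 : η₂ < η₃)
    (h : ∀ η ∈ Icc η₁ η₃, Pn η n s n ≠ 1) (k1 : Pn η₁ n s n < -1) (k3 : Pn η₃ n s n ≤ -1) :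
    4 < |2 * Pn η₂ n s n - 2| := by
  obtain ⟨a, b, ha, hb, hab, h3⟩ := P_three n s h0 h1 h2 h
  refine lt_of_lt_of_le ?_ h3
  have e : (4 : ℝ) = 4 ^ a * 4 ^ b := by rw [← rpow_add (by norm_num), hab, rpow_one]
  rw [e]
  refine mul_lt_mul (rpow_lt_rpow (by norm_num) ?_ ha) (rpow_le_rpow (by norm_num) ?_ hb.le)
    (by positivity) (by positivity)
  · rw [abs_of_neg (by linarith)]; linarith
  · rw [abs_of_neg (by linarith)]; linarith

theorem P_three_le (n : ℤ) (s : ℝ) {η₁ η₂ η₃ : ℝ} (h0 : 0 < η₁) (h1 : η₁ < η₂) (h2 : η₂ < η₃)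
    (h : ∀ η ∈ Icc η₁ η₃, Pn η n s n ≠ 1) (k1 : Pn η₁ n s n ≤ -1) (k3 : Pn η₃ n s n ≤ -1) :
    4 ≤ |2 * Pn η₂ n s n - 2| := by
  obtain ⟨a, b, ha, hb, hab, h3⟩ := P_three n s h0 h1 h2 h
  refine le_trans ?_ h3
  have e : (4 : ℝ) = 4 ^ a * 4 ^ b := by rw [← rpow_add (by norm_num), hab, rpow_one]
  rw [e]
  refine mul_le_mul (rpow_le_rpow (by norm_num) ?_ ha.le) (rpow_le_rpow (by norm_num) ?_ hb.le)
    (by positivity) (by positivity)
  · rw [abs_of_neg (by linarith)]; linarith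
  · rw [abs_of_neg (by linarith)]; linarith

end Pool.Agent.H364Z
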