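import Pool.Agent.H364Z.Tang

set_option autoImplicit false

open Real Set Filter Topology

namespace Pool.Agent.H364Z

variable {η l s : ℝ}

theorem D_cont_eta (l s : ℝ) (m : ℤ) (x : ℝ) : Continuous fun η => D η l s m x :=
  D_cont continuous_id continuous_const continuous_const continuous_const m

theorem rot_uniq {m k : ℤ} (h : Rot η l s m) (h' : Rot η l s k) : m = k := by
  obtain ⟨x, hx⟩ := rot_iff_D.1 h'
  exact_mod_cast le_antisymm (h.le_of_D hx.le) (h.ge_of_D hx.ge)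

theorem rot_above {n : ℤ} (hη : 0 < η) (hn : 1 ≤ n) (hs : n + η ≤ s) : Rot η n s n := by
  obtain ⟨t, -, t1, -, -, -, h4⟩ := axis hη hn
  rcases h4 s (t1.trans_le hs) with h | h
  · exact rot_of_D (h 0)
  · exact rot_iff_crit.2 (mul_of_M h.1 h.2).le

/-- the local picture in `η` at a boundary point of matching parity -/
theorem zero_pic {n j : ℤ} (hη : 0 < η) (hs : 0 < s) (hn : 0 ≤ n)
    (h : D η n s (n + 2 * j) (π / 2) = 0 ∨ D η n s (n + 2 * j) (-(π / 2)) = 0) :
    (∀ y, D η n s n y = 0) ∨ ∃ p q : ℝ → ℝ, Continuous q ∧ q η ≠ 0 ∧ p η = 0 ∧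
      (∀ᶠ η' in 𝓝[≠] η, (η' - η) * p η' < 0) ∧
      ((∀ η', D η' n s (n + 2 * j) (π / 2) = p η' ∧ D η' n s (n + 2 * j) (-(π / 2)) = q η') ∨
      (∀ η', D η' n s (n + 2 * j) (π / 2) = q η' ∧ D η' n s (n + 2 * j) (-(π / 2)) = p η')) := by
  by_cases hb : D η n s (n + 2 * j) (π / 2) = 0 ∧ D η n s (n + 2 * j) (-(π / 2)) = 0
  · left
    have h1 := both_zero hb.1 hb.2
    have h2 := (constr hη hs (by exact_mod_cast hn) h1).1
    have h3 : n = n + 2 * j := by exact_mod_cast h2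
    rwa [← h3] at h1
  rcases h with h | h
  · refine (tq_pos hη hs hn sym_p h).imp_right fun h1 => ⟨_, _, D_cont_eta n s _ _,
      fun h2 => hb ⟨h, h2⟩, h, D_sign_eta h (Cs_sym_zero sym_p h) h1, Or.inl fun _ => ⟨rfl, rfl⟩⟩
  · refine (tq_pos hη hs hn sym_m h).imp_right fun h1 => ⟨_, _, D_cont_eta n s _ _,
      fun h2 => hb ⟨h2, h⟩, h, D_sign_eta h (Cs_sym_zero sym_m h) h1, Or.inr fun _ => ⟨rfl, rfl⟩⟩

theorem ev_left {p : ℝ → ℝ} (h : ∀ᶠ η' in 𝓝[≠] η, (η' - η) * p η' < 0) :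
    ∀ᶠ η' in 𝓝[<] η, 0 < p η' := by
  filter_upwards [h.filter_mono (nhdsLT_le_nhdsNE η), self_mem_nhdsWithin] with u h1 h2
  have : u < η := h2
  nlinarith

theorem ev_right {p : ℝ → ℝ} (h : ∀ᶠ η' in 𝓝[≠] η, (η' - η) * p η' < 0) :
    ∀ᶠ η' in 𝓝[>] η, p η' < 0 := by
  filter_upwards [h.filter_mono (nhdsGT_le_nhdsNE η), self_mem_nhdsWithin] with u h1 h2
  have : η < u := h2
  nlinarith

theorem zero_left {n : ℤ} (hη : 0 < η) (hs : 0 < s) (hn : 1 ≤ n) (h : Pn η n s n = 1) :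
    ∃ j : ℤ, Rot η n s (n + 2 * j : ℤ) ∧ ((∀ᶠ η' in 𝓝[<] η, 1 ≤ Pn η' n s n) ∨
      ∀ᶠ η' in 𝓝[<] η, 0 < D η' n s (n + 2 * j) (π / 2)) := by
  obtain ⟨j, hj⟩ := P_one h
  refine ⟨j, hj.elim rot_of_D rot_of_D, ?_⟩
  rcases zero_pic hη hs (by omega) hj with h1 | ⟨p, q, hq, q0, -, h2, h3 | h3⟩
  · left
    have := (constr hη hs (by exact_mod_cast (by omega : 0 ≤ n)) h1).2.1
    filter_upwards [Ioo_mem_nhdsLT hη] with u hu
    exact (rot_above hu.1 hn (by linarith [hu.2])).P_ge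
  · right
    simpa only [h3] using ev_left h2
  · rcases q0.lt_or_gt with q1 | q1
    · left
      filter_upwards [ev_left h2, ((hq.tendsto η).eventually (gt_mem_nhds q1)).filter_mono
        nhdsWithin_le_nhds] with u a1 a2
      rw [← P_even u n s n j]
      exact (P_gt (by rw [(h3 u).1, (h3 u).2]; exact mul_neg_of_neg_of_pos a2 a1)).le
    · right
      simpa only [h3] using ((hq.tendsto η).eventually (lt_mem_nhds q1)).filter_mono
        nhdsWithin_le_nhds

theorem zero_right {n : ℤ} (hη : 0 < η) (hs : 0 < s) (hn : 1 ≤ n) (h : Pn η n s n = 1) :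
    ∃ j : ℤ, Rot η n s (n + 2 * j : ℤ) ∧ (j = 0 ∨ (∀ᶠ η' in 𝓝[>] η, 1 ≤ Pn η' n s n) ∨
      ∀ᶠ η' in 𝓝[>] η, D η' n s (n + 2 * j) (π / 2) < 0) := by
  obtain ⟨j, hj⟩ := P_one h
  have hr := hj.elim rot_of_D rot_of_D
  refine ⟨j, hr, ?_⟩
  rcases zero_pic hη hs (by omega) hj with h1 | ⟨p, q, hq, q0, -, h2, h3 | h3⟩
  · left
    have := rot_uniq hr (rot_of_D (h1 0))
    omega
  · right; right
    simpa only [h3] using ev_right h2
  · right
    rcases q0.lt_or_gt with q1 | q1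
    · right
      simpa only [h3] using ((hq.tendsto η).eventually (gt_mem_nhds q1)).filter_mono
        nhdsWithin_le_nhds
    · left
      filter_upwards [ev_right h2, ((hq.tendsto η).eventually (lt_mem_nhds q1)).filter_mono
        nhdsWithin_le_nhds] with u a1 a2
      rw [← P_even u n s n j]
      exact (P_gt (by rw [(h3 u).1, (h3 u).2]; exact mul_neg_of_pos_of_neg a2 a1)).le

theorem same_sign {f : ℝ → ℝ} (hf : Continuous f) {a b : ℝ} (h : ∀ u ∈ uIcc a b, f u ≠ 0) :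
    0 < f a ↔ 0 < f b := by
  constructor
  · intro h1
    by_contra h2
    obtain ⟨u, hu, hu0⟩ := intermediate_value_uIcc (a := a) (b := b) hf.continuousOn
      (mem_uIcc.2 (Or.inr ⟨not_lt.1 h2, h1.le⟩))
    exact h u hu hu0
  · intro h1
    by_contra h2
    obtain ⟨u, hu, hu0⟩ := intermediate_value_uIcc (a := a) (b := b) hf.continuousOn
      (mem_uIcc.2 (Or.inl ⟨not_lt.1 h2, h1.le⟩))
    exact h u hu hu0

theorem exists_low (n m : ℤ) (hm : 0 ≤ m) (hη : |(n : ℝ)| + |s| < η) : ∃ x, D η n s m x ≤ 0 := by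
  refine ⟨π / 2, ?_⟩
  have hφ := sol_isSol η n s (π / 2)
  have := image_le_of_deriv_right_lt_deriv_boundary (f := sol η n s (π / 2))
      (f' := fun u => n + s * cos u - η * sin (sol η n s (π / 2) u)) (a := 0) (b := 2 * π)
      (B := fun _ => π / 2) (B' := fun _ => 0) hφ.continuous.continuousOn
      (fun u _ => (hφ u).hasDerivWithinAt) (by simp) (fun u => hasDerivAt_const _ _) (by
        intro u _ hu
        simp only [hu, sin_pi_div_two]
        have h1 : |s * cos u| ≤ |s| := by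
          rw [abs_mul]; exact mul_le_of_le_one_right (abs_nonneg _) (abs_cos_le_one _)
        linarith [le_abs_self (s * cos u), le_abs_self (n : ℝ)]) two_pi_mem
  have h2 : (0 : ℝ) ≤ m * (2 * π) := by positivity
  unfold D
  linarith

theorem K_min_odd {n j : ℤ} (hη : 0 < η) (hs : 0 < s) (hn : 1 ≤ n) (hm : 0 ≤ n + 2 * j + 1)
    (h0 : min (D η n s (n + 2 * j + 1) (π / 2)) (D η n s (n + 2 * j + 1) (-(π / 2))) = 0)
    (h1 : 0 < max (D η n s (n + 2 * j + 1) (π / 2)) (D η n s (n + 2 * j + 1) (-(π / 2))))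
    (h2 : ∀ᶠ u in 𝓝[<] η,
      min (D u n s (n + 2 * j + 1) (π / 2)) (D u n s (n + 2 * j + 1) (-(π / 2))) < 0) : False := by
  set m := n + 2 * j + 1 with hmd
  obtain ⟨G, hG, hGe⟩ := P_contOn n s
  have cM := (D_cont_eta n s m (π / 2)).max (D_cont_eta n s m (-(π / 2)))
  have eM := (cM.tendsto η).eventually (lt_mem_nhds h1)
  have pz : D η n s m (π / 2) * D η n s m (-(π / 2)) = 0 := by
    rcases min_choice (D η n s m (π / 2)) (D η n s m (-(π / 2))) with h | h <;> rw [h] at h0 <;>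
      simp [h0]
  have hr : Rot η n s m := rot_iff_crit.2 pz.le
  have g0 : Pn η n s n = -1 := by have := P_eq pz; rw [P_odd] at this; linarith
  obtain ⟨a, ha, ha2⟩ := (mem_nhdsLT_iff_exists_Ioo_subset).1
    ((h2.and (eM.filter_mono nhdsWithin_le_nhds)).and (Ioo_mem_nhdsLT hη))
  have ha' : a < η := ha
  set η' := (a + η) / 2 with hη'
  have k1 : ∀ u ∈ Ico η' η, 0 < u ∧ Pn u n s n < -1 := by
    intro u hu
    obtain ⟨⟨b1, b2⟩, b3⟩ := ha2 (show u ∈ Ioo a η from ⟨by linarith [hu.1], hu.2⟩)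
    have := P_gt (mul_of_M b1 b2)
    rw [P_odd] at this
    exact ⟨b3.1, by linarith⟩
  have k0 := k1 η' ⟨le_rfl, by linarith⟩
  -- to the right of `η`, as long as the trace avoids the value `1`, we are right of the area
  have k2 : ∀ b, η < b → (∀ u ∈ Icc η b, Pn u n s n ≠ 1) →
      0 < D b n s m (π / 2) ∧ ¬ Rot b n s m := by
    intro b hb hz
    have nr : ∀ u ∈ Ioc η b, ¬ Rot u n s m := by
      intro u hu hru
      have c1 := hru.P_ge
      rw [P_odd] at c1
      have := P_three_lt n s k0.1 (η₂ := η) (by linarith) hu.1 (fun v hv => by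
        rcases lt_or_ge v η with h | h
        · linarith [(k1 v ⟨hv.1, h⟩).2]
        · exact hz v ⟨h, hv.2.trans hu.2⟩) k0.2 (by linarith)
      rw [g0] at this
      norm_num at this
    obtain ⟨u, hu, hu2⟩ := exists_right hb (eM.filter_mono nhdsWithin_le_nhds)
    have c2 := not_le.1 (mt rot_iff_crit.2 (nr u ⟨hu.1, hu.2.le⟩))
    have c3 : 0 < D u n s m (π / 2) := by
      rcases pos_and_pos_or_neg_and_neg_of_mul_pos c2 with h | h
      · exact h.1
      · exact absurd (max_lt h.1 h.2) (not_lt.2 hu2.le)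
    refine ⟨(same_sign (D_cont_eta n s m (π / 2)) fun v hv h => ?_).1 c3, nr b ⟨hb, le_rfl⟩⟩
    rw [uIcc_of_le hu.2.le] at hv
    exact nr v ⟨hu.1.trans_le hv.1, hv.2⟩ (rot_of_D h)
  set L := |(n : ℝ)| + |s| + η with hL
  have hL1 : η < L := by have := abs_pos.2 hs.ne'; have := abs_nonneg (n : ℝ); linarith
  by_cases hz : ∀ u ∈ Icc η L, Pn u n s n ≠ 1
  · obtain ⟨c1, c2⟩ := k2 L hL1 hz
    obtain ⟨x, hx⟩ := exists_low (η := L) (s := s) n m hm (by linarith)
    exact c2 (rot_iff_D.2 (intermediate_value_univ _ _ (D_cont_x _ _ _ _) ⟨hx, c1.le⟩))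
  push Not at hz
  obtain ⟨z, hz1, hz2⟩ := hz
  obtain ⟨c, c1, -, c3, c4⟩ := first_zero (f := fun u => G u - 1) (by fun_prop) hz1.1
    (by rw [hGe _ hη.ne', g0]; norm_num) (by rw [hGe _ (by linarith [hz1.1]), hz2]; norm_num)
  have c5 : ∀ u ∈ Ico η c, Pn u n s n < 1 := fun u hu => by
    have := c4 u hu
    rw [hGe _ (by linarith [hu.1])] at this
    linarith
  rw [hGe _ (by linarith)] at c3
  obtain ⟨i, d1, d2⟩ := zero_left (η := c) (by linarith) hs hn (by linarith)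
  have d3 : 0 ≤ D c n s m (π / 2) := by
    refine ge_of_tendsto (((D_cont_eta n s m (π / 2)).tendsto c).mono_left
      (nhdsWithin_le_nhds (s := Iio c))) ?_
    filter_upwards [Ioo_mem_nhdsLT c1] with u hu
    exact (k2 u hu.1 fun v hv => (c5 v ⟨hv.1, hv.2.trans_lt hu.2⟩).ne).1.le
  have d4 : m ≤ n + 2 * i := by exact_mod_cast d1.ge_of_D d3
  rcases d2 with d2 | d2
  · obtain ⟨u, h3, h4⟩ := (d2.and (Ioo_mem_nhdsLT c1)).exists
    linarith [c5 u ⟨h4.1.le, h4.2⟩]
  · obtain ⟨u, h3, h4⟩ := (d2.and (Ioo_mem_nhdsLT c1)).exists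
    have := (same_sign (D_cont_eta n s (n + 2 * i) (π / 2)) (a := η) (b := u) fun v hv h => by
      rw [uIcc_of_le h4.1.le] at hv
      have := (rot_of_D h).P_ge
      rw [P_even] at this
      linarith [c5 v ⟨hv.1, hv.2.trans_lt h4.2⟩]).2 h3
    have d5 : n + 2 * i ≤ m := by exact_mod_cast hr.ge_of_D this.le
    omega

theorem K_max_odd {n j : ℤ} (hη : 0 < η) (hs : 0 < s) (hn : 1 ≤ n) (hm : n + 2 * j + 1 < n)
    (h0 : max (D η n s (n + 2 * j + 1) (π / 2)) (D η n s (n + 2 * j + 1) (-(π / 2))) = 0)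
    (h2 : ∀ᶠ u in 𝓝[<] η,
      max (D u n s (n + 2 * j + 1) (π / 2)) (D u n s (n + 2 * j + 1) (-(π / 2))) < 0) : False := by
  set m := n + 2 * j + 1 with hmd
  obtain ⟨G, hG, hGe⟩ := P_contOn n s
  have cM := (D_cont_eta n s m (π / 2)).max (D_cont_eta n s m (-(π / 2)))
  have pz : ∀ u, max (D u n s m (π / 2)) (D u n s m (-(π / 2))) = 0 →
      D u n s m (π / 2) * D u n s m (-(π / 2)) = 0 := by
    intro u h0
    rcases max_choice (D u n s m (π / 2)) (D u n s m (-(π / 2))) with h | h <;> rw [h] at h0 <;>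
      simp [h0]
  have hr : Rot η n s m := rot_iff_crit.2 (pz η h0).le
  have g0 : ∀ u, max (D u n s m (π / 2)) (D u n s m (-(π / 2))) = 0 → Pn u n s n = -1 := by
    intro u h0
    have := P_eq (pz u h0); rw [P_odd] at this; linarith
  obtain ⟨-, b1, b2⟩ := P_pos (pz η h0).le
  have e1 := ((D_cont_eta n s m (π / 2)).abs.tendsto η).eventually (gt_mem_nhds b1)
  have e2 := ((D_cont_eta n s m (-(π / 2))).abs.tendsto η).eventually (gt_mem_nhds b2)
  obtain ⟨a, ha, ha2⟩ := (mem_nhdsLT_iff_exists_Ioo_subset).1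
    ((h2.and ((e1.and e2).filter_mono nhdsWithin_le_nhds)).and (Ioo_mem_nhdsLT hη))
  have ha' : a < η := ha
  set η' := (a + η) / 2 with hη'
  obtain ⟨⟨k1, k2, k3⟩, k4⟩ := ha2 (show η' ∈ Ioo a η from ⟨by linarith, by linarith⟩)
  have k5 := P_lt (mul_pos_of_neg_of_neg (max_lt_iff.1 k1).1 (max_lt_iff.1 k1).2)
    (by linarith [pi_pos]) (by linarith [pi_pos])
  rw [P_odd, abs_neg, abs_lt] at k5
  have small : 0 ≤ max (D (min η' 1) n s m (π / 2)) (D (min η' 1) n s m (-(π / 2))) := by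
    refine le_max_of_le_left ?_
    have := (abs_le.1 (D_crude (min η' 1) n s m (π / 2))).1
    rw [abs_of_pos (lt_min k4.1 one_pos)] at this
    have h3 : (m : ℝ) + 1 ≤ n := by exact_mod_cast hm
    nlinarith [min_le_right η' 1, pi_pos]
  obtain ⟨b, b3, b4, b5, b6⟩ := last_zero cM (min_le_left η' 1) small k1
  have b0 : 0 < b := (lt_min k4.1 one_pos).trans_le b3
  obtain ⟨z, hz1, hz2⟩ : ∃ z ∈ Icc b η, Pn z n s n = 1 := by
    by_contra hn'
    push Not at hn'
    have := P_three_le n s b0 b4 k4.2 hn' (g0 b b5).le (g0 η h0).le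
    rw [abs_of_neg (by linarith)] at this
    linarith
  obtain ⟨c, c1, c2, c3, c4⟩ := last_zero (f := fun u => G u - 1) (by fun_prop) hz1.2
    (by rw [hGe _ (by linarith [hz1.1]), hz2]; norm_num)
    (by rw [hGe _ hη.ne', g0 η h0]; norm_num)
  have c0 : 0 < c := by linarith [hz1.1]
  have c5 : ∀ u ∈ Ioc c η, Pn u n s n < 1 := fun u hu => by
    have := c4 u hu
    rw [hGe _ (by linarith [hu.1])] at this
    linarith
  rw [hGe _ c0.ne'] at c3
  obtain ⟨i, d1, d2⟩ := zero_right c0 hs hn (by linarith)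
  have d3 : D c n s m (π / 2) ≤ 0 := by
    refine (le_max_left _ (D c n s m (-(π / 2)))).trans ?_
    rcases (hz1.1.trans c1).lt_or_eq with h | h
    · rcases le_or_gt c η' with h' | h'
      · exact (b6 c ⟨h, h'⟩).le
      · exact (ha2 (show c ∈ Ioo a η from ⟨by linarith, c2⟩)).1.1.le
    · rw [← h]; exact b5.le
  have d4 : n + 2 * i ≤ m := by exact_mod_cast d1.le_of_D d3
  rcases d2 with d2 | d2 | d2
  · omega
  · obtain ⟨u, h3, h4⟩ := (d2.and (Ioo_mem_nhdsGT c2)).exists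
    linarith [c5 u ⟨h4.1, h4.2.le⟩]
  · obtain ⟨u, h3, h4⟩ := (d2.and (Ioo_mem_nhdsGT c2)).exists
    have := mt (same_sign (D_cont_eta n s (n + 2 * i) (π / 2)) (a := u) (b := η) fun v hv h => by
      rw [uIcc_of_le h4.2.le] at hv
      have := (rot_of_D h).P_ge
      rw [P_even] at this
      linarith [c5 v ⟨h4.1.trans_le hv.1, hv.2⟩]).2 (not_lt.2 h3.le)
    have d5 : m ≤ n + 2 * i := by exact_mod_cast hr.le_of_D (not_lt.1 this)
    omega

/-- the defining function of the right (`true`) or left (`false`) boundary -/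
noncomputable def Fb (σ : Bool) (m : ℤ) (η l s : ℝ) : ℝ :=
  if σ then min (D η l s m (π / 2)) (D η l s m (-(π / 2)))
  else max (D η l s m (π / 2)) (D η l s m (-(π / 2)))

theorem Fb_zero {σ : Bool} {m : ℤ} (h : Fb σ m η l s = 0) :
    D η l s m (π / 2) = 0 ∨ D η l s m (-(π / 2)) = 0 := by
  cases σ <;> simp only [Fb, Bool.false_eq_true, if_false, if_true] at h
  · rcases max_choice (D η l s m (π / 2)) (D η l s m (-(π / 2))) with h1 | h1 <;> rw [h1] at h
    exacts [Or.inl h, Or.inr h]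
  · rcases min_choice (D η l s m (π / 2)) (D η l s m (-(π / 2))) with h1 | h1 <;> rw [h1] at h
    exacts [Or.inl h, Or.inr h]

theorem Fb_cont {X : Type} [TopologicalSpace X] {fη fl fs : X → ℝ} (hη : Continuous fη)
    (hl : Continuous fl) (hs : Continuous fs) (σ : Bool) (m : ℤ) :
    Continuous fun p => Fb σ m (fη p) (fl p) (fs p) := by
  cases σ <;> simp only [Fb, Bool.false_eq_true, if_false, if_true]
  · exact (D_cont hη hl hs continuous_const m).max (D_cont hη hl hs continuous_const m)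
  · exact (D_cont hη hl hs continuous_const m).min (D_cont hη hl hs continuous_const m)

theorem Fb_lt {l' : ℝ} (h : l < l') (σ : Bool) (m : ℤ) : Fb σ m η l s < Fb σ m η l' s := by
  cases σ <;> simp only [Fb, Bool.false_eq_true, if_false, if_true]
  · exact max_lt_max (D_lt_of_lt h _ _) (D_lt_of_lt h _ _)
  · exact min_lt_min (D_lt_of_lt h _ _) (D_lt_of_lt h _ _)

/-- boundary curves cross a higher axis in one direction only when `η` varies -/
theorem K_all {σ : Bool} {n m : ℤ} (hη : 0 < η) (hs : 0 < s) (hm : 0 ≤ m) (hmn : m < n)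
    (h0 : Fb σ m η n s = 0) (h2 : ∀ᶠ u in 𝓝[<] η, Fb σ m u n s < 0) : False := by
  have hz := Fb_zero h0
  have nc : ¬ (D η n s m (π / 2) = 0 ∧ D η n s m (-(π / 2)) = 0) := fun h => by
    have := (constr hη hs (by exact_mod_cast (by omega : 0 ≤ n)) (both_zero h.1 h.2)).1
    have : n = m := by exact_mod_cast this
    omega
  obtain ⟨j, hj | hj⟩ := Int.even_or_odd' (m - n)
  · obtain rfl : m = n + 2 * j := by omega
    rcases zero_pic hη hs (by omega) hz with h1 | ⟨p, q, hq, q0, p0, h3, h4⟩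
    · have := rot_uniq (hz.elim rot_of_D rot_of_D) (rot_of_D (h1 0))
      omega
    have e : ∀ u, Fb σ (n + 2 * j) u n s = if σ then min (p u) (q u) else max (p u) (q u) := by
      intro u
      rcases h4 with h4 | h4 <;> simp only [Fb, h4]
      rw [min_comm, max_comm]
    simp only [e] at h0 h2
    cases σ <;> simp only [Bool.false_eq_true, if_false, if_true] at h0 h2
    · obtain ⟨u, a1, a2⟩ := (h2.and (ev_left h3)).exists
      linarith [le_max_left (p u) (q u)]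
    · have q1 : 0 < q η := lt_of_le_of_ne (h0 ▸ min_le_right _ _) q0.symm
      obtain ⟨u, ⟨a1, a2⟩, a3⟩ := ((h2.and (ev_left h3)).and
        (((hq.tendsto η).eventually (lt_mem_nhds q1)).filter_mono nhdsWithin_le_nhds)).exists
      linarith [lt_min a2 a3]
  · obtain rfl : m = n + 2 * j + 1 := by omega
    cases σ <;> simp only [Fb, Bool.false_eq_true, if_false, if_true] at h0 h2
    · exact K_max_odd hη hs (by omega) hmn h0 h2
    · refine K_min_odd hη hs (by omega) hm h0 ?_ h2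
      by_contra hn
      push Not at hn
      exact nc ⟨le_antisymm ((le_max_left _ _).trans hn) (h0 ▸ min_le_left _ _),
        le_antisymm ((le_max_right _ _).trans hn) (h0 ▸ min_le_right _ _)⟩

theorem not_const {σ : Bool} {n m : ℤ} (hη : 0 < η) (hn : 1 ≤ n)
    (h : ∀ᶠ s' in 𝓝 s, Fb σ m η n s' = 0) : False := by
  obtain ⟨c, hc, hc2⟩ : ∃ c : ℝ, c ≤ 1 ∧ ∀ᶠ s' in 𝓝 s, Pn η n s' n = c := by
    have e : ∀ᶠ s' in 𝓝 s, Pn η n s' m = 1 := h.mono fun s' h1 => P_eq (by
      rcases Fb_zero h1 with h | h <;> simp [h])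
    obtain ⟨j, hj | hj⟩ := Int.even_or_odd' (m - n)
    · obtain rfl : m = n + 2 * j := by omega
      exact ⟨1, le_rfl, by simpa only [P_even] using e⟩
    · obtain rfl : m = n + 2 * j + 1 := by omega
      exact ⟨-1, by norm_num, e.mono fun s' h1 => by rw [P_odd] at h1; linarith⟩
  have := ((TR_diff2 n ((η ^ 2 / 4 : ℝ) : ℂ)).differentiableOn.analyticOnNhd
    isOpen_univ).eq_of_frequently_eq (analyticOnNhd_const (v := ((2 * c : ℝ) : ℂ))) (z₀ := (s : ℂ))
    (freq_real (hc2.mono fun t ht => by rw [TR_real n hη.ne', ht]))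
  obtain ⟨t, -, -, -, -, h3, h4⟩ := axis hη hn
  obtain ⟨u, hu, hu2⟩ := exists_right (lt_add_one t)
    ((((Mn_cont η n).tendsto t).eventually (gt_mem_nhds h3)).filter_mono nhdsWithin_le_nhds)
  rcases h4 u hu.1 with h5 | h5
  · simp [Mn, h5] at hu2
  · have h6 := congrFun this u
    simp only [TR_real n hη.ne', Complex.ofReal_inj] at h6
    linarith [P_gt (mul_of_M h5.1 h5.2)]

theorem persist {n : ℤ} {x δ : ℝ} (hδ : 0 < δ) (h : D η n s n x = 0)
    (hE : Cs (sol η n s x) (2 * π) = 0) (hc : cq η (sol η n s x) ≠ 0) :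
    ∀ᶠ u in 𝓝 η, ∃ s', |s' - s| < δ ∧ D u n s' n x = 0 := by
  have h1 := D_sign h hE hc
  obtain ⟨a, ha, ha2⟩ := exists_left (a := s - δ) (by linarith) h1
  obtain ⟨b, hb, hb2⟩ := exists_right (b := s + δ) (by linarith) h1
  have h2 : D η n a n x * D η n b n x < 0 := by
    have h3 := mul_pos ha2 hb2
    have h4 : 0 < cq η (sol η n s x) ^ 2 * ((s - a) * (b - s)) := by
      have := ha.2; have := hb.1
      exact mul_pos (by positivity) (mul_pos (by linarith) (by linarith))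
    nlinarith
  filter_upwards [(((D_cont_eta n a n x).mul (D_cont_eta n b n x)).tendsto η).eventually
    (gt_mem_nhds h2)] with u hu
  obtain ⟨c, hc1, hc2⟩ := intermediate_value_uIcc (a := a) (b := b) (D_cont_s u n n x).continuousOn
    (show (0 : ℝ) ∈ uIcc _ _ from mem_uIcc.2 (by
      rcases mul_neg_iff.1 hu with h | h
      exacts [Or.inr ⟨h.2.le, h.1.le⟩, Or.inl ⟨h.1.le, h.2.le⟩]))
  rw [uIcc_of_le (by linarith [ha.2, hb.1])] at hc1
  exact ⟨c, abs_lt.2 ⟨by linarith [ha.1, hc1.1], by linarith [hb.2, hc1.2]⟩, hc2⟩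

theorem no_tang {σ : Bool} {n m : ℤ} {δ : ℝ} (hη : 0 < η) (hs : 0 < s) (hn : 1 ≤ n) (hm : 0 ≤ m)
    (hδ : 0 < δ) (h1 : Fb σ m η n s = 0) (h2 : ∀ᶠ s' in 𝓝 s, Fb σ m η n s' ≤ 0)
    (h3 : ∀ u ∈ Ioo (η - δ) η, ∀ s', |s' - s| < δ → Fb σ m u n s' ≠ 0) : False := by
  have hr : Rot η n s m := (Fb_zero h1).elim rot_of_D rot_of_D
  have hle : m ≤ n := by exact_mod_cast hr.le_axis hη (m := n) (by omega) le_rfl
  have hI : ∀ᶠ u in 𝓝[<] η, u ∈ Ioo (η - δ) η := Ioo_mem_nhdsLT (by linarith)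
  rcases hle.lt_or_eq with hlt | rfl
  · have cu : ∀ s', Continuous fun u => Fb σ m u n s' := fun s' =>
      Fb_cont continuous_id continuous_const continuous_const σ m
    have k1 : ∀ u ∈ Ioo (η - δ) η, 0 < Fb σ m u n s := by
      intro u hu
      by_contra hn'
      refine K_all hη hs hm hlt h1 (hI.mono fun v hv => ?_)
      refine lt_of_le_of_ne (not_lt.1 (mt (same_sign (cu s) (a := u) (b := v) fun w hw => ?_).2 hn'))
        (h3 v hv s (by simpa using hδ))
      exact h3 w (ordConnected_Ioo.uIcc_subset hu hv hw) s (by simpa using hδ)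
    refine not_const (σ := σ) (m := m) (s := s) hη hn ?_
    have e1 : ∀ᶠ s' in 𝓝 s, |s' - s| < δ := by
      filter_upwards [Metric.ball_mem_nhds s hδ] with s' h using h
    filter_upwards [h2, e1] with s' a1 a2
    by_contra a3
    obtain ⟨u, b1, b2⟩ := (hI.and ((((cu s').tendsto η).eventually
      (gt_mem_nhds (lt_of_le_of_ne a1 a3))).filter_mono nhdsWithin_le_nhds)).exists
    have := (same_sign (Fb_cont continuous_const continuous_const continuous_id σ m) (a := s)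
      (b := s') fun w hw => h3 u b1 w ((abs_sub_left_of_mem_uIcc hw).trans_lt a2)).1 (k1 u b1)
    exact lt_asymm this b2
  have hm' : (0 : ℝ) ≤ m := by exact_mod_cast hm
  by_cases hc : ∀ y, D η m s m y = 0
  · obtain ⟨-, -, c3⟩ := constr hη hs hm' hc
    have p1 := persist (lt_min hδ hs) (hc _) (Cs_sym_zero sym_p (hc _)) (left_ne_zero_of_mul c3.ne)
    have p2 := persist (lt_min hδ hs) (hc _) (Cs_sym_zero sym_m (hc _)) (right_ne_zero_of_mul c3.ne)
    obtain ⟨u, ⟨hu, hu0⟩, ⟨a, a1, a2⟩, ⟨b, b1, b2⟩⟩ := ((hI.and (Ioo_mem_nhdsLT hη)).and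
      ((p1.and p2).filter_mono nhdsWithin_le_nhds)).exists
    rw [lt_min_iff] at a1 b1
    have a0 : 0 < a := by linarith [abs_lt.1 a1.2]
    have b0 : 0 < b := by linarith [abs_lt.1 b1.2]
    rcases classify hu0.1 a0 hm sym_p a2 with c1 | c1
    · exact h3 u hu a a1.1 (by simp [Fb, c1])
    rcases classify hu0.1 b0 hm sym_m b2 with c2 | c2
    · exact h3 u hu b b1.1 (by simp [Fb, c2])
    rw [← c1.unique hu0.1 a0 b0 c2] at b2
    exact h3 u hu a a1.1 (by simp [Fb, a2, b2])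
  obtain ⟨t, -, -, t1, t2, t3, t4⟩ := axis hη hn
  rcases lt_trichotomy s t with h | h | h
  · have := max_lt_iff.1 (t1 s ⟨hs.le, h⟩)
    rcases Fb_zero h1 with h | h <;> linarith [this.1, this.2]
  · subst h
    cases σ <;> simp only [Fb, Bool.false_eq_true, if_false, if_true] at h1 h2
    · obtain ⟨u, hu, hu2, hu3⟩ := exists_right (lt_add_one s) ((h2.and
        (((Mn_cont η m).tendsto s).eventually (gt_mem_nhds t3))).filter_mono nhdsWithin_le_nhds)
      rcases t4 u hu.1 with h5 | h5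
      · simp [Mn, h5] at hu3
      · exact absurd h5.2 (not_lt.2 hu2)
    · exact t3.ne h1
  · rcases t4 s h with h5 | h5
    · exact hc h5
    · have := mul_of_M h5.1 h5.2
      rcases Fb_zero h1 with h | h <;> simp [h] at this

theorem bd_iff {σ : Bool} {m : ℤ} {c : ℝ} (hc : c = if σ then 1 else -1) :
    (Rot η l s m ∧ ∀ l', 0 < c * (l' - l) → ¬ Rot η l' s m) ↔ Fb σ m η l s = 0 := by
  have cl : ∀ σ, Continuous fun u => Fb σ m η u s := fun σ =>
    Fb_cont continuous_const continuous_id continuous_const σ m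
  have cr : ∀ l, Rot η l s m ↔ Fb true m η l s ≤ 0 ∧ 0 ≤ Fb false m η l s := by
    intro l
    simp only [rot_iff_crit, Fb, Bool.false_eq_true, if_false, if_true, min_le_iff, le_max_iff,
      mul_nonpos_iff]
    constructor
    · tauto
    · rintro ⟨h1 | h1, h2 | h2⟩
      · rcases le_total 0 (D η l s m (-(π / 2))) with h | h <;> tauto
      · tauto
      · tauto
      · rcases le_total 0 (D η l s m (π / 2)) with h | h <;> tauto
  simp only [cr]
  have tf : Fb true m η l s ≤ Fb false m η l s := by simpa [Fb] using min_le_max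
  cases σ <;> simp only [Bool.false_eq_true, if_false, if_true] at hc <;> subst hc
  · constructor
    · rintro ⟨⟨h1, h2⟩, h3⟩
      by_contra hn
      obtain ⟨u, hu, hu2⟩ := exists_left (sub_one_lt l) ((((cl false).tendsto l).eventually
        (lt_mem_nhds (lt_of_le_of_ne h2 (Ne.symm hn)))).filter_mono nhdsWithin_le_nhds)
      exact h3 u (by linarith [hu.2]) ⟨((Fb_lt hu.2 _ _).le.trans h1), hu2.le⟩
    · intro h
      exact ⟨⟨tf.trans h.le, h.ge⟩, fun l' h1 h2 => by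
        linarith [Fb_lt (η := η) (s := s) (show l' < l by linarith) false m, h2.2]⟩
  · constructor
    · rintro ⟨⟨h1, h2⟩, h3⟩
      by_contra hn
      obtain ⟨u, hu, hu2⟩ := exists_right (lt_add_one l) ((((cl true).tendsto l).eventually
        (gt_mem_nhds (lt_of_le_of_ne h1 hn))).filter_mono nhdsWithin_le_nhds)
      exact h3 u (by linarith [hu.1]) ⟨hu2.le, h2.trans (Fb_lt hu.1 _ _).le⟩
    · intro h
      exact ⟨⟨h.le, h.ge.trans tf⟩, fun l' h1 h2 => by
        linarith [Fb_lt (η := η) (s := s) (show l < l' by linarith) true m, h2.1]⟩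

theorem bd_orig {σ : Bool} {m : ℤ} {c ω B A : ℝ} (hω : 0 < ω) (hc : c = if σ then 1 else -1) :
    (Rot ω⁻¹ (B / ω) (A / ω) m ∧ ∀ B', 0 < c * (B' - B) → ¬ Rot ω⁻¹ (B' / ω) (A / ω) m)
      ↔ Fb σ m ω⁻¹ (B / ω) (A / ω) = 0 := by
  rw [← bd_iff hc]
  refine and_congr_right fun _ => ⟨fun h l' hl' => ?_, fun h B' hB' => h _ ?_⟩
  · have := h (l' * ω) (by
      rw [show c * (l' * ω - B) = c * (l' - B / ω) * ω by field_simp]; positivity)
    rwa [mul_div_cancel_right₀ _ hω.ne'] at this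
  · rw [← sub_div, ← mul_div_assoc]; positivity

theorem no_tang_orig {σ : Bool} {n m : ℤ} {ω₀ A₀ ε ε' δ : ℝ} (hω : 0 < ω₀) (hA : 0 < A₀)
    (hn : 1 ≤ n) (hm : 0 ≤ m) (hε : 0 < ε) (hε' : 0 < ε') (hδ : 0 < δ)
    (h1 : Fb σ m ω₀⁻¹ (n * ω₀ / ω₀) (A₀ / ω₀) = 0)
    (h2 : ∀ B A, |B - n * ω₀| < ε → |A - A₀| < ε → Fb σ m ω₀⁻¹ (B / ω₀) (A / ω₀) = 0 → n * ω₀ ≤ B)
    (h3 : ∀ ω A, ω₀ < ω → ω < ω₀ + δ → |n * ω - n * ω₀| < ε' → |A - A₀| < ε' →
      Fb σ m ω⁻¹ (n * ω / ω) (A / ω) ≠ 0) : False := by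
  rw [mul_div_cancel_right₀ _ hω.ne'] at h1
  have hη := inv_pos.2 hω
  have c1 : ContinuousAt (fun z : ℝ × ℝ => z.1⁻¹) (ω₀⁻¹, A₀ / ω₀) :=
    continuousAt_fst.inv₀ hη.ne'
  have v1 : A₀ / ω₀ * ω₀⁻¹⁻¹ = A₀ := by field_simp
  have e1 := c1.eventually (gt_mem_nhds (show ω₀⁻¹⁻¹ < ω₀ + δ by rw [inv_inv]; linarith))
  have e2 := ((c1.const_mul (n : ℝ)).sub continuousAt_const (g := fun _ => n * ω₀)).abs.eventually
    (gt_mem_nhds (show |n * ω₀⁻¹⁻¹ - n * ω₀| < ε' by simpa using hε'))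
  have e3 := ((continuousAt_snd.mul c1).sub continuousAt_const (g := fun _ => A₀)).abs.eventually
    (gt_mem_nhds (show |A₀ / ω₀ * ω₀⁻¹⁻¹ - A₀| < ε' by rw [v1]; simpa using hε'))
  have e4 := (continuousAt_fst (p := (ω₀⁻¹, A₀ / ω₀))).eventually (lt_mem_nhds hη)
  obtain ⟨d, hd, hd2⟩ := Metric.eventually_nhds_iff.1 ((e1.and e2).and (e3.and e4))
  refine no_tang hη (div_pos hA hω) hn hm hd h1 ?_ fun u hu s' hs' => ?_
  · have k1 : Fb σ m ω₀⁻¹ (n - ε / (2 * ω₀)) (A₀ / ω₀) < 0 := by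
      rw [← h1]
      exact Fb_lt (by linarith [div_pos hε (mul_pos two_pos hω)]) σ m
    have e5 : ∀ᶠ s' in 𝓝 (A₀ / ω₀), |s' - A₀ / ω₀| < ε / ω₀ := by
      filter_upwards [Metric.ball_mem_nhds _ (div_pos hε hω)] with s' h using h
    filter_upwards [((Fb_cont continuous_const continuous_const continuous_id σ m).tendsto
      (A₀ / ω₀)).eventually (gt_mem_nhds k1), e5] with s' a1 a2
    by_contra a3
    push Not at a3
    obtain ⟨l', b1, b2⟩ := intermediate_value_Ioo (a := n - ε / (2 * ω₀)) (b := n)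
      (by linarith [div_pos hε (mul_pos two_pos hω)])
      (Fb_cont continuous_const continuous_id continuous_const σ m).continuousOn ⟨a1, a3⟩
    have b3 := mul_lt_mul_of_pos_right b1.1 hω
    have b4 := mul_lt_mul_of_pos_right b1.2 hω
    rw [show (n - ε / (2 * ω₀)) * ω₀ = n * ω₀ - ε / 2 by field_simp] at b3
    have := h2 (l' * ω₀) (s' * ω₀) (abs_lt.2 ⟨by linarith, by linarith⟩) (by
      rw [show s' * ω₀ - A₀ = (s' - A₀ / ω₀) * ω₀ by field_simp, abs_mul, abs_of_pos hω]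
      rwa [lt_div_iff₀ hω] at a2) (by
      rw [mul_div_cancel_right₀ _ hω.ne', mul_div_cancel_right₀ _ hω.ne']; exact b2)
    linarith
  · obtain ⟨⟨a1, a2⟩, a3, a4⟩ := hd2 (y := (u, s')) (by
      rw [Prod.dist_eq, max_lt_iff, Real.dist_eq, Real.dist_eq]
      exact ⟨abs_lt.2 ⟨by linarith [hu.1], by linarith [hu.2]⟩, hs'⟩)
    have := h3 u⁻¹ (s' * u⁻¹) ((lt_inv_comm₀ hω a4).2 hu.2) a1 a2 a3
    rwa [inv_inv, mul_div_cancel_right₀ _ (inv_pos.2 a4).ne',
      mul_div_cancel_right₀ _ (inv_pos.2 a4).ne'] at this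

end Pool.Agent.H364Z
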