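import Pool.Agent.H364Z.Cx
import Pool.Agent.H364Z.LP

set_option autoImplicit false

open Set Filter Topology Complex ComplexConjugate
open scoped Real

namespace Pool.Agent.H364Z

/-- the linear system with complex parameters `p = (α, s)` and `β` -/
noncomputable def vg (l : ℝ) (β : ℂ) (p : ℂ × ℂ) (τ : ℝ) (y : ℂ × ℂ) : ℂ × ℂ :=
  (-I * (l + p.2 * Real.cos τ) * y.1 + p.1 * y.2, β * y.1)

theorem vg_norm (l : ℝ) (β : ℂ) (p : ℂ × ℂ) (τ : ℝ) (y : ℂ × ℂ) :
    ‖vg l β p τ y‖ ≤ (|l| + ‖β‖ + (‖p.1‖ + ‖p.2‖)) * ‖y‖ := by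
  have h1 := norm_fst_le y
  have h2 := norm_snd_le y
  have h3 : ‖(l + p.2 * Real.cos τ : ℂ)‖ ≤ |l| + ‖p.2‖ := by
    refine (norm_add_le _ _).trans ?_
    rw [norm_mul, norm_real, norm_real, Real.norm_eq_abs, Real.norm_eq_abs]
    have := mul_le_of_le_one_right (norm_nonneg p.2) (Real.abs_cos_le_one τ)
    linarith
  rw [vg, Prod.norm_mk]
  have k1 := mul_le_mul h3 h1 (norm_nonneg _) (by positivity)
  have k2 := mul_le_mul_of_nonneg_left h2 (norm_nonneg p.1)
  have k3 := mul_le_mul_of_nonneg_left h1 (norm_nonneg β)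
  apply max_le
  · refine (norm_add_le _ _).trans ?_
    rw [norm_mul, norm_mul, norm_mul, norm_neg, norm_I, one_mul]
    have : 0 ≤ ‖β‖ * ‖y‖ := by positivity
    linarith
  · rw [norm_mul]
    have : 0 ≤ (|l| + (‖p.1‖ + ‖p.2‖)) * ‖y‖ := by positivity
    linarith

theorem vg_lip (l : ℝ) (β : ℂ) (p : ℂ × ℂ) {K : ℝ} (hK : |l| + ‖β‖ + (‖p.1‖ + ‖p.2‖) ≤ K) (τ : ℝ) :
    LipschitzWith (Real.nnabs K) (vg l β p τ) := by
  apply LipschitzWith.of_dist_le_mul
  intro x y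
  have e : vg l β p τ x - vg l β p τ y = vg l β p τ (x - y) := by
    simp only [vg, Prod.mk_sub_mk, Prod.fst_sub, Prod.snd_sub, Prod.mk.injEq]
    constructor <;> ring
  rw [dist_eq_norm, dist_eq_norm, e, Real.coe_nnabs]
  exact (vg_norm _ _ _ _ _).trans (mul_le_mul_of_nonneg_right (hK.trans (le_abs_self _))
    (norm_nonneg _))

def IsZ (l : ℝ) (β : ℂ) (p : ℂ × ℂ) (y : ℝ → ℂ × ℂ) : Prop :=
  ∀ τ, HasDerivAt y (vg l β p τ (y τ)) τ

variable {l : ℝ} {β : ℂ} {p : ℂ × ℂ} {y y' : ℝ → ℂ × ℂ}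

theorem IsZ.d1 (h : IsZ l β p y) (τ : ℝ) : HasDerivAt (fun τ => (y τ).1)
    (-I * (l + p.2 * Real.cos τ) * (y τ).1 + p.1 * (y τ).2) τ :=
  (ContinuousLinearMap.fst ℝ ℂ ℂ).hasFDerivAt.comp_hasDerivAt τ (h τ)

theorem IsZ.d2 (h : IsZ l β p y) (τ : ℝ) : HasDerivAt (fun τ => (y τ).2) (β * (y τ).1) τ :=
  (ContinuousLinearMap.snd ℝ ℂ ℂ).hasFDerivAt.comp_hasDerivAt τ (h τ)

theorem IsZ.cont (h : IsZ l β p y) : Continuous y :=
  continuous_iff_continuousAt.2 fun t => (h t).continuousAt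

theorem IsZ.unique (h : IsZ l β p y) (h' : IsZ l β p y') (h0 : y 0 = y' 0) : y = y' :=
  ODE_solution_unique_univ (v := vg l β p) (s := fun _ => univ) (t₀ := 0)
    (fun t => (vg_lip l β p le_rfl t).lipschitzOnWith) (fun t => ⟨h t, mem_univ _⟩)
    (fun t => ⟨h' t, mem_univ _⟩) h0

theorem IsZ.comb (h : IsZ l β p y) (h' : IsZ l β p y') (P R : ℂ) :
    IsZ l β p fun τ => (P * (y τ).1 + R * (y' τ).1, P * (y τ).2 + R * (y' τ).2) := by
  intro τ
  refine ((((h.d1 τ).const_mul P).add ((h'.d1 τ).const_mul R)).prodMk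
    (((h.d2 τ).const_mul P).add ((h'.d2 τ).const_mul R))).congr_deriv ?_
  simp only [vg, Prod.mk.injEq]
  constructor <;> ring

theorem IsZ.shift (h : IsZ l β p y) : IsZ l β p fun τ => y (τ + 2 * π) := by
  intro τ
  have h1 := (h (τ + 2 * π)).comp_add_const τ (2 * π)
  simpa only [vg, Real.cos_add_two_pi] using h1

theorem IsZ.scale (h : IsZ l β p y) {c : ℂ} (hc : c ≠ 0) (d : ℂ) :
    IsZ l (c * β) (p.1 / c, p.2) fun τ => (d * (y τ).1, d * (c * (y τ).2)) := by
  intro τ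
  refine (((h.d1 τ).const_mul d).prodMk (((h.d2 τ).const_mul c).const_mul d)).congr_deriv ?_
  simp only [vg, Prod.mk.injEq]
  constructor
  · field_simp
  · ring

theorem IsZ.bound (h : IsZ l β p y) :
    ‖y (2 * π)‖ ≤ ‖y 0‖ * Real.exp ((|l| + ‖β‖ + (‖p.1‖ + ‖p.2‖)) * (2 * π)) := by
  have := norm_le_gronwallBound_of_norm_deriv_right_le (a := 0) (b := 2 * π) (ε := 0)
    h.cont.continuousOn (fun x _ => (h x).hasDerivWithinAt) le_rfl
    (fun x _ => by rw [add_zero]; exact vg_norm _ _ _ _ _) _ two_pi_mem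
  rwa [gronwallBound_ε0, sub_zero] at this

theorem exists_Z (l : ℝ) (β : ℂ) (v p : ℂ × ℂ) : ∃ y : ℝ → ℂ × ℂ, y 0 = v ∧ IsZ l β p y :=
  Haraux.global_ode (vg l β p) _ (vg_lip l β p le_rfl) (by unfold Function.uncurry vg; fun_prop) _

noncomputable def Z (l : ℝ) (β : ℂ) (v p : ℂ × ℂ) : ℝ → ℂ × ℂ := (exists_Z l β v p).choose

theorem Z_zero (l : ℝ) (β : ℂ) (v p : ℂ × ℂ) : Z l β v p 0 = v := (exists_Z l β v p).choose_spec.1

theorem Z_isZ (l : ℝ) (β : ℂ) (v p : ℂ × ℂ) : IsZ l β p (Z l β v p) :=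
  (exists_Z l β v p).choose_spec.2

theorem Z_est (l : ℝ) (β : ℂ) (v q : ℂ × ℂ) : ∃ g : ℝ → ℝ, Continuous g ∧ g 0 = 0 ∧
    ∀ p, ‖p - q‖ ≤ 1 → ∀ τ ∈ Icc 0 (2 * π), ‖Z l β v p τ - Z l β v q τ‖ ≤ g ‖p - q‖ := by
  obtain ⟨M, hM⟩ := (isCompact_Icc (a := 0) (b := 2 * π)).exists_bound_of_continuousOn
    (Z_isZ l β v q).cont.continuousOn
  have hM0 : 0 ≤ M := (norm_nonneg _).trans (hM 0 ⟨le_rfl, by positivity⟩)
  refine ⟨fun r => gronwallBound 0 (Real.nnabs (|l| + ‖β‖ + 2 * (‖q‖ + 1))) (0 + 2 * r * M) (2 * π),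
    (gronwallBound_continuous_ε _ _ _).comp (by fun_prop), by simp [gronwallBound_ε0_δ0],
    fun p hp τ hτ => ?_⟩
  have hK : |l| + ‖β‖ + (‖p.1‖ + ‖p.2‖) ≤ |l| + ‖β‖ + 2 * (‖q‖ + 1) := by
    have := norm_le_insert' p q
    linarith [norm_fst_le p, norm_snd_le p]
  have h := dist_le_of_approx_trajectories_ODE (vg_lip l β p hK) (a := 0) (b := 2 * π)
    (εf := 0) (εg := 2 * ‖p - q‖ * M) (δ := 0)
    (Z_isZ l β v p).cont.continuousOn (fun t _ => (Z_isZ l β v p t).hasDerivWithinAt)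
    (fun t _ => by simp)
    (Z_isZ l β v q).cont.continuousOn (fun t _ => (Z_isZ l β v q t).hasDerivWithinAt)
    (fun t ht => by
      have e : vg l β p t (Z l β v q t) - vg l β q t (Z l β v q t)
          = vg 0 0 (p - q) t (Z l β v q t) := by
        simp only [vg, Prod.mk_sub_mk, Prod.fst_sub, Prod.snd_sub, Prod.mk.injEq, ofReal_zero]
        constructor <;> ring
      rw [dist_comm, dist_eq_norm, e]
      refine (vg_norm _ _ _ _ _).trans ?_
      rw [abs_zero, zero_add, norm_zero, zero_add]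
      exact mul_le_mul (by linarith [norm_fst_le (p - q), norm_snd_le (p - q)])
        (hM t (Ico_subset_Icc_self ht)) (norm_nonneg _) (by positivity))
    (by simp [Z_zero]) τ hτ
  rw [dist_eq_norm, sub_zero] at h
  exact h.trans (gronwallBound_mono le_rfl (by positivity) (by positivity) hτ.2)

theorem Z_cont (l : ℝ) (β : ℂ) (v : ℂ × ℂ) :
    Continuous fun z : (ℂ × ℂ) × ℝ => Z l β v z.1 (cl z.2) := by
  rw [continuous_iff_continuousAt]
  rintro ⟨q, τ₀⟩
  obtain ⟨g, g1, g2, g3⟩ := Z_est l β v q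
  have c0 : Continuous cl := by unfold cl; fun_prop
  have c1 := (Z_isZ l β v q).cont
  rw [ContinuousAt, tendsto_iff_norm_sub_tendsto_zero]
  have hb : Tendsto (fun z : (ℂ × ℂ) × ℝ =>
      g ‖z.1 - q‖ + ‖Z l β v q (cl z.2) - Z l β v q (cl τ₀)‖) (𝓝 (q, τ₀)) (𝓝 0) := by
    have : Continuous fun z : (ℂ × ℂ) × ℝ =>
      g ‖z.1 - q‖ + ‖Z l β v q (cl z.2) - Z l β v q (cl τ₀)‖ := by fun_prop
    simpa [g2] using this.tendsto (q, τ₀)
  refine squeeze_zero' (Eventually.of_forall fun _ => norm_nonneg _) ?_ hb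
  have : Tendsto (fun z : (ℂ × ℂ) × ℝ => ‖z.1 - q‖) (𝓝 (q, τ₀)) (𝓝 0) := by
    have : Continuous fun z : (ℂ × ℂ) × ℝ => ‖z.1 - q‖ := by fun_prop
    simpa using this.tendsto (q, τ₀)
  filter_upwards [this.eventually (ge_mem_nhds one_pos)] with z hz
  exact (norm_sub_le_norm_sub_add_norm_sub _ _ _).trans (add_le_add_left (g3 _ hz _ (cl_mem _)) _)

/-- the Wronskian of solutions with different parameters -/
noncomputable def Wr (l : ℝ) (β : ℂ) (v w q p : ℂ × ℂ) : ℂ :=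
  (Z l β v q (2 * π)).2 * (Z l β w p (2 * π)).1 - (Z l β v q (2 * π)).1 * (Z l β w p (2 * π)).2

theorem Wr_eq (n : ℤ) (β : ℂ) (v w q e : ℂ × ℂ) (z : ℂ) :
    Wr n β v w q (q + z • e) = v.2 * w.1 - v.1 * w.2 + z * ∫ τ in (0 : ℝ)..2 * π,
      exp (I * ((n : ℝ) * τ + q.2 * Real.sin τ))
        * (e.1 * ((Z n β v q τ).2 * (Z n β w (q + z • e) (cl τ)).2)
          - I * e.2 * Real.cos τ * ((Z n β v q τ).2 * (Z n β w (q + z • e) (cl τ)).1)) := by
  have h1 := Z_isZ n β w (q + z • e)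
  have h2 := Z_isZ n β v q
  have c1 := h1.cont
  have c2 := h2.cont
  have hd : ∀ τ : ℝ, HasDerivAt (fun τ : ℝ => exp (I * ((n : ℝ) * τ + q.2 * Real.sin τ))
      * ((Z n β v q τ).2 * (Z n β w (q + z • e) τ).1 - (Z n β v q τ).1 * (Z n β w (q + z • e) τ).2))
      (z * (exp (I * ((n : ℝ) * τ + q.2 * Real.sin τ))
        * (e.1 * ((Z n β v q τ).2 * (Z n β w (q + z • e) τ).2)
          - I * e.2 * Real.cos τ * ((Z n β v q τ).2 * (Z n β w (q + z • e) τ).1)))) τ := by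
    intro τ
    have h0 := (((((hasDerivAt_id τ).ofReal_comp).const_mul ((n : ℝ) : ℂ)).add
      (((Real.hasDerivAt_sin τ).ofReal_comp).const_mul q.2)).const_mul I).cexp
    refine (h0.mul (((h2.d2 τ).mul (h1.d1 τ)).sub ((h2.d1 τ).mul (h1.d2 τ)))).congr_deriv ?_
    simp only [Pi.add_apply, Pi.mul_apply, Pi.sub_apply, id, ofReal_one, Prod.fst_add,
      Prod.snd_add, Prod.smul_fst, Prod.smul_snd, smul_eq_mul]
    ring
  have h5 := intervalIntegral.integral_eq_sub_of_hasDerivAt (a := 0) (b := 2 * π)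
    (fun τ _ => hd τ) (Continuous.intervalIntegrable (by fun_prop) _ _)
  have e1 : exp (I * ((n : ℝ) * ((2 * π : ℝ) : ℂ) + q.2 * Real.sin (2 * π))) = 1 := by
    rw [Real.sin_two_pi, ← exp_int0 n]
    congr 1
    push_cast
    ring
  rw [e1, Z_zero, Z_zero, intervalIntegral.integral_const_mul] at h5
  rw [intervalIntegral.integral_congr (g := fun τ : ℝ => exp (I * ((n : ℝ) * τ + q.2 * Real.sin τ))
        * (e.1 * ((Z n β v q τ).2 * (Z n β w (q + z • e) τ).2)
          - I * e.2 * Real.cos τ * ((Z n β v q τ).2 * (Z n β w (q + z • e) τ).1))), h5, Wr]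
  · simp
  · intro τ hτ
    rw [uIcc_of_le (by positivity)] at hτ
    simp only [cl_eq hτ]

theorem diff_of_cont {c : ℂ} {g : ℂ → ℂ} (hg : Continuous g) :
    DifferentiableAt ℂ (fun z => c + z * g z) 0 := by
  refine (hasDerivAt_iff_tendsto_slope_zero (f' := g 0)).2 ?_ |>.differentiableAt
  refine ((hg.tendsto 0).mono_left nhdsWithin_le_nhds).congr' ?_
  filter_upwards [self_mem_nhdsWithin] with t ht
  have : t ≠ 0 := ht
  simp only [zero_add, zero_mul, add_zero, add_sub_cancel_left, smul_eq_mul]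
  field_simp

theorem Wr_diff (n : ℤ) (β : ℂ) (v w q e : ℂ × ℂ) :
    DifferentiableAt ℂ (fun z : ℂ => Wr n β v w q (q + z • e)) 0 := by
  simp only [Wr_eq]
  apply diff_of_cont
  have c1 : Continuous fun z : ℂ × ℝ => Z n β w (q + z.1 • e) (cl z.2) :=
    (Z_cont n β w).comp (f := fun z : ℂ × ℝ => (q + z.1 • e, z.2)) (by fun_prop)
  have c2 := (Z_isZ n β v q).cont
  have c3 : Continuous fun z : ℂ × ℝ => (Z n β v q z.2).2 := by fun_prop
  refine intervalIntegral.continuous_parametric_intervalIntegral_of_continuous' ?_ _ _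
  exact Continuous.mul (by fun_prop) ((continuous_const.mul (c3.mul c1.snd)).sub
    (Continuous.mul (by fun_prop) (c3.mul c1.fst)))

theorem Wr_det (n : ℤ) (β : ℂ) (q : ℂ × ℂ) : Wr n β (0, 1) (1, 0) q q = 1 := by
  simpa using Wr_eq n β (0, 1) (1, 0) q 0 0

/-- trace of the monodromy matrix -/
noncomputable def TR (l : ℝ) (β : ℂ) (p : ℂ × ℂ) : ℂ :=
  (Z l β (1, 0) p (2 * π)).1 + (Z l β (0, 1) p (2 * π)).2

theorem TR_diff (n : ℤ) (β : ℂ) (q e : ℂ × ℂ) : Differentiable ℂ fun z : ℂ => TR n β (q + z • e) := by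
  intro z₀
  set q' := q + z₀ • e with hq'
  have h : DifferentiableAt ℂ (fun z : ℂ => TR n β (q' + z • e)) 0 := by
    have e1 : (fun z : ℂ => TR n β (q' + z • e)) = fun z =>
        ((Z n β (1, 0) q' (2 * π)).1 * Wr n β (0, 1) (1, 0) q' (q' + z • e)
          - (Z n β (0, 1) q' (2 * π)).1 * Wr n β (1, 0) (1, 0) q' (q' + z • e))
        + ((Z n β (1, 0) q' (2 * π)).2 * Wr n β (0, 1) (0, 1) q' (q' + z • e)
          - (Z n β (0, 1) q' (2 * π)).2 * Wr n β (1, 0) (0, 1) q' (q' + z • e)) := by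
      ext z
      have := Wr_det n β q'
      unfold Wr at *
      unfold TR
      linear_combination (-((Z n β (1, 0) (q' + z • e) (2 * π)).1
        + (Z n β (0, 1) (q' + z • e) (2 * π)).2)) * this
    rw [e1]
    exact (((Wr_diff _ _ _ _ _ _).const_mul _).sub ((Wr_diff _ _ _ _ _ _).const_mul _)).add
      (((Wr_diff _ _ _ _ _ _).const_mul _).sub ((Wr_diff _ _ _ _ _ _).const_mul _))
  have h2 : DifferentiableAt ℂ (fun z : ℂ => TR n β (q' + (z - z₀) • e)) z₀ :=
    DifferentiableAt.comp (g := fun z : ℂ => TR n β (q' + z • e)) (f := fun z => z - z₀) z₀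
      (by simpa using h) (by fun_prop)
  convert h2 using 3 with z
  rw [hq', sub_smul]
  abel

theorem TR_scale (l : ℝ) (β : ℂ) (p : ℂ × ℂ) {c : ℂ} (hc : c ≠ 0) :
    TR l (c * β) (p.1 / c, p.2) = TR l β p := by
  have h1 := (Z_isZ l (c * β) (1, 0) (p.1 / c, p.2)).unique ((Z_isZ l β (1, 0) p).scale hc 1)
    (by simp [Z_zero])
  have h2 := (Z_isZ l (c * β) (0, 1) (p.1 / c, p.2)).unique ((Z_isZ l β (0, 1) p).scale hc c⁻¹)
    (by simp [Z_zero, hc])
  rw [TR, h1, h2, TR]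
  simp [hc]

theorem TR_bound (l : ℝ) (β : ℂ) (p : ℂ × ℂ) :
    ‖TR l β p‖ ≤ 2 * Real.exp ((|l| + ‖β‖ + (‖p.1‖ + ‖p.2‖)) * (2 * π)) := by
  have h1 := (Z_isZ l β (1, 0) p).bound
  have h2 := (Z_isZ l β (0, 1) p).bound
  rw [Z_zero] at h1 h2
  simp only [Prod.norm_mk, norm_one, norm_zero, zero_le_one, sup_of_le_left, sup_of_le_right,
    one_mul] at h1 h2
  refine (norm_add_le _ _).trans ?_
  linarith [norm_fst_le (Z l β (1, 0) p (2 * π)), norm_snd_le (Z l β (0, 1) p (2 * π))]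

theorem seq_zero {p : ℕ → ℂ} {l s M : ℝ} {α : ℂ} (hα : α.im ≠ 0) (hM : ∀ k, ‖p k‖ ≤ M)
    (h0 : p 0 = 0) (h : ∀ k : ℕ, ((k + 1 : ℝ) + l + α / (k + 1 : ℝ)) * p (k + 1)
      + s / 2 * (p k + p (k + 2)) = 0) (k : ℕ) : p k = 0 := by
  set c : ℕ → ℝ := fun k => α.im * (s / 2 * (p (k + 1) * conj (p k)).im) with hc
  have step : ∀ k : ℕ, c (k + 1) = c k - α.im ^ 2 * normSq (p (k + 1)) / (k + 1) := by
    intro k
    have h1 := congrArg im (congrArg (· * conj (p (k + 1))) (h k))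
    have hk : (k + 1 : ℝ) ≠ 0 := by positivity
    rw [add_mul, mul_assoc, mul_conj, div_eq_mul_inv α, ← ofReal_inv,
      show (s : ℂ) / 2 = ((s / 2 : ℝ) : ℂ) by push_cast; ring] at h1
    simp only [add_im, mul_im, mul_re, add_re, ofReal_re, ofReal_im, conj_re, conj_im, zero_mul,
      zero_im] at h1
    simp only [hc, mul_im, conj_re, conj_im]
    rw [div_eq_mul_inv (α.im ^ 2 * _)]
    linear_combination α.im * h1
  have anti : Antitone c := antitone_nat_of_succ_le fun k => by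
    rw [step]
    have := normSq_nonneg (p (k + 1))
    have : 0 ≤ α.im ^ 2 * normSq (p (k + 1)) / (k + 1) := by positivity
    linarith
  have hM0 : 0 ≤ M := (norm_nonneg _).trans (hM 0)
  have lim : Tendsto p atTop (𝓝 0) := by
    rw [← tendsto_add_atTop_iff_nat 1]
    have t1 : Tendsto (fun k : ℕ => |s| * M / ((k : ℝ) + (1 - |l| - ‖α‖))) atTop (𝓝 0) :=
      tendsto_const_nhds.div_atTop (tendsto_atTop_add_const_right _ _ tendsto_natCast_atTop_atTop)
    refine squeeze_zero_norm' ?_ t1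
    filter_upwards [tendsto_natCast_atTop_atTop.eventually_gt_atTop (|l| + ‖α‖)] with k hk
    rw [le_div_iff₀ (by linarith)]
    have h1 := congrArg norm (eq_neg_of_add_eq_zero_left (h k))
    rw [norm_neg, norm_mul, norm_mul] at h1
    have h2 : ‖(s : ℂ) / 2‖ * ‖p k + p (k + 2)‖ ≤ |s| * M := by
      rw [norm_div, norm_real, Real.norm_eq_abs, Complex.norm_ofNat]
      have := norm_add_le (p k) (p (k + 2))
      nlinarith [hM k, hM (k + 2), abs_nonneg s]
    have h3 : (k : ℝ) + (1 - |l| - ‖α‖) ≤ ‖((k + 1 : ℝ) : ℂ) + l + α / (k + 1 : ℝ)‖ := by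
      have a1 := norm_sub_le (((k + 1 : ℝ) : ℂ) + l + α / (k + 1 : ℝ)) (l + α / (k + 1 : ℝ))
      have a2 := norm_add_le (l : ℂ) (α / (k + 1 : ℝ))
      have a3 : ‖α / (k + 1 : ℝ)‖ ≤ ‖α‖ := by
        rw [norm_div, norm_real, Real.norm_eq_abs, abs_of_pos (by positivity)]
        exact div_le_self (norm_nonneg _) (by linarith [(Nat.cast_nonneg k : (0 : ℝ) ≤ k)])
      rw [add_assoc, add_sub_cancel_right, norm_real, Real.norm_eq_abs,
        abs_of_pos (by positivity), ← add_assoc] at a1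
      rw [norm_real, Real.norm_eq_abs] at a2
      linarith
    nlinarith [norm_nonneg (p (k + 1))]
  have limc : Tendsto c atTop (𝓝 0) := by
    have t1 := (lim.comp (tendsto_add_atTop_nat 1)).mul ((continuous_conj.tendsto 0).comp lim)
    have t2 := (((continuous_im.tendsto _).comp t1).const_mul (s / 2)).const_mul α.im
    rw [show α.im * (s / 2 * ((0 : ℂ) * conj 0).im) = 0 by simp] at t2
    exact t2
  have c0 : c 0 = 0 := by simp [hc, h0]
  have cz : ∀ k, c k = 0 := fun k => le_antisymm (c0 ▸ anti (Nat.zero_le k)) (anti.le_of_tendsto limc k)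
  rcases k with _ | k
  · exact h0
  · have := step k
    rw [cz, cz, zero_sub, eq_comm, neg_eq_zero, div_eq_zero_iff, mul_eq_zero] at this
    rcases this with (h1 | h1) | h1
    · exact absurd (pow_eq_zero_iff two_ne_zero |>.1 h1) hα
    · exact normSq_eq_zero.1 h1
    · exact absurd h1 (by positivity)

theorem TR_real_zero {n : ℤ} {s : ℝ} {α : ℂ} (h : TR n 1 (α, (s : ℂ)) = 2) : α.im = 0 := by
  by_contra hα
  have hd := Wr_det n 1 (α, (s : ℂ))
  unfold Wr at hd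
  unfold TR at h
  obtain ⟨P, R, hPR, e1, e2⟩ := exists_ker (x := (Z n 1 (1, 0) (α, (s : ℂ)) (2 * π)).1 - 1)
    (y := (Z n 1 (0, 1) (α, (s : ℂ)) (2 * π)).1) (z := (Z n 1 (1, 0) (α, (s : ℂ)) (2 * π)).2)
    (w := (Z n 1 (0, 1) (α, (s : ℂ)) (2 * π)).2 - 1) (by linear_combination hd - h)
  obtain ⟨y, hy, y0, y1⟩ : ∃ y : ℝ → ℂ × ℂ, IsZ n 1 (α, (s : ℂ)) y ∧ y 0 = (P, R) ∧
      y (2 * π) = y 0 := by
    refine ⟨_, (Z_isZ n 1 (1, 0) (α, (s : ℂ))).comb (Z_isZ n 1 (0, 1) (α, (s : ℂ))) P R,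
      by simp [Z_zero], ?_⟩
    simp only [Z_zero, Prod.mk.injEq]
    exact ⟨by linear_combination e1, by linear_combination e2⟩
  have per := hy.shift.unique hy (by simpa using y1)
  have cy := hy.cont
  have r2 : ∀ k : ℤ, co (fun τ => (y τ).1) k = I * k * co (fun τ => (y τ).2) k := by
    intro k
    have := co_deriv hy.d2 (by fun_prop) (x := k) (by rw [exp_int0, one_mul, y1])
    simpa using this
  have r1 : ∀ k : ℤ, (k + n) * co (fun τ => (y τ).1) k + s / 2 * (co (fun τ => (y τ).1) (k - 1)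
      + co (fun τ => (y τ).1) (k + 1)) = -I * α * co (fun τ => (y τ).2) k := by
    intro k
    have h1 := co_deriv hy.d1 (by fun_prop) (x := k) (by rw [exp_int0, one_mul, y1])
    have e : (fun τ : ℝ => -I * (((n : ℝ) : ℂ) + (s : ℂ) * Real.cos τ) * (y τ).1 + α * (y τ).2)
        = fun τ => 1 * ((-I * n) * (y τ).1 + (-I * s) * ((Real.cos τ : ℂ) * (y τ).1))
          + α * (y τ).2 := by
      ext τ; push_cast; ring
    rw [e, co_comb (by fun_prop) (by fun_prop), co_comb (by fun_prop) (by fun_prop),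
      co_cos (by fun_prop)] at h1
    push_cast at h1
    linear_combination I * h1 + ((k + n) * co (fun τ => (y τ).1) k + s / 2
      * (co (fun τ => (y τ).1) (k - 1) + co (fun τ => (y τ).1) (k + 1))) * I_sq
  have r3 : ∀ k : ℤ, k ≠ 0 → (k + n + α / k) * co (fun τ => (y τ).1) k
      + s / 2 * (co (fun τ => (y τ).1) (k - 1) + co (fun τ => (y τ).1) (k + 1)) = 0 := by
    intro k hk
    have hk' : (k : ℂ) ≠ 0 := by exact_mod_cast hk
    have e : α / k * co (fun τ => (y τ).1) k = I * α * co (fun τ => (y τ).2) k := by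
      rw [r2]; field_simp
    linear_combination r1 k + e
  obtain ⟨M, hM⟩ := co_bdd cy.fst
  have z0 : co (fun τ => (y τ).1) 0 = 0 := by simpa using r2 0
  have zp := seq_zero (p := fun k : ℕ => co (fun τ => (y τ).1) k) (l := n) (s := s) hα
    (fun k => hM _) (by simpa using z0) fun k => by
      have := r3 (k + 1 : ℕ) (by exact_mod_cast Nat.succ_ne_zero k)
      push_cast at this ⊢
      rwa [add_sub_cancel_right, add_assoc (k : ℝ), one_add_one_eq_two] at this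
  have zn := seq_zero (p := fun k : ℕ => co (fun τ => (y τ).1) (-k)) (l := -n) (s := -s) hα
    (fun k => hM _) (by simpa using z0) fun k => by
      have := r3 (-(k + 1 : ℕ)) (by rw [neg_ne_zero]; exact_mod_cast Nat.succ_ne_zero k)
      push_cast at this ⊢
      rw [show -((k : ℝ) + 1) - 1 = -(k + 2) by ring, show -((k : ℝ) + 1) + 1 = -k by ring,
        div_neg] at this
      linear_combination -this
  have hz : ∀ k : ℤ, co (fun τ => (y τ).1) k = 0 := by
    intro k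
    obtain ⟨m, rfl | rfl⟩ := k.eq_nat_or_neg
    · simpa using zp m
    · simpa using zn m
  have hα0 : α ≠ 0 := by rintro rfl; simp at hα
  have hzb : ∀ k : ℤ, co (fun τ => (y τ).2) k = 0 := by
    intro k
    have := r1 k
    have a1 := hz (k - 1)
    have a2 := hz (k + 1)
    push_cast at a1 a2
    rw [hz, a1, a2] at this
    simpa [hα0] using this
  have z1 := zero_of_co (ν := 0) cy.fst (fun τ => by simpa using congrArg Prod.fst (congrFun per τ))
    (by simpa using hz)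
  have z2 := zero_of_co (ν := 0) cy.snd (fun τ => by simpa using congrArg Prod.snd (congrFun per τ))
    (by simpa using hzb)
  rw [y0] at z1 z2
  rcases hPR with h | h
  exacts [h z1, h z2]

end Pool.Agent.H364Z
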